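import Pool.Agent.Y97.FD.Uni

/-!
# The isometry group of the standard form
-/

set_option linter.unusedSectionVars false

open Finset Matrix Pool.Agent.W552 Pool.Agent.Y97

open scoped MatrixOrder ComplexOrder

namespace Pool.Agent.Y97.FD

variable {R : Type} [Fintype R] [DecidableEq R] {S : Std R} {κ κ' : Type} [Fintype κ]
  [DecidableEq κ] [Fintype κ'] [DecidableEq κ']

/-- The parity matrix. -/
def Std.Tm (S : Std R) : Matrix R R ℂ := Matrix.diagonal fun i => (S.tau i : ℂ)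

lemma Tm_mul_Tm : S.Tm * S.Tm = 1 := by
  rw [Std.Tm, Matrix.diagonal_mul_diagonal, ← Matrix.diagonal_one]
  congr 1
  funext i
  rw [← Int.cast_mul, S.tau_sq, Int.cast_one]

lemma Tm_transpose : S.Tmᵀ = S.Tm := Matrix.diagonal_transpose _

lemma Tm_conjTranspose : S.Tmᴴ = S.Tm := by
  rw [Std.Tm, Matrix.diagonal_conjTranspose]
  congr 1
  funext i
  simp

lemma C_transpose : (S.C ℂ)ᵀ = S.Tm * S.C ℂ := by
  ext i j
  rw [Matrix.transpose_apply, Std.Tm, Matrix.diagonal_mul, Std.C_apply, Std.C_apply]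
  by_cases h : j = S.inv i
  · subst h
    rw [if_pos rfl, if_pos (S.inv_inv i).symm, S.sg_inv', Int.cast_mul]
  · rw [if_neg h, if_neg, mul_zero]
    intro h'
    exact h (by rw [h', S.inv_inv])

lemma C_mul_Tm : S.C ℂ * S.Tm = S.Tm * S.C ℂ := by
  ext i j
  rw [Std.Tm, Matrix.diagonal_mul, Matrix.mul_diagonal, Std.C_apply]
  by_cases h : j = S.inv i
  · subst h
    rw [if_pos rfl, S.tau_inv, mul_comm]
  · rw [if_neg h, mul_zero, zero_mul]

lemma C_map_conj : (S.C ℂ).map (starRingEnd ℂ) = S.C ℂ := by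
  ext i j
  rw [Matrix.map_apply, Std.C_apply]
  split_ifs <;> simp

lemma C_conjTranspose : (S.C ℂ)ᴴ = (S.C ℂ)ᵀ := by
  ext i j
  rw [Matrix.conjTranspose_apply, Matrix.transpose_apply]
  exact congrFun (congrFun (C_map_conj (S := S)) j) i

/-- The matrices preserving the standard form and the parity. -/
structure IsH (S : Std R) (g : Matrix R R ℂ) : Prop where
  form : g * S.C ℂ * gᵀ = S.C ℂ
  par : g * S.Tm = S.Tm * g

lemma IsH.mul_inv {g : Matrix R R ℂ} (hg : IsH S g) : g * (S.C ℂ * gᵀ * (S.C ℂ)ᵀ) = 1 := by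
  rw [← Matrix.mul_assoc, ← Matrix.mul_assoc, hg.form, S.C_mul_transpose]

lemma IsH.inv_mul {g : Matrix R R ℂ} (hg : IsH S g) : S.C ℂ * gᵀ * (S.C ℂ)ᵀ * g = 1 :=
  mul_eq_one_comm.1 hg.mul_inv

lemma IsH.mul {g h : Matrix R R ℂ} (hg : IsH S g) (hh : IsH S h) : IsH S (g * h) where
  form := by
    rw [Matrix.transpose_mul]
    calc _ = g * (h * S.C ℂ * hᵀ) * gᵀ := by simp only [Matrix.mul_assoc]
      _ = _ := by rw [hh.form, hg.form]
  par := by rw [Matrix.mul_assoc, hh.par, ← Matrix.mul_assoc, hg.par, Matrix.mul_assoc]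

lemma IsH.one : IsH S (1 : Matrix R R ℂ) where
  form := by rw [Matrix.one_mul, Matrix.transpose_one, Matrix.mul_one]
  par := by rw [Matrix.one_mul, Matrix.mul_one]

lemma isH_C : IsH S (S.C ℂ) where
  form := by rw [Matrix.mul_assoc, S.C_mul_transpose, Matrix.mul_one]
  par := C_mul_Tm

lemma IsH.transpose {g : Matrix R R ℂ} (hg : IsH S g) : IsH S gᵀ where
  form := by
    rw [Matrix.transpose_transpose]
    have h1 : gᵀ * (S.C ℂ)ᵀ * g = (S.C ℂ)ᵀ := by
      calc _ = ((S.C ℂ)ᵀ * S.C ℂ) * gᵀ * (S.C ℂ)ᵀ * g := by rw [S.transpose_mul_C, Matrix.one_mul]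
        _ = (S.C ℂ)ᵀ * (S.C ℂ * gᵀ * (S.C ℂ)ᵀ * g) := by simp only [Matrix.mul_assoc]
        _ = _ := by rw [hg.inv_mul, Matrix.mul_one]
    have h2 : gᵀ * S.Tm = S.Tm * gᵀ := by
      have := congrArg Matrix.transpose hg.par
      rw [Matrix.transpose_mul, Matrix.transpose_mul, Tm_transpose] at this
      exact this.symm
    rw [C_transpose, ← Matrix.mul_assoc, h2] at h1
    calc _ = (S.Tm * S.Tm) * gᵀ * S.C ℂ * g := by rw [Tm_mul_Tm, Matrix.one_mul]
      _ = S.Tm * (S.Tm * gᵀ * S.C ℂ * g) := by simp only [Matrix.mul_assoc]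
      _ = (S.Tm * S.Tm) * S.C ℂ := by rw [h1, Matrix.mul_assoc]
      _ = _ := by rw [Tm_mul_Tm, Matrix.one_mul]
  par := by
    have := congrArg Matrix.transpose hg.par
    rw [Matrix.transpose_mul, Matrix.transpose_mul, Tm_transpose] at this
    exact this.symm

lemma IsH.conj {g : Matrix R R ℂ} (hg : IsH S g) : IsH S (g.map (starRingEnd ℂ)) where
  form := by
    have := congrArg (fun M : Matrix R R ℂ => M.map (starRingEnd ℂ)) hg.form
    simp only [Matrix.map_mul, C_map_conj] at this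
    rw [Matrix.transpose_map] at this
    exact this
  par := by
    have h0 : S.Tm.map (starRingEnd ℂ) = S.Tm := by
      have := Tm_conjTranspose (S := S)
      rw [Matrix.conjTranspose, Tm_transpose] at this
      exact this
    have := congrArg (fun M : Matrix R R ℂ => M.map (starRingEnd ℂ)) hg.par
    simp only [Matrix.map_mul, h0] at this
    exact this

lemma IsH.conjTranspose {g : Matrix R R ℂ} (hg : IsH S g) : IsH S gᴴ :=
  hg.transpose.conj

lemma IsH.inv {g h : Matrix R R ℂ} (hg : IsH S g) (hh : h * g = 1) : IsH S h := by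
  have h1 : h = S.C ℂ * gᵀ * (S.C ℂ)ᵀ := by
    calc h = h * (g * (S.C ℂ * gᵀ * (S.C ℂ)ᵀ)) := by rw [hg.mul_inv, Matrix.mul_one]
      _ = _ := by rw [← Matrix.mul_assoc, hh, Matrix.one_mul]
  rw [h1]
  exact (isH_C.mul hg.transpose).mul isH_C.transpose

/-- Square roots. -/
lemma IsH.sqrt {p : Matrix R R ℂ} (hp : IsH S p) (hpos : p.PosDef) :
    ∃ s : Matrix R R ℂ, IsH S s ∧ s.PosDef ∧ s * s = p := by
  have h0 : 0 ≤ p := hpos.posSemidef.nonneg
  let s := CFC.sqrt p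
  have hs0 : 0 ≤ s := CFC.sqrt_nonneg p
  have hs : s * s = p := CFC.sqrt_mul_sqrt_self p h0
  have hsp : s.PosSemidef := hs0.posSemidef
  have hu : IsUnit s := by
    have h1 : IsUnit p := hpos.isUnit
    rw [← hs] at h1
    exact isUnit_of_mul_isUnit_left h1
  have hsd : s.PosDef := hsp.posDef_iff_isUnit.2 hu
  refine ⟨s, ⟨?_, ?_⟩, hsd, hs⟩
  · have h1 : (S.C ℂ * sᵀ * (S.C ℂ)ᵀ).PosSemidef := by
      rw [← C_conjTranspose]
      exact hsp.transpose.mul_mul_conjTranspose_same _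
    have h2 : (S.C ℂ * sᵀ * (S.C ℂ)ᵀ) * (S.C ℂ * sᵀ * (S.C ℂ)ᵀ) = p⁻¹ := by
      calc _ = S.C ℂ * sᵀ * ((S.C ℂ)ᵀ * S.C ℂ) * sᵀ * (S.C ℂ)ᵀ := by
            simp only [Matrix.mul_assoc]
        _ = S.C ℂ * (s * s)ᵀ * (S.C ℂ)ᵀ := by
            rw [S.transpose_mul_C, Matrix.mul_one, Matrix.transpose_mul]
            simp only [Matrix.mul_assoc]
        _ = _ := by
            rw [hs]
            symm
            exact Matrix.inv_eq_right_inv hp.mul_inv
    have h3 : s⁻¹ * s⁻¹ = p⁻¹ := by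
      rw [← Matrix.mul_inv_rev, hs]
    have h4 : CFC.sqrt (p⁻¹) = S.C ℂ * sᵀ * (S.C ℂ)ᵀ := CFC.sqrt_unique h2 h1.nonneg
    have h5 : CFC.sqrt (p⁻¹) = s⁻¹ := CFC.sqrt_unique h3 hsp.inv.nonneg
    have h6 : s * (S.C ℂ * sᵀ * (S.C ℂ)ᵀ) = 1 := by
      rw [← h4, h5]
      exact Matrix.mul_nonsing_inv _ ((Matrix.isUnit_iff_isUnit_det _).1 hu)
    calc s * S.C ℂ * sᵀ = s * S.C ℂ * sᵀ * ((S.C ℂ)ᵀ * S.C ℂ) := by
          rw [S.transpose_mul_C, Matrix.mul_one]
      _ = (s * (S.C ℂ * sᵀ * (S.C ℂ)ᵀ)) * S.C ℂ := by simp only [Matrix.mul_assoc]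
      _ = _ := by rw [h6, Matrix.one_mul]
  · have h1 : (S.Tm * s * S.Tm).PosSemidef := by
      have := hsp.mul_mul_conjTranspose_same S.Tm
      rwa [Tm_conjTranspose] at this
    have h2 : (S.Tm * s * S.Tm) * (S.Tm * s * S.Tm) = p := by
      calc _ = S.Tm * s * (S.Tm * S.Tm) * s * S.Tm := by simp only [Matrix.mul_assoc]
        _ = S.Tm * (s * s) * S.Tm := by
            rw [Tm_mul_Tm, Matrix.mul_one]; simp only [Matrix.mul_assoc]
        _ = _ := by rw [hs, ← hp.par, Matrix.mul_assoc, Tm_mul_Tm, Matrix.mul_one]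
    have h3 : CFC.sqrt p = S.Tm * s * S.Tm := CFC.sqrt_unique h2 h1.nonneg
    change s = _ at h3
    calc s * S.Tm = S.Tm * s * S.Tm * S.Tm := by rw [← h3]
      _ = _ := by rw [Matrix.mul_assoc, Tm_mul_Tm, Matrix.mul_one]

/-! ### The action on cups -/

/-- Products of matrices as tensors. -/
def cupM {F : Type*} [CommRing F] (M : κ → Matrix R R F) : (κ ⊕ κ → R) → F :=
  fun J => ∏ s, M s (J (Sum.inl s)) (J (Sum.inr s))

lemma act_cupM {F : Type*} [CommRing F] (g : Matrix R R F) (M : κ → Matrix R R F) :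
    act g (cupM M) = cupM (fun s => g * M s * gᵀ) := by
  funext J
  rw [act_apply, cupM, sum_sumArrow, ← Fintype.sum_prod_type']
  have h1 : ∀ s, (g * M s * gᵀ) (J (Sum.inl s)) (J (Sum.inr s)) =
      ∑ ab : R × R, g (J (Sum.inl s)) ab.1 * g (J (Sum.inr s)) ab.2 * M s ab.1 ab.2 := by
    intro s
    rw [Matrix.mul_apply, Fintype.sum_prod_type_right]
    refine Finset.sum_congr rfl fun b _ => ?_
    rw [Matrix.mul_apply, Finset.sum_mul, Matrix.transpose_apply]
    exact Finset.sum_congr rfl fun a _ => by ring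
  simp only [h1]
  rw [Finset.prod_univ_sum, Fintype.piFinset_univ]
  refine Fintype.sum_equiv ((Equiv.arrowProdEquivProdArrow κ (fun _ => R) (fun _ => R)).symm) _ _
    fun p => ?_
  rw [cupM, Fintype.prod_sum_type, ← Finset.prod_mul_distrib, ← Finset.prod_mul_distrib]
  rfl

/-- The coloured form matrix. -/
def Std.Cc (S : Std R) (F : Type*) [CommRing F] (b : Bool) : Matrix R R F :=
  Matrix.of fun i j => if S.par i = b ∧ j = S.inv i then (S.sg i : F) else 0

omit [DecidableEq κ] in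
lemma cupK_eq_cupM {F : Type*} [CommRing F] (c : κ → Bool) :
    cupK S F c = cupM (fun s => S.Cc F (c s)) := rfl

omit [DecidableEq κ] in
lemma cupA_eq_cupM : cupA S κ ℂ = cupM (fun _ => S.C ℂ) := rfl

/-- The parity projectors. -/
def Std.Em (S : Std R) (b : Bool) : Matrix R R ℂ :=
  Matrix.diagonal fun i => if S.par i = b then 1 else 0

lemma Em_mul_C (b : Bool) : S.Em b * S.C ℂ = S.Cc ℂ b := by
  ext i j
  rw [Std.Em, Matrix.diagonal_mul, Std.C_apply, Std.Cc, Matrix.of_apply]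
  by_cases h1 : S.par i = b <;> by_cases h2 : j = S.inv i <;> simp [h1, h2]

lemma Em_eq (b : Bool) : S.Em b = (1 / 2 : ℂ) • (1 + (if b then -1 else 1 : ℂ) • S.Tm) := by
  ext i j
  rw [Std.Em, Std.Tm, Matrix.smul_apply, Matrix.add_apply, Matrix.smul_apply]
  by_cases h : i = j
  · subst h
    rw [Matrix.diagonal_apply_eq, Matrix.diagonal_apply_eq, Matrix.one_apply_eq, Std.tau]
    rcases S.par i <;> rcases b <;> norm_num
  · rw [Matrix.diagonal_apply_ne _ h, Matrix.diagonal_apply_ne _ h, Matrix.one_apply_ne h]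
    simp

lemma IsH.Em {g : Matrix R R ℂ} (hg : IsH S g) (b : Bool) : g * S.Em b = S.Em b * g := by
  rw [Em_eq, Matrix.mul_smul, Matrix.smul_mul, Matrix.mul_add, Matrix.add_mul, Matrix.mul_one,
    Matrix.one_mul, Matrix.mul_smul, Matrix.smul_mul, hg.par]

lemma IsH.Cc {g : Matrix R R ℂ} (hg : IsH S g) (b : Bool) :
    g * S.Cc ℂ b * gᵀ = S.Cc ℂ b := by
  rw [← Em_mul_C, ← Matrix.mul_assoc, hg.Em, Matrix.mul_assoc, Matrix.mul_assoc,
    ← Matrix.mul_assoc g, hg.form]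

lemma IsH.act_cupK {g : Matrix R R ℂ} (hg : IsH S g) (c : κ → Bool) :
    act g (cupK S ℂ c) = cupK S ℂ c := by
  rw [cupK_eq_cupM, act_cupM]
  congr 1
  funext s
  exact hg.Cc _

lemma IsH.act_cupA {g : Matrix R R ℂ} (hg : IsH S g) : act g (cupA S κ ℂ) = cupA S κ ℂ := by
  rw [cupA_eq_cupM, act_cupM]
  congr 1
  funext s
  exact hg.form

/-- A matrix fixing the cups preserves the form and the parity. -/
lemma isH_of_cup {g : Matrix R R ℂ} (h : ∀ c : Unit → Bool, act g (cupK S ℂ c) = cupK S ℂ c) :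
    IsH S g := by
  have h1 : ∀ b, g * S.Cc ℂ b * gᵀ = S.Cc ℂ b := by
    intro b
    ext i j
    have h2 := congrFun (h fun _ => b) (Sum.elim (fun _ => i) (fun _ => j))
    rw [cupK_eq_cupM, act_cupM] at h2
    simpa [cupM] using h2
  have h3 : S.C ℂ = S.Cc ℂ false + S.Cc ℂ true := by
    ext i j
    rw [Matrix.add_apply, Std.C_apply, Std.Cc, Std.Cc, Matrix.of_apply, Matrix.of_apply]
    by_cases h2 : j = S.inv i <;> rcases hp : S.par i <;> simp [h2]
  have hform : g * S.C ℂ * gᵀ = S.C ℂ := by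
    rw [h3, Matrix.mul_add, Matrix.add_mul, h1, h1]
  have h4 : S.Tm * S.C ℂ = S.Cc ℂ false - S.Cc ℂ true := by
    ext i j
    rw [Matrix.sub_apply, Std.Tm, Matrix.diagonal_mul, Std.C_apply, Std.Cc, Std.Cc,
      Matrix.of_apply, Matrix.of_apply, Std.tau]
    by_cases h2 : j = S.inv i <;> rcases hp : S.par i <;> simp [h2]
  have h5 : g * (S.Tm * S.C ℂ) * gᵀ = S.Tm * S.C ℂ := by
    rw [h4, Matrix.mul_sub, Matrix.sub_mul, h1, h1]
  refine ⟨hform, ?_⟩
  have h6 : S.C ℂ * (gᵀ * (S.C ℂ)ᵀ) * g = 1 := by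
    rw [← Matrix.mul_assoc]
    have h7 : g * (S.C ℂ * gᵀ * (S.C ℂ)ᵀ) = 1 := by
      rw [← Matrix.mul_assoc, ← Matrix.mul_assoc, hform, S.C_mul_transpose]
    exact mul_eq_one_comm.1 h7
  calc g * S.Tm = g * S.Tm * (S.C ℂ * (gᵀ * (S.C ℂ)ᵀ) * g) := by rw [h6, Matrix.mul_one]
    _ = g * (S.Tm * S.C ℂ) * gᵀ * (S.C ℂ)ᵀ * g := by simp only [Matrix.mul_assoc]
    _ = S.Tm * (S.C ℂ * (S.C ℂ)ᵀ) * g := by rw [h5]; simp only [Matrix.mul_assoc]
    _ = _ := by rw [S.C_mul_transpose, Matrix.mul_one]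

/-- The action commutes with contractions. -/
lemma IsH.act_pc {g : Matrix R R ℂ} (hg : IsH S g) (f : (κ ⊕ (κ' ⊕ κ') → R) → ℂ) :
    act g (pc S f) = pc S (act g f) := by
  rw [pc, pc, pdot_act, hg.transpose.act_cupA]

lemma act_Tm (f : (κ → R) → ℂ) : act S.Tm f = fun I => (∏ s, (S.tau (I s) : ℂ)) * f I := by
  funext I
  rw [act_apply, Finset.sum_eq_single I]
  · congr 1
    exact Finset.prod_congr rfl fun s _ => by rw [Std.Tm, Matrix.diagonal_apply_eq]
  · intro J _ hJ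
    have : ∃ s, I s ≠ J s := by
      by_contra h
      push Not at h
      exact hJ (funext fun s => (h s).symm)
    obtain ⟨s, hs⟩ := this
    have h0 : (∏ s, S.Tm (I s) (J s)) = 0 :=
      Finset.prod_eq_zero (Finset.mem_univ s) (Matrix.diagonal_apply_ne _ hs)
    rw [h0, zero_mul]
  · intro h; exact absurd (Finset.mem_univ _) h

lemma evn_iff (f : (κ → R) → ℂ) : Evn S f ↔ act S.Tm f = f := by
  rw [act_Tm]
  exact ⟨fun h => funext h, fun h I => congrFun h I⟩

lemma IsH.evn {g : Matrix R R ℂ} (hg : IsH S g) {f : (κ → R) → ℂ} (hf : Evn S f) :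
    Evn S (act g f) := by
  rw [evn_iff] at hf ⊢
  rw [← act_mul, ← hg.par, act_mul, hf]

lemma IsH.bp {g : Matrix R R ℂ} (hg : IsH S g) (f f' : (κ → R) → ℂ) :
    bp S (act g f) (act g f') = bp S f f' := by
  rw [FD.bp, FD.bp, dot_act, jl_eq_act, jl_eq_act, ← act_mul, ← act_mul]
  have := hg.transpose.form
  rw [Matrix.transpose_transpose] at this
  rw [this]

/-- The action on models. -/
def actV {K : Type*} [Field K] [CharZero K] {A : ∀ κ : Type, ((κ → R) → K) → Prop}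
    {B : Bas S A} (g : Matrix R R ℂ) (x : B.Vr → ℂ) : B.Vr → ℂ :=
  fun v => act g (B.xt x v.1 v.2.1) v.2.2

section

variable {K : Type*} [Field K] [CharZero K] {A : ∀ κ : Type, ((κ → R) → K) → Prop}
    {B : Bas S A}

lemma xt_actV (g : Matrix R R ℂ) (x : B.Vr → ℂ) (n : ℕ) (i : Fin (B.d n)) :
    B.xt (actV g x) n i = act g (B.xt x n i) := rfl

lemma rn_actV (g : Matrix R R ℂ) (x : B.Vr → ℂ) (n : ℕ) (a : (Fin n → R) → K) :
    B.rn (actV g x) n a = act g (B.rn x n a) := by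
  rw [Bas.rn, Bas.rn, act_sum]
  exact Finset.sum_congr rfl fun i _ => by rw [act_smul, xt_actV]

lemma IsH.isModel {g : Matrix R R ℂ} (hg : IsH S g) {x : B.Vr → ℂ} (hx : IsModel B x) :
    IsModel B (actV g x) where
  perm n σ i := by rw [rn_actV, hx.perm, act_rel, xt_actV]
  tmul n m i j := by rw [rn_actV, hx.tmul, act_rel, act_tmul, xt_actV, xt_actV]
  pc n m i := by rw [rn_actV, hx.pc, hg.act_pc, act_rel, xt_actV]
  one := by
    rw [rn_actV, hx.one]
    funext I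
    rw [act_apply]
    simp
  cup n c := by rw [rn_actV, hx.cup, act_rel, hg.act_cupK]
  even n i := by rw [xt_actV]; exact hg.evn (hx.even n i)

lemma rho_actV (g : Matrix R R ℂ) (x : B.Vr → ℂ) (a : (κ → R) → K) :
    rho B (actV g x) κ a = act g (rho B x κ a) := by
  rw [rho, rho, rn_actV, act_rel]

end

end Pool.Agent.Y97.FD
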