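import Pool.Agent.Y97.FD.Geo4

/-!
# The positive classes are stable under the operations on cycles
-/

set_option linter.unusedSectionVars false

open CategoryTheory AlgebraicGeometry Finset

universe u v

namespace Pool.Agent.Y97.FD

open Pool.Agent.H914 Pool.Agent.H914.VarClass Pool.Agent.H914.VarClass.Obj
  Pool.Agent.H914.WeilCohomology Pool.Agent.H281R3.HT Pool.Agent.W552 Pool.Agent.W539.Ker

variable {k : Type u} [Field k] {𝒱 : VarClass k} {ops : CycleOps 𝒱}
  {W : WeilCohomology.{u, v} ops} {P : Polarized 𝒱}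
  {f : Module.End W.K (W.H P.X)}

lemma map_tup_comp (b : HB W P.X) {Y Z : 𝒱.Obj} (h : Z ⟶ Y) (s : ℕ)
    (g : Fin (s + 1) → (Y ⟶ P.X)) (c : W.H (power ops P s).X) :
    W.map (tup ops P s (fun i => h ≫ g i)) c = W.map h (W.map (tup ops P s g) c) := by
  have h1 : (W.map (tup ops P s (fun i => h ≫ g i))).toLinearMap =
      (W.map h).toLinearMap ∘ₗ (W.map (tup ops P s g)).toLinearMap := by
    apply vec_ext b s
    intro x
    change W.map (tup ops P s (fun i => h ≫ g i)) (vec b s x) =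
      W.map h (W.map (tup ops P s g) (vec b s x))
    rw [map_tup_vec, map_tup_vec, map_vG]
  exact congrArg (fun T => T c) h1

lemma jeq_zero_inl (t : ℕ) : jeq 0 t (Sum.inl 0) = 0 := by
  ext; rw [jeq_inl]; rfl

lemma jeq_zero_inr (t : ℕ) (j : Fin (t + 1)) : jeq 0 t (Sum.inr j) = j.succ := by
  ext; rw [jeq_inr]; simp [add_comm]

lemma jeq_succ_inl_zero (s t : ℕ) : jeq (s + 1) t (Sum.inl 0) = 0 := by
  ext; rw [jeq_inl]; rfl

lemma jeq_succ_inl (s t : ℕ) (i : Fin (s + 1)) :
    jeq (s + 1) t (Sum.inl i.succ) = (jeq s t (Sum.inl i)).succ := by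
  ext; rw [jeq_inl, Fin.val_succ, Fin.val_succ, jeq_inl]

lemma jeq_succ_inr (s t : ℕ) (j : Fin (t + 1)) :
    jeq (s + 1) t (Sum.inr j) = (jeq s t (Sum.inr j)).succ := by
  ext; rw [jeq_inr, Fin.val_succ, jeq_inr]; omega

lemma map_prL (b : HB W P.X) (s t : ℕ) (c : W.H (power ops P s).X) :
    W.map (prL ops P s t) c = W.map (cmap ops P (fun i => jeq s t (Sum.inl i))) c := by
  induction s with
  | zero =>
    have h1 : cmap ops P (fun i => jeq 0 t (Sum.inl i)) = fst P.X (power ops P t).X := by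
      change pr ops P (t + 1) (jeq 0 t (Sum.inl 0)) = _
      rw [jeq_zero_inl]; rfl
    rw [h1]; rfl
  | succ s ih =>
    refine ext_ind (X := P.X) (Y := (power ops P s).X) (p := fun c =>
      W.map (prL ops P (s + 1) t) c =
        W.map (cmap ops P (fun i => jeq (s + 1) t (Sum.inl i))) c) ?_ ?_ c
    · intro a a' ha ha'
      have e1 := map_add (W.map (prL ops P (s + 1) t)) a a'
      have e2 := map_add (W.map (cmap ops P (fun i => jeq (s + 1) t (Sum.inl i)))) a a'
      exact (e1.trans (congrArg₂ (· + ·) ha ha')).trans e2.symm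
    · intro _ _ a _ d _
      have e1 := map_ext (W := W) (P := P) (fst P.X (power ops P (t + 1 + s)).X)
        (snd P.X (power ops P (t + 1 + s)).X ≫ prL ops P s t) a d
      refine e1.trans ?_
      have e2 : cmap ops P (fun i => jeq (s + 1) t (Sum.inl i)) =
          Obj.lift (X := P.X) (Y := (power ops P s).X)
            (pr ops P (t + 1 + (s + 1)) (jeq (s + 1) t (Sum.inl 0)))
            (tup ops P s (fun i => pr ops P (t + 1 + (s + 1))
              (jeq (s + 1) t (Sum.inl i.succ)))) := rfl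
      rw [e2]
      refine Eq.trans ?_ (map_ext (W := W) (P := P) _ _ a d).symm
      have e3 : pr ops P (t + 1 + (s + 1)) (jeq (s + 1) t (Sum.inl 0)) =
          fst P.X (power ops P (t + 1 + s)).X := by
        rw [jeq_succ_inl_zero]; rfl
      have e4 : (fun i => pr ops P (t + 1 + (s + 1)) (jeq (s + 1) t (Sum.inl i.succ))) =
          fun i => snd P.X (power ops P (t + 1 + s)).X ≫
            pr ops P (t + 1 + s) (jeq s t (Sum.inl i)) := by
        funext i
        rw [jeq_succ_inl]; rfl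
      rw [e3, e4]
      have e5 := map_tup_comp b (snd P.X (power ops P (t + 1 + s)).X) s
        (fun i => pr ops P (t + 1 + s) (jeq s t (Sum.inl i))) d
      have e6 : W.map (snd P.X (power ops P (t + 1 + s)).X ≫ prL ops P s t) d =
          W.map (snd P.X (power ops P (t + 1 + s)).X) (W.map (prL ops P s t) d) :=
        W.map_comp _ _ _
      refine congrArg (W.map (fst P.X (power ops P (t + 1 + s)).X) a * ·) ?_
      refine e6.trans (Eq.trans ?_ e5.symm)
      exact congrArg (W.map (snd P.X (power ops P (t + 1 + s)).X)) (ih d)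

lemma map_prR (b : HB W P.X) (s t : ℕ) (d : W.H (power ops P t).X) :
    W.map (prR ops P s t) d = W.map (cmap ops P (fun i => jeq s t (Sum.inr i))) d := by
  induction s with
  | zero =>
    have e4 : (fun i => pr ops P (t + 1) (jeq 0 t (Sum.inr i))) =
        fun i => snd P.X (power ops P t).X ≫ pr ops P t i := by
      funext i
      rw [jeq_zero_inr]; rfl
    have e1 : W.map (cmap ops P (fun i => jeq 0 t (Sum.inr i))) d =
        W.map (snd P.X (power ops P t).X) (W.map (cmap ops P id) d) := by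
      have e5 := map_tup_comp b (snd P.X (power ops P t).X) t (fun i => pr ops P t i) d
      rw [← e4] at e5
      exact e5
    rw [map_cmap_id b] at e1
    exact e1.symm
  | succ s ih =>
    have e4 : (fun i => pr ops P (t + 1 + (s + 1)) (jeq (s + 1) t (Sum.inr i))) =
        fun i => snd P.X (power ops P (t + 1 + s)).X ≫
          pr ops P (t + 1 + s) (jeq s t (Sum.inr i)) := by
      funext i
      rw [jeq_succ_inr]; rfl
    have e5 := map_tup_comp b (snd P.X (power ops P (t + 1 + s)).X) t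
      (fun i => pr ops P (t + 1 + s) (jeq s t (Sum.inr i))) d
    rw [← e4] at e5
    have e6 : W.map (prR ops P (s + 1) t) d =
        W.map (snd P.X (power ops P (t + 1 + s)).X) (W.map (prR ops P s t) d) :=
      W.map_comp _ _ _
    rw [e6, ih]
    exact e5.symm

lemma map_cmap_jn (b : HB W P.X) {s t r : ℕ} (Φ : Fin (t + 1 + s + 1) → Fin (r + 1))
    (c : W.H (power ops P s).X) (d : W.H (power ops P t).X) :
    W.map (cmap ops P Φ) (jn c d) = W.map (cmap ops P (fun i => Φ (jeq s t (Sum.inl i)))) c *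
      W.map (cmap ops P (fun i => Φ (jeq s t (Sum.inr i)))) d := by
  rw [jn, map_mul, map_prL b, map_prR b, map_cmap_comp b, map_cmap_comp b]
  rfl

namespace Dt

variable {b : HB W P.X} (D : Dt (ops := ops) b f)

lemma Pc.dup (hz : PZ (ops := ops) b) (G : Gp W P.X P.D f) (h2 : PosAt W P f 2) {n : ℕ}
    {c : W.H (power ops P (n + 1)).X} (hc : D.Pc (n + 1) c) :
    D.Pc n (W.map (cmap ops P (dup0 n)) c) :=
  Rz.pc D hz G (rz_dup b 2) (by simp) h2 (rz_dup b n) hc

lemma Pc.push (hz : PZ (ops := ops) b) (G : Gp W P.X P.D f) (h0 : PosAt W P f 0) {n : ℕ}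
    {c : W.H (power ops P (n + 1)).X} (hc : D.Pc (n + 1) c) :
    D.Pc n (W.push (snd P.X (power ops P n).X) c) :=
  Rz.pc D hz G (rz_push b 0) (by simp) h0 (rz_push b n) hc

lemma exists_pcz (hz : PZ (ops := ops) b) (G : Gp W P.X P.D f) (h1 : PosAt W P f 1) (s : ℕ)
    (i : Fin (s + 1)) : ∃ T : Module.End W.K (W.H (power ops P s).X),
      (∀ c, D.Pc s c → D.Pc s (T c)) ∧ ∀ x, T (vec b s x) = ps b (x i) • vec b s x := by
  obtain ⟨T, hT, hT'⟩ := exists_rz_par hz s
  obtain ⟨T₀, hT₀, -⟩ := exists_rz_par hz 1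
  refine ⟨uperm b s (Equiv.swap 0 i) ∘ₗ T ∘ₗ uperm b s (Equiv.swap 0 i),
    fun c hc => ?_, fun x => ?_⟩
  · exact Pc.uperm D (Rz.pc D hz G hT₀ (by simp) h1 hT (Pc.uperm D hc _)) _
  · rw [LinearMap.comp_apply, LinearMap.comp_apply, uperm_vec, hT', map_smul, uperm_vec,
      Function.comp_apply, Equiv.swap_apply_left]
    congr 2
    funext j
    simp

lemma exists_pczz (hz : PZ (ops := ops) b) (G : Gp W P.X P.D f) (h1 : PosAt W P f 1) (s : ℕ)
    (i j : Fin (s + 1)) : ∃ T : Module.End W.K (W.H (power ops P s).X),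
      (∀ c, D.Pc s c → D.Pc s (T c)) ∧
        ∀ x, T (vec b s x) = sgn2 W b (x i) (x j) • vec b s x := by
  obtain ⟨u, hu, hu'⟩ := D.exists_pcz hz G h1 s i
  obtain ⟨v, hv, hv'⟩ := D.exists_pcz hz G h1 s j
  refine ⟨((2⁻¹ : ℚ) : W.K) • (1 + u + v + ((-1 : ℚ) : W.K) • (v * u)),
    fun c hc => ?_, fun x => ?_⟩
  · exact Pc.smul D (Pc.add D (Pc.add D (Pc.add D hc (hu c hc)) (hv c hc))
      (Pc.smul D (hv _ (hu c hc)) (-1))) _
  simp only [LinearMap.smul_apply, LinearMap.add_apply, Module.End.one_apply,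
    Module.End.mul_apply, hu', hv', map_smul]
  rw [sgn2_eq]
  push_cast
  module

lemma Pc.cswap (hz : PZ (ops := ops) b) (G : Gp W P.X P.D f) (h1 : PosAt W P f 1) {s : ℕ}
    (i : Fin s) {c : W.H (power ops P s).X} (hc : D.Pc s c) :
    D.Pc s (W.map (cmap ops P ⇑(Equiv.swap i.castSucc i.succ)) c) := by
  obtain ⟨T, hT, hT'⟩ := D.exists_pczz hz G h1 s i.castSucc i.succ
  have h2 : (W.map (cmap ops P ⇑(Equiv.swap i.castSucc i.succ))).toLinearMap =
      Dt.uperm b s (Equiv.swap i.castSucc i.succ) ∘ₗ T := by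
    apply vec_ext b s
    intro x
    rw [LinearMap.comp_apply, hT', map_smul, uperm_vec]
    exact map_cmap_swap b i x
  have h3 := Pc.uperm D (hT c hc) (Equiv.swap i.castSucc i.succ)
  rw [← LinearMap.comp_apply, ← h2] at h3
  exact h3

lemma Pc.cperm (hz : PZ (ops := ops) b) (G : Gp W P.X P.D f) (h1 : PosAt W P f 1) {s : ℕ}
    (σ : Equiv.Perm (Fin (s + 1))) : ∀ {c : W.H (power ops P s).X}, D.Pc s c →
    D.Pc s (W.map (cmap ops P ⇑σ) c) := by
  have hm : σ ∈ Submonoid.closure (Set.range fun i : Fin s => Equiv.swap i.castSucc i.succ) := by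
    rw [Equiv.Perm.mclosure_swap_castSucc_succ]
    exact Submonoid.mem_top _
  induction hm using Submonoid.closure_induction with
  | mem σ h =>
    obtain ⟨i, rfl⟩ := h
    intro c hc
    exact Pc.cswap D hz G h1 i hc
  | one =>
    intro c hc
    have h2 : W.map (cmap ops P ⇑(1 : Equiv.Perm (Fin (s + 1)))) c = c := map_cmap_id b c
    rwa [h2]
  | mul σ τ _ _ h h' =>
    intro c hc
    have h2 : W.map (cmap ops P ⇑(σ * τ)) c =
        W.map (cmap ops P ⇑σ) (W.map (cmap ops P ⇑τ) c) := (map_cmap_comp b ⇑τ ⇑σ c).symm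
    rw [h2]
    exact h (h' hc)

lemma Pc.consj (hz : PZ (ops := ops) b) (G : Gp W P.X P.D f) (h1 : PosAt W P f 1)
    (h2 : PosAt W P f 2) {n : ℕ} (j : Fin (n + 1)) {c : W.H (power ops P (n + 1)).X}
    (hc : D.Pc (n + 1) c) :
    D.Pc n (W.map (cmap ops P (Fin.cons j id : Fin (n + 2) → Fin (n + 1))) c) := by
  set σ' : Equiv.Perm (Fin (n + 2)) := Equiv.Perm.decomposeFin.symm (0, Equiv.swap 0 j) with hσ'
  have h3 := Pc.cperm D hz G h1 (Equiv.swap 0 j) (Pc.dup D hz G h2 (Pc.cperm D hz G h1 σ' hc))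
  rw [map_cmap_comp b, map_cmap_comp b] at h3
  have h4 : ⇑(Equiv.swap 0 j) ∘ dup0 n ∘ ⇑σ' = (Fin.cons j id : Fin (n + 2) → Fin (n + 1)) := by
    funext i
    refine Fin.cases ?_ (fun l => ?_) i
    · rw [Function.comp_apply, Function.comp_apply, hσ',
        Equiv.Perm.decomposeFin_symm_apply_zero, Fin.cons_zero, dup0, Fin.cons_zero,
        Equiv.swap_apply_left]
    · rw [Function.comp_apply, Function.comp_apply, hσ',
        Equiv.Perm.decomposeFin_symm_apply_succ, Equiv.swap_self, Equiv.refl_apply,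
        Fin.cons_succ, dup0, Fin.cons_succ, id, id, Equiv.swap_apply_self]
  have h5 : (⇑(Equiv.swap 0 j) ∘ dup0 n) ∘ ⇑σ' = (Fin.cons j id : Fin (n + 2) → Fin (n + 1)) := h4
  first
    | rwa [h4] at h3
    | rwa [h5] at h3

lemma Pc.one (hz : PZ (ops := ops) b) (G : Gp W P.X P.D f) (h0 : PosAt W P f 0) (s : ℕ) :
    D.Pc s 1 := by
  induction s with
  | zero => exact Pc.of_pos D hz G h0 AS.one
  | succ s ih =>
    have h1 := Pc.jn D (Pc.of_pos D hz G h0 AS.one) ih
    have h2 : FD.jn (1 : W.H (power ops P 0).X) (1 : W.H (power ops P s).X) = 1 := by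
      rw [FD.jn, map_one, map_one, mul_one]
    rw [h2] at h1
    exact h1

/-- Forgetting the coordinates added by `φ`. -/
def big {s t : ℕ} (φ : Fin (s + 1) → Fin (t + 1)) : Fin (t + 1 + s + 1) → Fin (t + 1) :=
  fun i => Sum.elim φ id ((jeq s t).symm i)

lemma Pc.big (hz : PZ (ops := ops) b) (G : Gp W P.X P.D f) (h1 : PosAt W P f 1)
    (h2 : PosAt W P f 2) {s t : ℕ} (φ : Fin (s + 1) → Fin (t + 1)) :
    ∀ {c : W.H (power ops P (t + 1 + s)).X}, D.Pc (t + 1 + s) c →
    D.Pc t (W.map (cmap ops P (big φ)) c) := by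
  induction s with
  | zero =>
    intro c hc
    have h3 : Dt.big φ = (Fin.cons (φ 0) id : Fin (t + 2) → Fin (t + 1)) := by
      funext i
      obtain ⟨w, rfl⟩ := (jeq 0 t).surjective i
      rw [Dt.big, Equiv.symm_apply_apply]
      rcases w with w | w
      · obtain rfl : w = 0 := Fin.eq_zero w
        rw [jeq_zero_inl]; rfl
      · rw [jeq_zero_inr]; rfl
    rw [h3]
    exact Pc.consj D hz G h1 h2 (φ 0) hc
  | succ s ih =>
    intro c hc
    have h3 : Dt.big φ = Dt.big (fun i => φ i.succ) ∘ (Fin.cons (jeq s t (Sum.inr (φ 0))) id :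
        Fin (t + 1 + s + 2) → Fin (t + 1 + s + 1)) := by
      funext i
      obtain ⟨w, rfl⟩ := (jeq (s + 1) t).surjective i
      rw [Dt.big, Equiv.symm_apply_apply, Function.comp_apply]
      rcases w with w | w
      · refine Fin.cases ?_ (fun l => ?_) w
        · rw [jeq_succ_inl_zero, Fin.cons_zero, Dt.big, Equiv.symm_apply_apply]
          rfl
        · rw [jeq_succ_inl, Fin.cons_succ, Dt.big, id, Equiv.symm_apply_apply]
          rfl
      · rw [jeq_succ_inr, Fin.cons_succ, Dt.big, id, Equiv.symm_apply_apply]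
        rfl
    have h4 := ih (fun i => φ i.succ) (Pc.consj D hz G h1 h2 (jeq s t (Sum.inr (φ 0))) hc)
    rw [map_cmap_comp b, ← h3] at h4
    exact h4

/-- **Pull-back along coordinate morphisms.** -/
theorem Pc.cmap (hz : PZ (ops := ops) b) (G : Gp W P.X P.D f) (h0 : PosAt W P f 0)
    (h1 : PosAt W P f 1) (h2 : PosAt W P f 2) {s t : ℕ} (φ : Fin (s + 1) → Fin (t + 1))
    {c : W.H (power ops P s).X} (hc : D.Pc s c) : D.Pc t (W.map (cmap ops P φ) c) := by
  have h3 := Pc.big D hz G h1 h2 φ (Pc.jn D hc (Pc.one D hz G h0 t))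
  rw [map_cmap_jn b, map_one, mul_one] at h3
  have h4 : (fun i => Dt.big φ (jeq s t (Sum.inl i))) = φ := by
    funext i
    rw [Dt.big, Equiv.symm_apply_apply]
    rfl
  rwa [h4] at h3

/-- **Intersection products.** -/
theorem Pc.mul (hz : PZ (ops := ops) b) (G : Gp W P.X P.D f) (h0 : PosAt W P f 0)
    (h1 : PosAt W P f 1) (h2 : PosAt W P f 2) {s : ℕ} {c d : W.H (power ops P s).X}
    (hc : D.Pc s c) (hd : D.Pc s d) : D.Pc s (c * d) := by
  have h3 := Pc.big D hz G h1 h2 (id : Fin (s + 1) → Fin (s + 1)) (Pc.jn D hc hd)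
  rw [map_cmap_jn b] at h3
  have h4 : (fun i => Dt.big (id : Fin (s + 1) → Fin (s + 1)) (jeq s s (Sum.inl i))) = id := by
    funext i
    rw [Dt.big, Equiv.symm_apply_apply]
    rfl
  have h5 : (fun i => Dt.big (id : Fin (s + 1) → Fin (s + 1)) (jeq s s (Sum.inr i))) = id := by
    funext i
    rw [Dt.big, Equiv.symm_apply_apply]
    rfl
  rwa [h4, h5, map_cmap_id b, map_cmap_id b] at h3

end Dt

end Pool.Agent.Y97.FD
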