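import Pool.Agent.Y97.FD.Geo5
import Pool.Agent.Y97.Pos

/-!
# Generated classes are positive
-/

set_option linter.unusedSectionVars false

open CategoryTheory AlgebraicGeometry Finset

universe u v

namespace Pool.Agent.Y97.FD

open Pool.Agent.H914 Pool.Agent.H914.VarClass Pool.Agent.H914.VarClass.Obj
  Pool.Agent.H914.WeilCohomology Pool.Agent.H281R3.HT Pool.Agent.W552 Pool.Agent.W539.Ker

variable {k : Type u} [Field k] {𝒱 : VarClass k} {ops : CycleOps 𝒱}
  {W : WeilCohomology.{u, v} ops} {P : Polarized 𝒱}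
  {f : Module.End W.K (W.H P.X)}

/-- Positivity on a power of `X` implies positivity on the smaller powers. -/
lemma posAt_pred (G : Gp W P.X P.D f)
    (h0 : 0 < P.X.V.degCycle (divPow ops P.D P.X.dim P.X.V.fundCycle)) {s : ℕ}
    (h : PosAt W P f (s + 1)) : PosAt W P f s := by
  obtain ⟨r, hr, hr'⟩ := (pos_iff G.fr).1 h0
  intro c hc q hq
  have hext : ∀ d : W.H (power ops P s).X, AS W _ d →
      AS W _ (ext W (X := P.X) (Y := (power ops P s).X) 1 d) := fun d hd => AS.one.ext hd
  have h1 := bfs_ext G s 1 1 c c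
  rw [hr', hq, ← Rat.cast_mul] at h1
  obtain ⟨h2, h3⟩ := h _ (hext c hc) _ h1
  refine ⟨?_, fun hq0 d hd => ?_⟩
  · by_contra h4
    push Not at h4
    exact absurd h2 (not_le.2 (mul_neg_of_pos_of_neg hr h4))
  · have h4 := h3 (by rw [hq0, mul_zero]) _ (hext d hd)
    rw [bfs_ext G, hr'] at h4
    exact (mul_eq_zero.1 h4).resolve_left (by exact_mod_cast hr.ne')

lemma posAt_le (G : Gp W P.X P.D f)
    (h0 : 0 < P.X.V.degCycle (divPow ops P.D P.X.dim P.X.V.fundCycle)) {m : ℕ}
    (h : PosAt W P f m) {s : ℕ} (hs : s ≤ m) : PosAt W P f s := by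
  obtain ⟨d, rfl⟩ := Nat.exists_eq_add_of_le hs
  clear hs
  induction d with
  | zero => exact h
  | succ d ih => exact ih (posAt_pred G h0 h)

/-- The class of a numerically trivial cycle is orthogonal to the algebraic classes. -/
lemma bf_num {X : 𝒱.Obj} {D : X.Cycles} {g : Module.End W.K (W.H X)} (F : Fr W X D g) {j : ℕ}
    {z : X.Cycles} (hz : X.IsCyc j z)
    (h : ∀ w, X.IsCyc (X.dim - j) w → X.V.degCycle (ops.mul z w) = 0) {d : W.H X}
    (hd : AS W X d) : bf W X D g (W.cl X z) d = 0 := by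
  rw [bf_apply]
  refine AS.ind (p := fun e => W.tr X (W.cl X z * e) = 0) ?_ ?_ (F.st_AS hd)
  · intro i e he
    by_cases hij : j + i = X.dim
    · obtain ⟨w, hw, rfl⟩ := he
      have h1 := ops.mul_mem hz hw
      rw [hij] at h1
      rw [← W.cl_mul, W.tr_cl h1, h w (by rwa [show X.dim - j = i by omega]), Rat.cast_zero]
    · exact W.tr_eq_zero (W.mul_mem (W.cl_mem hz) (alg_gr he)) (by omega)
  · intro a a' ha ha'
    rw [mul_add, map_add, ha, ha', add_zero]

namespace Dt

variable {b : HB W P.X} (D : Dt (ops := ops) b f)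

/-- **Generated classes are positive classes.** -/
theorem Pc.gen (hz : PZ (ops := ops) b) (G : Gp W P.X P.D f)
    (hp : 0 < P.X.V.degCycle (divPow ops P.D P.X.dim P.X.V.fundCycle)) {m : ℕ} (hm : 2 ≤ m)
    (h : PosAt W P f m) {s : ℕ} {c : W.H (power ops P s).X} (hc : Gen W P m s c) :
    D.Pc s c := by
  have h0 := posAt_le G hp h (show 0 ≤ m by omega)
  have h1 := posAt_le G hp h (show 1 ≤ m by omega)
  have h2 := posAt_le G hp h hm
  induction hc with
  | cyc hz' => exact Pc.of_pos D hz G h (AS.of ⟨_, hz', rfl⟩)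
  | @num s j z hz' hn =>
    exact Pc.nt D hz G (AS.of ⟨_, hz', rfl⟩) (fun d hd => bf_num (gp_frm G s).fr hz' hn hd)
  | add _ _ ih ih' => exact Pc.add D ih ih'
  | smul q _ ih => exact Pc.smul D ih q
  | mul _ _ ih ih' => exact Pc.mul D hz G h0 h1 h2 ih ih'
  | pull φ _ ih => exact Pc.cmap D hz G h0 h1 h2 φ ih
  | push _ ih => exact Pc.push D hz G h0 ih

end Dt

/-- **The theorem, in terms of the form.** -/
theorem main_pos (G : Gp W P.X P.D f) {b : HB W P.X} (hz : PZ (ops := ops) b)
    (hN : ClosedN (gpar b) (Gm b f) (A0 (ops := ops) b))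
    (hp : 0 < P.X.V.degCycle (divPow ops P.D P.X.dim P.X.V.fundCycle)) {m : ℕ} (hm : 2 ≤ m)
    (h : PosAt W P f m) {s n : ℕ} (hn : 2 * n ≤ (power ops P s).X.dim)
    {z : (power ops P s).X.Cycles} (hprim : Primitive W (power ops P s).X (power ops P s).D n z)
    (hgen : Gen W P m s (W.cl (power ops P s).X z))
    (hnt : ∃ w, (power ops P s).X.IsCyc ((power ops P s).X.dim - n) w ∧
      (power ops P s).X.V.degCycle (ops.mul z w) ≠ 0) :
    0 < pairing ops (power ops P s).X (power ops P s).D n z z := by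
  obtain ⟨D⟩ := exists_dt G hN
  have F := (gp_frm G s).fr
  have h1 : bfs W P f s (W.cl (power ops P s).X z) (W.cl (power ops P s).X z) =
      (((((power ops P s).X.dim - 2 * n).factorial : ℚ)⁻¹ *
        pairing ops (power ops P s).X (power ops P s).D n z z : ℚ) : W.K) := by
    have h2 := F.form_prim hn hprim.1 hprim.2
    refine h2.trans ?_
    rw [pairing]
    congr 1
    ring
  have h2 := Dt.Pc.pos D hz G (AS.of ⟨_, hprim.1, rfl⟩) (Dt.Pc.gen D hz G hp hm h hgen) h1
  have h3 : (0 : ℚ) < (((power ops P s).X.dim - 2 * n).factorial : ℚ)⁻¹ := by positivity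
  have h4 : 0 ≤ pairing ops (power ops P s).X (power ops P s).D n z z :=
    nonneg_of_mul_nonneg_right h2.1 h3
  refine lt_of_le_of_ne h4 (fun h5 => ?_)
  obtain ⟨w, hw, hw'⟩ := hnt
  have h6 := h2.2 (by rw [← h5, mul_zero]) _ (F.st_AS (AS.of ⟨w, hw, rfl⟩))
  have h7 : bf W (power ops P s).X (power ops P s).D (frm W P f s) (W.cl (power ops P s).X z)
      (st W (power ops P s).X (power ops P s).D (frm W P f s) (W.cl (power ops P s).X w)) = 0 :=
    h6
  rw [bf_apply, (gp_frm G s).gd.st_st_apply, ← W.cl_mul, W.tr_cl] at h7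
  · exact hw' (by exact_mod_cast h7)
  · have := ops.mul_mem hprim.1 hw
    rwa [show n + ((power ops P s).X.dim - n) = (power ops P s).X.dim by omega] at this

end Pool.Agent.Y97.FD
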