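import Pool.Agent.Y97.FD.Str

/-!
# Operators on the first slots: definitions
-/

set_option linter.unusedSectionVars false

open Finset Matrix Pool.Agent.W552 Pool.Agent.Y97

namespace Pool.Agent.Y97.FD

variable {R : Type} [Fintype R] [DecidableEq R] {F : Type*} [CommRing F]
  {κ κ' ν : Type} [Fintype κ] [DecidableEq κ] [Fintype κ'] [DecidableEq κ'] [Fintype ν]
  [DecidableEq ν]

/-- The operator on the first slots given by a matrix. -/
def apM (u : (κ' → R) → (κ → R) → F) (f : (κ ⊕ ν → R) → F) : (κ' ⊕ ν → R) → F :=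
  fun J => ∑ I : κ → R, u (fun s => J (Sum.inl s)) I *
    f (Sum.elim I (fun s => J (Sum.inr s)))

/-- The kernel of the operator. -/
def kerT (S : Std R) (u : (κ' → R) → (κ → R) → F) : (κ' ⊕ κ → R) → F :=
  fun J => u (fun s => J (Sum.inl s)) (fun s => S.inv (J (Sum.inr s))) *
    ∏ s, (S.sg (J (Sum.inr s)) : F)

/-- The matrix in other coordinates. -/
def cjM (M M' : Matrix R R F) (u : (κ' → R) → (κ → R) → F) : (κ' → R) → (κ → R) → F :=
  fun J I => ∑ J' : κ' → R, ∑ I' : κ → R,
    (∏ s, M (J s) (J' s)) * u J' I' * ∏ s, M' (I' s) (I s)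

end Pool.Agent.Y97.FD
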