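import Pool.Agent.Y97.FD.Std

/-!
# Functionals on polynomial rings from operators on tensors
-/

set_option linter.unusedSectionVars false

open Finset

namespace Pool.Agent.Y97.FD

/-- A natural family of operators on tensors. -/
structure Fnc (R : Type) (F : Type*) [CommRing F] where
  /-- the operators -/
  app : ∀ (κ : Type) [Fintype κ] [DecidableEq κ], ((κ → R) → F) →ₗ[F] ((κ → R) → F)
  nat : ∀ {κ κ' : Type} [Fintype κ] [DecidableEq κ] [Fintype κ'] [DecidableEq κ'] (e : κ ≃ κ')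
    (t : (κ → R) → F), app κ' (rel e t) = rel e (app κ t)

/-- Variables labelled by tensors and multi-indices. -/
structure Vs (R : Type) (F : Type*) (V : Type) where
  /-- the slots -/
  k : V → Type
  fin : ∀ v, Fintype (k v)
  dec : ∀ v, DecidableEq (k v)
  /-- the tensor -/
  T : ∀ v, (k v → R) → F
  /-- the index -/
  i : ∀ v, k v → R

attribute [instance] Vs.fin Vs.dec

namespace Vs

variable {R : Type} {F : Type*} [CommRing F] {V : Type} (D : Vs R F V)

/-- The slots of a monomial. -/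
def Kl : List V → Type
  | [] => Empty
  | v :: l => D.k v ⊕ Kl l

instance instFin : ∀ l, Fintype (D.Kl l)
  | [] => inferInstanceAs (Fintype Empty)
  | v :: l => @instFintypeSum _ _ _ (instFin l)

instance instDec : ∀ l, DecidableEq (D.Kl l)
  | [] => inferInstanceAs (DecidableEq Empty)
  | v :: l => @instDecidableEqSum _ _ _ (instDec l)

/-- The tensor of a monomial. -/
def tl : ∀ l, (D.Kl l → R) → F
  | [] => fun _ => 1
  | v :: l => tmul (D.T v) (tl l)

/-- The index of a monomial. -/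
def Il : ∀ l, D.Kl l → R
  | [] => fun s => s.elim
  | v :: l => Sum.elim (D.i v) (Il l)

lemma perm {l l' : List V} (h : l.Perm l') :
    ∃ e : D.Kl l ≃ D.Kl l', rel e (D.tl l) = D.tl l' ∧ ∀ s, D.Il l' (e s) = D.Il l s := by
  induction h with
  | nil => exact ⟨Equiv.refl _, rfl, fun _ => rfl⟩
  | @cons v l l' _ ih =>
    obtain ⟨e, h1, h2⟩ := ih
    refine ⟨Equiv.sumCongr (Equiv.refl _) e, ?_, ?_⟩
    · change rel _ (tmul _ _) = tmul _ _
      rw [← h1]; rfl
    · rintro (s | s)
      · rfl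
      · exact h2 s
  | swap v w l =>
    refine ⟨((Equiv.sumAssoc _ _ _).symm.trans (Equiv.sumCongr (Equiv.sumComm _ _)
      (Equiv.refl _))).trans (Equiv.sumAssoc _ _ _), ?_, ?_⟩
    · funext I
      exact mul_left_comm _ _ _
    · rintro (s | s | s) <;> rfl
  | trans _ _ ih1 ih2 =>
    obtain ⟨e, h1, h2⟩ := ih1
    obtain ⟨e', h1', h2'⟩ := ih2
    exact ⟨e.trans e', by rw [← rel_rel, h1, h1'], fun s => by
      rw [Equiv.trans_apply, h2', h2]⟩

variable (Φ : Fnc R F) (κ : Type) [Fintype κ] [DecidableEq κ]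

/-- The value on a monomial. -/
def val (t : (κ → R) → F) (I : κ → R) (l : List V) : F :=
  Φ.app (κ ⊕ D.Kl l) (tmul t (D.tl l)) (Sum.elim I (D.Il l))

lemma val_perm (t : (κ → R) → F) (I : κ → R) {l l' : List V} (h : l.Perm l') :
    D.val Φ κ t I l = D.val Φ κ t I l' := by
  obtain ⟨e, h1, h2⟩ := D.perm h
  rw [val, val, ← h1]
  have h3 : tmul t (rel e (D.tl l)) = rel (Equiv.sumCongr (Equiv.refl κ) e) (tmul t (D.tl l)) :=
    rfl
  rw [h3, Φ.nat, rel_apply]
  refine congrArg (Φ.app _ _) ?_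
  funext s
  rcases s with s | s
  · rfl
  · exact (h2 s).symm

/-- The functional. -/
noncomputable def E (t : (κ → R) → F) (I : κ → R) : MvPolynomial V F →ₗ[F] F :=
  (MvPolynomial.basisMonomials V F).constr F
    (fun m => D.val Φ κ t I (Finsupp.toMultiset m).toList)

lemma E_basis (t : (κ → R) → F) (I : κ → R) (m : V →₀ ℕ) :
    D.E Φ κ t I (MvPolynomial.basisMonomials V F m) =
      D.val Φ κ t I (Finsupp.toMultiset m).toList := by
  rw [E, Module.Basis.constr_basis]

lemma E_X_mul (t : (κ → R) → F) (I : κ → R) (v : V) (q : MvPolynomial V F) :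
    D.E Φ κ t I (MvPolynomial.X v * q) =
      D.E Φ (κ ⊕ D.k v) (tmul t (D.T v)) (Sum.elim I (D.i v)) q := by
  have h : (D.E Φ κ t I).comp (LinearMap.mulLeft F (MvPolynomial.X v)) =
      D.E Φ (κ ⊕ D.k v) (tmul t (D.T v)) (Sum.elim I (D.i v)) := by
    refine (MvPolynomial.basisMonomials V F).ext fun m => ?_
    rw [LinearMap.comp_apply, LinearMap.mulLeft_apply, E_basis]
    have h1 : MvPolynomial.X v * MvPolynomial.basisMonomials V F m =
        MvPolynomial.basisMonomials V F (Finsupp.single v 1 + m) := by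
      rw [MvPolynomial.coe_basisMonomials, MvPolynomial.X, MvPolynomial.monomial_mul, one_mul]
    rw [h1, E_basis]
    have h2 : (Finsupp.toMultiset (Finsupp.single v 1 + m)).toList.Perm
        (v :: (Finsupp.toMultiset m).toList) := by
      rw [← Multiset.coe_eq_coe, Multiset.coe_toList, map_add, Finsupp.toMultiset_single, one_smul,
        Multiset.singleton_add, ← Multiset.cons_coe, Multiset.coe_toList]
    rw [val_perm D Φ κ t I h2]
    generalize (Finsupp.toMultiset m).toList = l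
    change Φ.app (κ ⊕ (D.k v ⊕ D.Kl l)) (tmul t (tmul (D.T v) (D.tl l)))
      (Sum.elim I (Sum.elim (D.i v) (D.Il l))) = _
    rw [tmul_assoc, Φ.nat, rel_apply]
    change Φ.app ((κ ⊕ D.k v) ⊕ D.Kl l) _ _ = Φ.app ((κ ⊕ D.k v) ⊕ D.Kl l) _ _
    refine congrArg (Φ.app _ _) ?_
    funext s
    rcases s with (s | s) | s <;> rfl
  exact LinearMap.congr_fun h q

lemma E_one (t : (κ → R) → F) (I : κ → R) : D.E Φ κ t I 1 = Φ.app κ t I := by
  have h1 : (1 : MvPolynomial V F) = MvPolynomial.basisMonomials V F 0 := by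
    rw [MvPolynomial.coe_basisMonomials]; rfl
  rw [h1, E_basis]
  have h2 : (Finsupp.toMultiset (0 : V →₀ ℕ)).toList = [] := by
    rw [map_zero, Multiset.toList_zero]
  rw [h2]
  change Φ.app (κ ⊕ Empty) (tmul t fun _ => 1) (Sum.elim I fun s => s.elim) = _
  have h3 : (tmul t fun _ => 1 : (κ ⊕ Empty → R) → F) = rel (Equiv.sumEmpty κ Empty).symm t := by
    funext J
    rw [tmul_apply, mul_one]; rfl
  rw [h3, Φ.nat, rel_apply]
  rfl

variable {Φ κ}

lemma E_add (t t' : (κ → R) → F) (I : κ → R) :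
    D.E Φ κ (t + t') I = D.E Φ κ t I + D.E Φ κ t' I := by
  refine (MvPolynomial.basisMonomials V F).ext fun m => ?_
  rw [LinearMap.add_apply, E_basis, E_basis, E_basis, val, add_tmul, map_add]; rfl

lemma E_sub (t t' : (κ → R) → F) (I : κ → R) :
    D.E Φ κ (t - t') I = D.E Φ κ t I - D.E Φ κ t' I := by
  refine (MvPolynomial.basisMonomials V F).ext fun m => ?_
  rw [LinearMap.sub_apply, E_basis, E_basis, E_basis, val, sub_tmul, map_sub]; rfl

lemma E_smul (c : F) (t : (κ → R) → F) (I : κ → R) :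
    D.E Φ κ (c • t) I = c • D.E Φ κ t I := by
  refine (MvPolynomial.basisMonomials V F).ext fun m => ?_
  rw [LinearMap.smul_apply, E_basis, E_basis, val, smul_tmul, map_smul]; rfl

lemma E_zero (I : κ → R) : D.E Φ κ 0 I = 0 := by
  refine (MvPolynomial.basisMonomials V F).ext fun m => ?_
  rw [E_basis, val, zero_tmul, map_zero]; rfl

lemma E_sum {ι : Type*} (s : Finset ι) (t : ι → (κ → R) → F) (I : κ → R) :
    D.E Φ κ (∑ j ∈ s, t j) I = ∑ j ∈ s, D.E Φ κ (t j) I := by
  classical
  induction s using Finset.induction_on with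
  | empty => rw [Finset.sum_empty, Finset.sum_empty, E_zero]
  | insert a s ha ih => rw [Finset.sum_insert ha, Finset.sum_insert ha, E_add, ih]

variable {κ' : Type} [Fintype κ'] [DecidableEq κ']

lemma E_rel (e : κ ≃ κ') (t : (κ → R) → F) (I : κ' → R) :
    D.E Φ κ' (rel e t) I = D.E Φ κ t (fun s => I (e s)) := by
  refine (MvPolynomial.basisMonomials V F).ext fun m => ?_
  rw [E_basis, E_basis, val, val]
  have h3 : tmul (rel e t) (D.tl (Finsupp.toMultiset m).toList) =
    rel (Equiv.sumCongr e (Equiv.refl _)) (tmul t (D.tl _)) := rfl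
  rw [h3, Φ.nat, rel_apply]
  refine congrArg (Φ.app _ _) ?_
  funext s
  rcases s with s | s <;> rfl

lemma E_eq_zero {t : (κ → R) → F} (h : ∀ l, Φ.app _ (tmul t (D.tl l)) = 0) (I : κ → R) :
    D.E Φ κ t I = 0 := by
  refine (MvPolynomial.basisMonomials V F).ext fun m => ?_
  rw [E_basis, val, h]; rfl

/-- Splitting off a factor. -/
lemma E_tmul {t : (κ → R) → F} {b b' : (κ' → R) → F}
    (h : ∀ l, Φ.app ((κ ⊕ D.Kl l) ⊕ κ') (tmul (tmul t (D.tl l)) b) =
      tmul (Φ.app _ (tmul t (D.tl l))) b')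
    (I : κ → R) (I' : κ' → R) :
    D.E Φ (κ ⊕ κ') (tmul t b) (Sum.elim I I') = b' I' • D.E Φ κ t I := by
  refine (MvPolynomial.basisMonomials V F).ext fun m => ?_
  rw [LinearMap.smul_apply, E_basis, E_basis, val, val]
  generalize (Finsupp.toMultiset m).toList = l
  let e : (κ ⊕ D.Kl l) ⊕ κ' ≃ (κ ⊕ κ') ⊕ D.Kl l :=
    ((Equiv.sumAssoc _ _ _).trans (Equiv.sumCongr (Equiv.refl _) (Equiv.sumComm _ _))).trans
      (Equiv.sumAssoc _ _ _).symm
  have h1 : tmul (tmul t b) (D.tl l) = rel e (tmul (tmul t (D.tl l)) b) := by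
    funext J
    exact mul_right_comm _ _ _
  rw [h1, Φ.nat, h, rel_apply, tmul_apply, smul_eq_mul, mul_comm]
  congr 1
  refine congrArg (Φ.app _ _) ?_
  funext s
  rcases s with s | s <;> rfl

/-- Contractions. -/
lemma E_pc {S : Std R} [Fintype R] [DecidableEq R] {t : (κ ⊕ (κ' ⊕ κ') → R) → F}
    (h : ∀ (κ₁ : Type) [Fintype κ₁] [DecidableEq κ₁] (u : (κ₁ ⊕ (κ' ⊕ κ') → R) → F),
      Φ.app κ₁ (pc S u) = pc S (Φ.app _ u)) (I : κ → R) :
    ∑ I' : κ' → R, (∏ s, (S.sg (I' s) : F)) •
      D.E Φ (κ ⊕ (κ' ⊕ κ')) t (Sum.elim I (Sum.elim I' fun s => S.inv (I' s))) =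
        D.E Φ κ (pc S t) I := by
  refine (MvPolynomial.basisMonomials V F).ext fun m => ?_
  rw [LinearMap.sum_apply, E_basis, val]
  generalize hl : (Finsupp.toMultiset m).toList = l
  let e : (κ ⊕ (κ' ⊕ κ')) ⊕ D.Kl l ≃ (κ ⊕ D.Kl l) ⊕ (κ' ⊕ κ') :=
    ((Equiv.sumAssoc _ _ _).trans (Equiv.sumCongr (Equiv.refl _) (Equiv.sumComm _ _))).trans
      (Equiv.sumAssoc _ _ _).symm
  have h1 : tmul (pc S t) (D.tl l) = pc S (rel e (tmul t (D.tl l))) := by
    funext J
    rw [tmul_apply, pc_apply, pc_apply, Finset.sum_mul]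
    refine Finset.sum_congr rfl fun I' _ => ?_
    rw [mul_right_comm]
    congr 1
    rw [rel_apply, tmul_apply]
    congr 1
    · congr 1
      funext s
      rcases s with s | s | s <;> rfl
  rw [h1, h, pc_apply]
  refine Finset.sum_congr rfl fun I' _ => ?_
  rw [LinearMap.smul_apply, E_basis, hl, val, Φ.nat, smul_eq_mul, mul_comm, rel_apply]
  congr 1
  refine congrArg (Φ.app _ _) ?_
  funext s
  rcases s with (s | s | s) | s <;> rfl

end Vs

section Matrices

variable {R : Type} {F : Type*} [CommRing F] [Fintype R] [DecidableEq R]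

/-- The matrix coordinates. -/
def Dm (R : Type) (F : Type*) [CommRing F] [DecidableEq R] : Vs R F (R × R) where
  k _ := Unit
  fin _ := inferInstance
  dec _ := inferInstance
  T v := fun I => if I () = v.2 then 1 else 0
  i v := fun _ => v.1

/-- The generic matrix. -/
noncomputable def Xm (R : Type) (F : Type*) [CommRing F] : Matrix R R (MvPolynomial (R × R) F) :=
  Matrix.of fun i j => MvPolynomial.X (i, j)

lemma Xm_apply (i j : R) : Xm R F i j = MvPolynomial.X (i, j) := rfl

variable {Φ : Fnc R F}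

/-- The basis tensor. -/
def eT {κ : Type} [Fintype κ] (L : κ → R) : (κ → R) → F := fun I => ∏ s, if I s = L s then 1 else 0

lemma eT_apply {κ : Type} [Fintype κ] (L I : κ → R) [Decidable (I = L)] :
    (eT L I : F) = if I = L then 1 else 0 := by
  rw [eT]
  split_ifs with h
  · subst h; simp
  · have : ∃ s, I s ≠ L s := by
      by_contra h'
      push Not at h'
      exact h (funext h')
    obtain ⟨s, hs⟩ := this
    exact Finset.prod_eq_zero (Finset.mem_univ s) (if_neg hs)

lemma sum_eT {κ : Type} [Fintype κ] [DecidableEq κ] (f : (κ → R) → F) :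
    ∑ L, f L • eT L = f := by
  funext I
  rw [Finset.sum_apply, Finset.sum_eq_single I]
  · rw [Pi.smul_apply, eT_apply, if_pos rfl, smul_eq_mul, mul_one]
  · intro L _ hL
    rw [Pi.smul_apply, eT_apply, if_neg (Ne.symm hL), smul_zero]
  · intro h; exact absurd (Finset.mem_univ _) h

lemma E_prod_fin {n : ℕ} : ∀ {κ : Type} [Fintype κ] [DecidableEq κ] (t : (κ → R) → F) (I : κ → R)
    (J L : Fin n → R) (q : MvPolynomial (R × R) F),
    (Dm R F).E Φ κ t I ((∏ s, MvPolynomial.X (J s, L s)) * q) =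
      (Dm R F).E Φ (κ ⊕ Fin n) (tmul t (eT L)) (Sum.elim I J) q := by
  induction n with
  | zero =>
    intro κ _ _ t I J L q
    rw [Fin.prod_univ_zero, one_mul]
    have h1 : (tmul t (eT L) : (κ ⊕ Fin 0 → R) → F) =
        rel (Equiv.sumEmpty κ (Fin 0)).symm t := by
      funext J
      rw [tmul_apply, eT, Fin.prod_univ_zero, mul_one]; rfl
    rw [h1, Vs.E_rel]
    rfl
  | succ n ih =>
    intro κ _ _ t I J L q
    rw [Fin.prod_univ_succ, mul_assoc, Vs.E_X_mul, ih]
    let e1 : Unit ⊕ Fin n ≃ Fin (n + 1) :=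
      { toFun := Sum.elim (fun _ => 0) Fin.succ
        invFun := Fin.cases (Sum.inl ()) Sum.inr
        left_inv := by rintro (s | s) <;> simp
        right_inv := by intro s; refine Fin.cases ?_ (fun s => ?_) s <;> simp }
    let e : (κ ⊕ Unit) ⊕ Fin n ≃ κ ⊕ Fin (n + 1) :=
      (Equiv.sumAssoc _ _ _).trans (Equiv.sumCongr (Equiv.refl _) e1)
    have h1 : (tmul t (eT L) : (κ ⊕ Fin (n + 1) → R) → F) =
        rel e (tmul (tmul t ((Dm R F).T (J 0, L 0))) (eT fun s => L s.succ)) := by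
      funext I
      rw [tmul_apply, eT, Fin.prod_univ_succ, rel_apply, tmul_apply, tmul_apply, ← mul_assoc]
      rfl
    rw [h1, Vs.E_rel]
    congr 1
    · change (Dm R F).E Φ ((κ ⊕ Unit) ⊕ Fin n) _ _ = (Dm R F).E Φ ((κ ⊕ Unit) ⊕ Fin n) _ _
      refine congrArg ((Dm R F).E Φ _ _) ?_
      funext s
      rcases s with (s | s) | s <;> rfl

lemma E_prod {κ κ' : Type} [Fintype κ] [DecidableEq κ] [Fintype κ'] [DecidableEq κ']
    (t : (κ → R) → F) (I : κ → R) (J L : κ' → R) (q : MvPolynomial (R × R) F) :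
    (Dm R F).E Φ κ t I ((∏ s, MvPolynomial.X (J s, L s)) * q) =
      (Dm R F).E Φ (κ ⊕ κ') (tmul t (eT L)) (Sum.elim I J) q := by
  let e := Fintype.equivFin κ'
  have h1 : (∏ s, MvPolynomial.X (J s, L s) : MvPolynomial (R × R) F) =
      ∏ s, MvPolynomial.X (J (e.symm s), L (e.symm s)) :=
    Fintype.prod_equiv e _ _ fun s => by simp
  rw [h1, E_prod_fin]
  have h2 : (tmul t (eT L) : (κ ⊕ κ' → R) → F) =
      rel (Equiv.sumCongr (Equiv.refl _) e.symm) (tmul t (eT fun s => L (e.symm s))) := by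
    funext I
    rw [tmul_apply, rel_apply, tmul_apply]
    congr 1
    exact Fintype.prod_equiv e _ _ fun s => by simp
  rw [h2, Vs.E_rel]
  congr 2
  funext s
  rcases s with s | s <;> rfl

/-- The functional on the coordinates of the action of the generic matrix. -/
lemma E_act {κ κ' : Type} [Fintype κ] [DecidableEq κ] [Fintype κ'] [DecidableEq κ']
    (t : (κ → R) → F) (I : κ → R) (f : (κ' → R) → F) (J : κ' → R) (q : MvPolynomial (R × R) F) :
    (Dm R F).E Φ κ t I (act (Xm R F) (mapT MvPolynomial.C f) J * q) =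
      (Dm R F).E Φ (κ ⊕ κ') (tmul t f) (Sum.elim I J) q := by
  conv_rhs => rw [← sum_eT f]
  rw [act_apply, Finset.sum_mul, map_sum, tmul_sum, Vs.E_sum, LinearMap.sum_apply]
  refine Finset.sum_congr rfl fun L _ => ?_
  rw [tmul_smul, Vs.E_smul, LinearMap.smul_apply, ← E_prod, ← map_smul, mapT_apply,
    MvPolynomial.smul_eq_C_mul]
  congr 1
  simp only [Xm_apply]
  ring

end Matrices

end Pool.Agent.Y97.FD
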