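import Mathlib

/-!
# Statements of self-contained lemmas
-/

universe u

namespace Pool.Agent.Y97.FD

/-- Job A: a proper ideal of a polynomial ring over `ℚ` in countably many variables has a complex
zero. -/
def JobA : Prop :=
  ∀ (σ : Type) [Countable σ] (I : Ideal (MvPolynomial σ ℚ)), I ≠ ⊤ →
    ∃ x : σ → ℂ, ∀ p ∈ I, MvPolynomial.aeval x p = 0

/-- Job B: in characteristic zero, an element on which all pairs of embeddings that agree on the
subfield `L` agree lies in `L`. -/
def JobB : Prop :=
  ∀ (F : Type) [Field F] [CharZero F] (L : Subfield F) (f : F),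
    (∀ (Ω : Type) [Field Ω] (s t : F →+* Ω), (∀ l ∈ L, s l = t l) → s f = t f) → f ∈ L

/-- Job C: standard forms of nondegenerate symmetric and alternating matrices over an algebraically
closed field of characteristic zero. -/
def JobC : Prop :=
  ∀ (F : Type u) [Field F] [CharZero F] [IsAlgClosed F],
    (∀ (ι : Type) [Fintype ι] [DecidableEq ι] (G : Matrix ι ι F), G.transpose = G → G.det ≠ 0 →
      ∃ S : Matrix ι ι F, S.det ≠ 0 ∧ S.transpose * G * S = 1) ∧
    (∀ (ι : Type) [Fintype ι] [DecidableEq ι] (G : Matrix ι ι F), G.transpose = -G → G.det ≠ 0 →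
      ∃ (m : ℕ) (e : ι ≃ Fin m × Bool) (S : Matrix ι ι F), S.det ≠ 0 ∧
        ∀ i j, (S.transpose * G * S) i j =
          if (e i).1 = (e j).1 then (if (e i).2 = false ∧ (e j).2 = true then 1
            else if (e i).2 = true ∧ (e j).2 = false then -1 else 0) else 0)

end Pool.Agent.Y97.FD
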