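import Pool.Agent.Y97.FD.Mod
import Pool.Agent.Y97.FD.Fun
import Pool.Agent.Y97.FD.Stm

/-!
# Existence of a nondegenerate complex model
-/

set_option linter.unusedSectionVars false

open Finset Pool.Agent.W552 Pool.Agent.Y97

namespace Pool.Agent.Y97.FD

variable {R : Type} {K : Type*} [Field K] [CharZero K] {κ κ' κ'' : Type} {S : Std R}
  [Fintype R] [DecidableEq R] {A : ∀ κ : Type, ((κ → R) → K) → Prop}

/-! ### Transfer -/

section Transfer

variable {B : Bas S A} {F : Type*} [CommRing F] [Algebra ℚ F] {F' : Type*} [CommRing F']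
  [Algebra ℚ F']

lemma mapT_evn {E E' : Type*} [CommRing E] [CommRing E'] (φ : E →+* E') [Fintype κ]
    (f : (κ → R) → E) : mapT φ (fun I => (∏ s, (S.tau (I s) : E)) * f I) =
      fun I => (∏ s, (S.tau (I s) : E')) * mapT φ f I := by
  funext I
  rw [mapT_apply, map_mul, map_prod]
  simp only [map_intCast]
  rfl

lemma mapT_rn (x : B.Vr → F) (φ : F →ₐ[ℚ] F') (n : ℕ) (a : (Fin n → R) → K) :
    mapT (φ : F →+* F') (B.rn x n a) = B.rn (fun v => φ (x v)) n a := by
  funext I
  rw [mapT_apply, Bas.rn_apply, Bas.rn_apply, map_sum]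
  refine Finset.sum_congr rfl fun i _ => ?_
  rw [map_mul]
  congr 1
  exact φ.commutes _

lemma mapT_xt (x : B.Vr → F) (φ : F →ₐ[ℚ] F') (n : ℕ) (i : Fin (B.d n)) :
    mapT (φ : F →+* F') (B.xt x n i) = B.xt (fun v => φ (x v)) n i := rfl

/-- The image of a model under a homomorphism is a model. -/
lemma IsModel.map {x : B.Vr → F} (hx : IsModel B x) (φ : F →ₐ[ℚ] F') :
    IsModel B (fun v => φ (x v)) where
  perm n σ i := by rw [← mapT_rn, hx.perm, mapT_rel, mapT_xt]
  tmul n m i j := by rw [← mapT_rn, hx.tmul, mapT_rel, mapT_tmul, mapT_xt, mapT_xt]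
  pc n m i := by rw [← mapT_rn, hx.pc, mapT_pc, mapT_rel, mapT_xt]
  one := by rw [← mapT_rn, hx.one]; funext I; simp [mapT_apply]
  cup n c := by rw [← mapT_rn, hx.cup, mapT_rel, mapT_cupK]
  even n i := by
    have h1 : (fun I => (∏ s, (S.tau (I s) : F)) * B.xt x n i I) = B.xt x n i :=
      funext (hx.even n i)
    have h2 := mapT_evn (S := S) (φ : F →+* F') (B.xt x n i)
    rw [h1] at h2
    exact fun I => (congrFun h2 I).symm

/-- Points satisfying all the polynomial relations of a model are models. -/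
lemma IsModel.transfer {x : B.Vr → F} (hx : IsModel B x) {y : B.Vr → F'}
    (h : ∀ p : MvPolynomial B.Vr ℚ, MvPolynomial.aeval x p = 0 → MvPolynomial.aeval y p = 0) :
    IsModel B y := by
  have hX : ∀ {κ : Type} (u v : (κ → R) → MvPolynomial B.Vr ℚ),
      mapT (MvPolynomial.aeval x : MvPolynomial B.Vr ℚ →ₐ[ℚ] F).toRingHom u =
        mapT (MvPolynomial.aeval x : MvPolynomial B.Vr ℚ →ₐ[ℚ] F).toRingHom v →
      mapT (MvPolynomial.aeval y : MvPolynomial B.Vr ℚ →ₐ[ℚ] F').toRingHom u =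
        mapT (MvPolynomial.aeval y : MvPolynomial B.Vr ℚ →ₐ[ℚ] F').toRingHom v := by
    intro κ u v huv
    funext I
    have h1 := congrFun huv I
    have h2 := h (u I - v I) (by rw [map_sub, sub_eq_zero]; exact h1)
    rw [map_sub, sub_eq_zero] at h2
    exact h2
  have r1 : ∀ n a, mapT (MvPolynomial.aeval x : MvPolynomial B.Vr ℚ →ₐ[ℚ] F).toRingHom
      (B.rn MvPolynomial.X n a) = B.rn x n a := fun n a => by
    have := mapT_rn (MvPolynomial.X : B.Vr → MvPolynomial B.Vr ℚ) (MvPolynomial.aeval x) n a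
    simp only [MvPolynomial.aeval_X] at this
    exact this
  have r2 : ∀ n a, mapT (MvPolynomial.aeval y : MvPolynomial B.Vr ℚ →ₐ[ℚ] F').toRingHom
      (B.rn MvPolynomial.X n a) = B.rn y n a := fun n a => by
    have := mapT_rn (MvPolynomial.X : B.Vr → MvPolynomial B.Vr ℚ) (MvPolynomial.aeval y) n a
    simp only [MvPolynomial.aeval_X] at this
    exact this
  have s1 : ∀ n i, mapT (MvPolynomial.aeval x : MvPolynomial B.Vr ℚ →ₐ[ℚ] F).toRingHom
      (B.xt MvPolynomial.X n i) = B.xt x n i := fun n i => by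
    funext I; exact MvPolynomial.aeval_X x _
  have s2 : ∀ n i, mapT (MvPolynomial.aeval y : MvPolynomial B.Vr ℚ →ₐ[ℚ] F').toRingHom
      (B.xt MvPolynomial.X n i) = B.xt y n i := fun n i => by
    funext I; exact MvPolynomial.aeval_X y _
  exact
  { perm := fun n σ i => by
      have h1 := hX (B.rn MvPolynomial.X n (rel σ (B.t n i))) (rel σ (B.xt MvPolynomial.X n i))
        (by rw [r1, mapT_rel, s1, hx.perm])
      rwa [r2, mapT_rel, s2] at h1
    tmul := fun n m i j => by
      have h1 := hX (B.rn MvPolynomial.X (n + m) (rel finSumFinEquiv (FD.tmul (B.t n i) (B.t m j))))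
        (rel finSumFinEquiv (FD.tmul (B.xt MvPolynomial.X n i) (B.xt MvPolynomial.X m j)))
        (by rw [r1, mapT_rel, mapT_tmul, s1, s1, hx.tmul])
      rwa [r2, mapT_rel, mapT_tmul, s2, s2] at h1
    pc := fun n m i => by
      have h1 := hX (B.rn MvPolynomial.X n (FD.pc S (rel (Bas.eF n m) (B.t _ i))))
        (FD.pc S (rel (Bas.eF n m) (B.xt MvPolynomial.X _ i)))
        (by rw [r1, mapT_pc, mapT_rel, s1, hx.pc])
      rwa [r2, mapT_pc, mapT_rel, s2] at h1
    one := by
      have h1 := hX (B.rn MvPolynomial.X 0 (fun _ => 1)) (fun _ => 1)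
        (by rw [r1, hx.one]; funext I; simp [mapT_apply])
      rw [r2] at h1
      rw [h1]; funext I; simp [mapT_apply]
    cup := fun n c => by
      have h1 := hX (B.rn MvPolynomial.X (n + n) (rel finSumFinEquiv (cupK S K c)))
        (rel finSumFinEquiv (cupK S _ c))
        (by rw [r1, mapT_rel, mapT_cupK, hx.cup])
      rwa [r2, mapT_rel, mapT_cupK] at h1
    even := fun n i => by
      have h1 := hX (fun I => (∏ s, (S.tau (I s) : MvPolynomial B.Vr ℚ)) *
        B.xt MvPolynomial.X n i I) (B.xt MvPolynomial.X n i) (by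
          rw [mapT_evn, s1]
          exact funext (hx.even n i))
      rw [mapT_evn, s2] at h1
      exact fun I => congrFun h1 I }

end Transfer

/-! ### The functional -/

/-- The projections as natural operators. -/
noncomputable def FP (S : Std R) (K : Type*) [Field K] [CharZero K] : Fnc R K where
  app κ _ _ := PB S K κ
  nat e t := PB_rel e t

/-- The variables of the basis tensors. -/
def DB (B : Bas S A) : Vs R K B.Vr where
  k v := Fin v.1
  fin _ := inferInstance
  dec _ := inferInstance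
  T v := B.t v.1 v.2.1
  i v := v.2.2

section Exist

variable {B : Bas S A} (hA : Closed S A)

include hA

lemma Br.mem {g : (κ → R) → ℚ} (hg : Br S κ g) : A κ (mapT (Rat.castHom K) g) := by
  induction hg with
  | one =>
    have : mapT (Rat.castHom K) (fun _ : Empty → R => (1 : ℚ)) = fun _ => 1 := by
      funext I; simp [mapT_apply]
    rw [this]; exact hA.one
  | cup c => rw [mapT_cupK]; exact hA.cup c
  | tmul _ _ ih ih' => rw [mapT_tmul]; exact hA.tmul ih ih'
  | rel e _ ih => rw [mapT_rel]; exact hA.rel e ih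
  | ctr _ _ ih ih' => rw [mapT_ctr]; exact hA.ctr ih ih'

omit [CharZero K] in
lemma tl_mem : ∀ l, A _ ((DB B).tl l)
  | [] => hA.one
  | v :: l => hA.tmul ((B.mf v.1).mem v.2.1) (tl_mem l)

lemma PB_nt [Fintype κ] [DecidableEq κ] {a : (κ → R) → K} (ha : NT S A κ a) :
    PB S K κ a = 0 := by
  apply PB_eq_zero
  intro g hg
  have h1 := ha.2 _ (hg.mem hA)
  rw [bp, ← mapT_jl, hg.jl] at h1
  rw [dot_comm]; exact h1

omit hA in
lemma PB_tmul_br [Fintype κ] [DecidableEq κ] [Fintype κ'] [DecidableEq κ'] (t : (κ → R) → K)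
    {b : (κ' → R) → ℚ} (hb : Br S κ' b) :
    PB S K (κ ⊕ κ') (tmul t (mapT (Rat.castHom K) b)) =
      tmul (PB S K κ t) (mapT (Rat.castHom K) b) := by
  apply PB_unique
  · have h1 : ∀ w ∈ WB S K κ, tmul w (mapT (Rat.castHom K) b) ∈ WB S K (κ ⊕ κ') := by
      intro w hw
      refine Submodule.span_induction
        (p := fun w _ => tmul w (mapT (Rat.castHom K) b) ∈ WB S K (κ ⊕ κ')) ?_ ?_ ?_ ?_ hw
      · rintro _ ⟨g, hg, rfl⟩
        exact Submodule.subset_span ⟨_, hg.tmul hb, by rw [mapT_tmul]⟩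
      · rw [zero_tmul]; exact Submodule.zero_mem _
      · intro x y _ _ hx hy; rw [add_tmul]; exact Submodule.add_mem _ hx hy
      · intro c x _ hx; rw [smul_tmul]; exact Submodule.smul_mem _ _ hx
    exact h1 _ (PB_mem t)
  · intro g hg
    rw [← sub_tmul, dot_comm, ← dot_pdot, ← mapT_pdot]
    have h3 : pdot g b = ctr S g b := by rw [ctr, hb.jl]
    rw [h3, dot_comm]
    exact PB_dot t (hg.ctr hb)

/-- The functional. -/
noncomputable abbrev EB (B : Bas S A) (κ : Type) [Fintype κ] [DecidableEq κ] (t : (κ → R) → K)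
    (I : κ → R) : MvPolynomial B.Vr K →ₗ[K] K := (DB B).E (FP S K) κ t I

lemma EB_nt [Fintype κ] [DecidableEq κ] {t : (κ → R) → K} (ht : NT S A κ t) (I : κ → R) :
    EB B κ t I = 0 :=
  (DB B).E_eq_zero (fun l => PB_nt hA (ht.tmul hA (tl_mem hA l))) I

lemma EB_rn [Fintype κ] [DecidableEq κ] {t : (κ → R) → K} (ht : A κ t) (I : κ → R) {n : ℕ}
    {a : (Fin n → R) → K} (ha : A _ a) (J : Fin n → R) (q : MvPolynomial B.Vr K) :
    EB B κ t I (B.rn (MvPolynomial.X : B.Vr → MvPolynomial B.Vr K) n a J * q) =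
      EB B (κ ⊕ Fin n) (tmul t a) (Sum.elim I J) q := by
  have h1 := B.nt_sub hA ha
  have h2 := EB_nt hA (B := B) (h1.tmul' hA ht) (Sum.elim I J)
  rw [tmul_sub, EB, Vs.E_sub, sub_eq_zero] at h2
  rw [EB, EB, h2, tmul_sum, Vs.E_sum, Bas.rn_apply, Finset.sum_mul, map_sum, LinearMap.sum_apply]
  refine Finset.sum_congr rfl fun i _ => ?_
  rw [tmul_smul, Vs.E_smul, LinearMap.smul_apply]
  have h3 : algebraMap ℚ (MvPolynomial B.Vr K) (B.cf n a i) * MvPolynomial.X ⟨n, i, J⟩ * q =
      (B.cf n a i : K) • (MvPolynomial.X ⟨n, i, J⟩ * q) := by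
    rw [MvPolynomial.smul_eq_C_mul, mul_assoc]
    congr 1
  rw [h3, map_smul, Vs.E_X_mul]
  rfl

omit hA in
lemma EB_zop [Fintype κ] [DecidableEq κ] (ε : κ → Bool) {t : (κ → R) → K} (ht : zop S ε t = t)
    (I : κ → R) : (∏ s, if ε s then (S.tau (I s) : K) else 1) • EB B κ t I = EB B κ t I := by
  refine (MvPolynomial.basisMonomials B.Vr K).ext fun m => ?_
  rw [LinearMap.smul_apply, EB, Vs.E_basis, Vs.val]
  generalize (Finsupp.toMultiset m).toList = l
  have h1 : zop S (Sum.elim ε fun _ => false) (tmul t ((DB B).tl l)) =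
      tmul t ((DB B).tl l) := by
    rw [zop_tmul]
    congr 1
    funext I
    rw [zop]
    simp
  have h2 := PB_zop (S := S) (F := K) (Sum.elim ε fun _ => false) (tmul t ((DB B).tl l))
  rw [h1] at h2
  have h3 := congrFun h2 (Sum.elim I ((DB B).Il l))
  change _ • PB S K _ _ _ = PB S K _ _ _
  conv_rhs => rw [h3, zop, Fintype.prod_sum_type]
  simp

/-- The ideal of relations. -/
noncomputable def KI (B : Bas S A) : Ideal (MvPolynomial B.Vr K) where
  carrier := {p | ∀ (κ : Type) [Fintype κ] [DecidableEq κ] (t : (κ → R) → K) (I : κ → R)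
    (q : MvPolynomial B.Vr K), A κ t → EB B κ t I (p * q) = 0}
  zero_mem' := fun κ _ _ t I q _ => by rw [zero_mul, map_zero]
  add_mem' := fun {p p'} hp hp' κ _ _ t I q ht => by
    rw [add_mul, map_add, hp κ t I q ht, hp' κ t I q ht, add_zero]
  smul_mem' := fun c p hp κ _ _ t I q ht => by
    rw [smul_eq_mul, mul_comm c, mul_assoc]; exact hp κ t I _ ht

omit hA in
lemma mem_KI {p : MvPolynomial B.Vr K} : p ∈ KI B ↔ ∀ (κ : Type) [Fintype κ] [DecidableEq κ]
    (t : (κ → R) → K) (I : κ → R) (q : MvPolynomial B.Vr K), A κ t → EB B κ t I (p * q) = 0 :=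
  Iff.rfl

lemma one_not_mem_KI : (1 : MvPolynomial B.Vr K) ∉ KI B := by
  intro h
  have h1 := h Empty (fun _ => 1) (fun s => s.elim) 1 hA.one
  rw [mul_one, EB, Vs.E_one] at h1
  have h2 : mapT (Rat.castHom K) (fun _ : Empty → R => (1 : ℚ)) = fun _ => 1 := by
    funext I; simp [mapT_apply]
  have h3 : PB S K Empty (fun _ : Empty → R => (1 : K)) = fun _ => 1 := by
    rw [← h2]; exact PB_br Br.one
  change PB S K Empty (fun _ : Empty → R => (1 : K)) _ = 0 at h1
  rw [h3] at h1
  exact one_ne_zero h1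

/-- The quotient point. -/
noncomputable def xq (B : Bas S A) : B.Vr → MvPolynomial B.Vr K ⧸ KI B :=
  fun v => Ideal.Quotient.mk _ (MvPolynomial.X v)

omit hA in
lemma rn_xq (n : ℕ) (a : (Fin n → R) → K) : B.rn (xq B) n a =
    mapT (Ideal.Quotient.mk (KI B)) (B.rn (MvPolynomial.X : B.Vr → MvPolynomial B.Vr K) n a) :=
  (mapT_rn (MvPolynomial.X : B.Vr → MvPolynomial B.Vr K) (Ideal.Quotient.mkₐ ℚ (KI B)) n a).symm

omit hA in
lemma xt_xq (n : ℕ) (i : Fin (B.d n)) : B.xt (xq B) n i =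
    mapT (Ideal.Quotient.mk (KI B)) (B.xt (MvPolynomial.X : B.Vr → MvPolynomial B.Vr K) n i) :=
  rfl

omit hA in
lemma mapT_mk_eq {u v : (κ → R) → MvPolynomial B.Vr K}
    (h : ∀ J, u J - v J ∈ KI B) : mapT (Ideal.Quotient.mk (KI B)) u =
      mapT (Ideal.Quotient.mk (KI B)) v := by
  funext J
  exact Ideal.Quotient.eq.2 (h J)

/-- The quotient point is a model. -/
lemma isModel_xq : IsModel B (xq B) where
  perm n σ i := by
    rw [rn_xq, xt_xq, ← mapT_rel]
    refine mapT_mk_eq fun J κ _ _ t I q ht => ?_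
    rw [sub_mul, map_sub, EB_rn hA ht I (hA.rel σ ((B.mf n).mem i)), sub_eq_zero]
    rw [rel_apply, Bas.xt, EB, EB, Vs.E_X_mul]
    change (DB B).E (FP S K) (κ ⊕ Fin n) (rel (Equiv.sumCongr (Equiv.refl κ) σ)
      (tmul t (B.t n i))) _ q = _
    rw [Vs.E_rel]
    change (DB B).E (FP S K) (κ ⊕ Fin n) _ _ q = (DB B).E (FP S K) (κ ⊕ Fin n) _ _ q
    congr 2
    funext s
    rcases s with s | s <;> rfl
  tmul n m i j := by
    rw [rn_xq, xt_xq, xt_xq, ← mapT_tmul, ← mapT_rel]
    refine mapT_mk_eq fun J κ _ _ t I q ht => ?_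
    rw [sub_mul, map_sub, EB_rn hA ht I (hA.rel _ (hA.tmul ((B.mf n).mem i) ((B.mf m).mem j))),
      sub_eq_zero]
    rw [rel_apply, tmul_apply, Bas.xt, Bas.xt, mul_assoc, EB, EB, Vs.E_X_mul, Vs.E_X_mul]
    let e : (κ ⊕ Fin n) ⊕ Fin m ≃ κ ⊕ Fin (n + m) :=
      (Equiv.sumAssoc _ _ _).trans (Equiv.sumCongr (Equiv.refl κ) finSumFinEquiv)
    have h1 : tmul t (rel finSumFinEquiv (tmul (B.t n i) (B.t m j))) =
        rel e (tmul (tmul t (B.t n i)) (B.t m j)) := by
      funext I
      exact (mul_assoc _ _ _).symm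
    rw [h1, Vs.E_rel]
    change (DB B).E (FP S K) ((κ ⊕ Fin n) ⊕ Fin m) _ _ q =
      (DB B).E (FP S K) ((κ ⊕ Fin n) ⊕ Fin m) _ _ q
    congr 2
    funext s
    rcases s with (s | s) | s <;> rfl
  pc n m i := by
    rw [rn_xq, xt_xq, ← mapT_rel, ← mapT_pc]
    refine mapT_mk_eq fun J κ _ _ t I q ht => ?_
    rw [sub_mul, map_sub, EB_rn hA ht I (hA.pc (hA.rel _ ((B.mf _).mem i))), sub_eq_zero]
    rw [pc_apply, Finset.sum_mul, map_sum]
    let e : κ ⊕ Fin (n + (m + m)) ≃ (κ ⊕ Fin n) ⊕ (Fin m ⊕ Fin m) :=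
      (Equiv.sumCongr (Equiv.refl κ) (Bas.eF n m)).trans (Equiv.sumAssoc _ _ _).symm
    have h1 : tmul t (pc S (rel (Bas.eF n m) (B.t _ i))) = pc S (rel e (tmul t (B.t _ i))) := by
      funext L
      rw [tmul_apply, pc_apply, pc_apply, Finset.mul_sum]
      refine Finset.sum_congr rfl fun I' _ => ?_
      rw [← mul_assoc, rel_apply, rel_apply, tmul_apply]
      congr 2
      refine congrArg _ ?_
      funext s
      change _ = Sum.elim L (Sum.elim I' fun s => S.inv (I' s)) ((Equiv.sumAssoc κ (Fin n)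
        (Fin m ⊕ Fin m)).symm (Sum.inr (Bas.eF n m s)))
      rcases (Bas.eF n m s) with s | s | s <;> rfl
    rw [h1, EB, ← Vs.E_pc (S := S) (Φ := FP S K) (D := DB B) (fun κ₁ _ _ u => PB_pc u),
      LinearMap.sum_apply]
    refine Finset.sum_congr rfl fun I' _ => ?_
    rw [LinearMap.smul_apply, Vs.E_rel, rel_apply, Bas.xt]
    have h2 : MvPolynomial.X (R := K) (⟨_, i, fun s => Sum.elim J (Sum.elim I' fun s => S.inv (I' s))
        ((Bas.eF n m) s)⟩ : B.Vr) * (∏ s, (S.sg (I' s) : MvPolynomial B.Vr K)) * q =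
        (∏ s, (S.sg (I' s) : K)) • (MvPolynomial.X (⟨_, i, fun s => Sum.elim J
          (Sum.elim I' fun s => S.inv (I' s)) ((Bas.eF n m) s)⟩ : B.Vr) * q) := by
      rw [MvPolynomial.smul_eq_C_mul, map_prod]
      simp only [map_intCast]
      ring
    rw [h2, map_smul, EB, Vs.E_X_mul]
    congr 1
    change (DB B).E (FP S K) (κ ⊕ Fin (n + (m + m))) _ _ q =
      (DB B).E (FP S K) (κ ⊕ Fin (n + (m + m))) _ _ q
    congr 2
    funext s
    rcases s with s | s
    · rfl
    · change Sum.elim (Sum.elim I J) (Sum.elim I' fun s => S.inv (I' s))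
        ((Equiv.sumAssoc κ (Fin n) (Fin m ⊕ Fin m)).symm (Sum.inr ((Bas.eF n m) s))) =
        Sum.elim J (Sum.elim I' fun s => S.inv (I' s)) (Bas.eF n m s)
      rcases (Bas.eF n m s) with s | s | s <;> rfl
  one := by
    have h0 : (fun _ => 1 : (Fin 0 → R) → MvPolynomial B.Vr K ⧸ KI B) =
        mapT (Ideal.Quotient.mk (KI B)) (fun _ => 1) := by
      funext I; rw [mapT_apply, map_one]
    rw [rn_xq, h0]
    have h1 : A (Fin 0) (fun _ => 1) := hA.rel (Equiv.equivOfIsEmpty Empty (Fin 0)) hA.one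
    refine mapT_mk_eq fun J κ _ _ t I q ht => ?_
    rw [sub_mul, map_sub, EB_rn hA ht I h1, sub_eq_zero, one_mul]
    have h2 : (tmul t fun _ => 1 : (κ ⊕ Fin 0 → R) → K) =
        rel (Equiv.sumEmpty κ (Fin 0)).symm t := by
      funext I
      rw [tmul_apply, mul_one]; rfl
    rw [h2, EB, Vs.E_rel]
    rfl
  cup n c := by
    rw [rn_xq, ← mapT_cupK (S := S) (Ideal.Quotient.mk (KI B)) c, ← mapT_rel]
    refine mapT_mk_eq fun J κ _ _ t I q ht => ?_
    rw [sub_mul, map_sub, EB_rn hA ht I (hA.rel _ (hA.cup c)), sub_eq_zero]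
    have hb : Br S (Fin (n + n)) (rel finSumFinEquiv (cupK S ℚ c)) := Br.rel _ (Br.cup c)
    have h1 : rel finSumFinEquiv (cupK S K c) =
        mapT (Rat.castHom K) (rel finSumFinEquiv (cupK S ℚ c)) := by
      rw [mapT_rel, mapT_cupK]
    rw [h1, EB, Vs.E_tmul (b' := mapT (Rat.castHom K) (rel finSumFinEquiv (cupK S ℚ c)))
      (D := DB B) (Φ := FP S K) (fun l => PB_tmul_br _ hb), LinearMap.smul_apply, ← h1, ← map_smul,
      MvPolynomial.smul_eq_C_mul, rel_apply, rel_apply]
    congr 2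
    exact congrFun (mapT_cupK S (MvPolynomial.C : K →+* MvPolynomial B.Vr K) c) _
  even n i := by
    have h1 : mapT (Ideal.Quotient.mk (KI B)) (fun I => (∏ s, (S.tau (I s) :
        MvPolynomial B.Vr K)) * B.xt MvPolynomial.X n i I) =
        mapT (Ideal.Quotient.mk (KI B)) (B.xt MvPolynomial.X n i) := by
      refine mapT_mk_eq fun J κ _ _ t I q ht => ?_
      rw [sub_mul, map_sub, sub_eq_zero]
      have h2 : (∏ s, (S.tau (J s) : MvPolynomial B.Vr K)) *
          B.xt MvPolynomial.X n i J * q = (∏ s, (S.tau (J s) : K)) • (B.xt MvPolynomial.X n i J * q)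
          := by
        rw [MvPolynomial.smul_eq_C_mul, map_prod]
        simp only [map_intCast]
        ring
      rw [h2, map_smul, Bas.xt, EB, Vs.E_X_mul]
      have h3 : zop S (Sum.elim (fun _ => false) fun _ => true) (tmul t (B.t n i)) =
          tmul t (B.t n i) := by
        rw [zop_tmul]
        congr 1
        · funext I
          rw [zop]
          simp
        · funext I
          have := hA.even ((B.mf n).mem i) I
          rw [zop]
          simpa using this
      have h4 := LinearMap.congr_fun (EB_zop (B := B) _ h3 (Sum.elim I J)) q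
      rw [LinearMap.smul_apply, Fintype.prod_sum_type] at h4
      simp only [Sum.elim_inl, Sum.elim_inr, Bool.false_eq_true, if_false, if_true,
        Finset.prod_const_one, one_mul] at h4
      exact h4
    rw [mapT_evn] at h1
    exact fun I => congrFun h1 I

/-- There is a nondegenerate complex model. -/
theorem exists_model (jobA : JobA) : ∃ x : B.Vr → ℂ, IsModel B x := by
  let φ : MvPolynomial B.Vr ℚ →ₐ[ℚ] MvPolynomial B.Vr K ⧸ KI B := MvPolynomial.aeval (xq B)
  have h1 : RingHom.ker φ ≠ ⊤ := by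
    intro h
    have h2 : (1 : MvPolynomial B.Vr ℚ) ∈ RingHom.ker φ := by rw [h]; exact Submodule.mem_top
    rw [RingHom.mem_ker, map_one] at h2
    have h3 : (Ideal.Quotient.mk (KI B)) 1 = 0 := by rw [map_one]; exact h2
    exact one_not_mem_KI hA (Ideal.Quotient.eq_zero_iff_mem.1 h3)
  obtain ⟨x, hx⟩ := jobA B.Vr (RingHom.ker φ) h1
  exact ⟨x, (isModel_xq hA).transfer fun p hp => hx p hp⟩

end Exist

end Pool.Agent.Y97.FD
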