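import Pool.Agent.Y97.Defs

/-!
# Coordinate morphisms between powers, and the classes generated by the cycles on one power
-/

open CategoryTheory AlgebraicGeometry

universe u v

namespace Pool.Agent.Y97.FD

open Pool.Agent.H914 Pool.Agent.H914.VarClass Pool.Agent.H914.VarClass.Obj
  Pool.Agent.H914.WeilCohomology Pool.Agent.H281R3.HT

variable {k : Type u} [Field k] {𝒱 : VarClass k} {ops : CycleOps 𝒱}

/-- The projection of the power `X ^ (s + 1)` to the factor number `i`. -/
noncomputable def pr (ops : CycleOps 𝒱) (P : Polarized 𝒱) :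
    (s : ℕ) → Fin (s + 1) → ((power ops P s).X ⟶ P.X)
  | 0, _ => 𝟙 P.X
  | s + 1, i => Fin.cases (motive := fun _ => (power ops P (s + 1)).X ⟶ P.X)
      (fst P.X (power ops P s).X) (fun j => snd P.X (power ops P s).X ≫ pr ops P s j) i

/-- The morphism to the power `X ^ (s + 1)` given by its components. -/
noncomputable def tup (ops : CycleOps 𝒱) (P : Polarized 𝒱) {Y : 𝒱.Obj} :
    (s : ℕ) → (Fin (s + 1) → (Y ⟶ P.X)) → (Y ⟶ (power ops P s).X)
  | 0, g => g 0
  | s + 1, g => Obj.lift (X := P.X) (Y := (power ops P s).X) (g 0)
      (tup ops P s (fun i => g i.succ))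

/-- The coordinate morphism `X ^ (t + 1) → X ^ (s + 1)`, `x ↦ (x (φ 0), …, x (φ s))`, attached to a
map of indices `φ`. -/
noncomputable def cmap (ops : CycleOps 𝒱) (P : Polarized 𝒱) {s t : ℕ}
    (φ : Fin (s + 1) → Fin (t + 1)) : (power ops P t).X ⟶ (power ops P s).X :=
  tup ops P s (fun i => pr ops P t (φ i))

/-- The cohomology classes on the powers of `X` which are generated by the classes of algebraic
cycles on `X ^ (m + 1)`, by means of sums, rational multiples, intersection products, pull-backs
along the coordinate morphisms between powers, push-forwards along the projections which forget a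
factor, and the addition of classes of numerically trivial cycles. -/
inductive Gen (W : WeilCohomology.{u, v} ops) (P : Polarized 𝒱) (m : ℕ) :
    (s : ℕ) → W.H (power ops P s).X → Prop
  | cyc {j : ℕ} {z : (power ops P m).X.Cycles} : (power ops P m).X.IsCyc j z →
      Gen W P m m (W.cl (power ops P m).X z)
  | num {s j : ℕ} {z : (power ops P s).X.Cycles} : (power ops P s).X.IsCyc j z →
      (∀ w, (power ops P s).X.IsCyc ((power ops P s).X.dim - j) w →
        (power ops P s).X.V.degCycle (ops.mul z w) = 0) → Gen W P m s (W.cl (power ops P s).X z)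
  | add {s : ℕ} {c d : W.H (power ops P s).X} : Gen W P m s c → Gen W P m s d →
      Gen W P m s (c + d)
  | smul {s : ℕ} (q : ℚ) {c : W.H (power ops P s).X} : Gen W P m s c →
      Gen W P m s ((q : W.K) • c)
  | mul {s : ℕ} {c d : W.H (power ops P s).X} : Gen W P m s c → Gen W P m s d →
      Gen W P m s (c * d)
  | pull {s t : ℕ} (φ : Fin (s + 1) → Fin (t + 1)) {c : W.H (power ops P s).X} :
      Gen W P m s c → Gen W P m t (W.map (cmap ops P φ) c)
  | push {s : ℕ} {c : W.H (power ops P (s + 1)).X} : Gen W P m (s + 1) c →
      Gen W P m s (W.push (snd P.X (power ops P s).X) c)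

end Pool.Agent.Y97.FD
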