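import Pool.Agent.Y97.FD.Stm2

/-!
# From a general form to a standard form
-/

set_option linter.unusedSectionVars false

universe u v

open Pool.Agent.W552

namespace Pool.Agent.Y97.FD

/-- A system of tensors with rational structure with respect to a form `G` (a matrix), in numbered
slots: closed under permutations of the slots, products, contraction of the first two slots with
the form, and containing the tensors dual to the form. -/
structure ClosedN {R : Type} {K : Type*} [Field K] [Fintype R] [DecidableEq R] (par : R → Bool)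
    (G : Matrix R R K) (A : ∀ n : ℕ, ((Fin n → R) → K) → Prop) : Prop where
  sub : ∀ n, RatSub K (A n)
  perm : ∀ {n : ℕ} (σ : Fin n ≃ Fin n) {f : (Fin n → R) → K}, A n f → A n (rel σ f)
  tmul : ∀ {n m : ℕ} {f : (Fin n → R) → K} {g : (Fin m → R) → K}, A n f → A m g →
    ∃ e : Fin n ⊕ Fin m ≃ Fin (n + m), A (n + m) (rel e (tmul f g))
  ctr : ∀ {n : ℕ} {f : (Fin (n + 2) → R) → K}, A (n + 2) f →
    A n (fun I => ∑ i, ∑ j, G i j * f (Fin.cons i (Fin.cons j I)))
  cup : ∀ c : Bool, ∃ Cu : Matrix R R K,
    (∀ k l, (G.transpose * Cu * G) k l = if par k = c then G k l else 0) ∧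
      A 2 (fun I => Cu (I 0) (I 1))
  rat : ∀ {f : (Fin 0 → R) → K}, A 0 f → ∃ q : ℚ, f = fun _ => (q : K)
  one : A 0 (fun _ => 1)
  even : ∀ {n : ℕ} {f : (Fin n → R) → K}, A n f →
    ∀ I, (∏ s, (if par (I s) then -1 else 1 : K)) * f I = f I

/-- The system of tensors over an extension, in other coordinates, in arbitrary slots. -/
def AF {R : Type} {K : Type*} [Field K] {F : Type*} [Field F] [Fintype R] [DecidableEq R]
    (φ : K →+* F) (M : Matrix R R F) (A : ∀ n : ℕ, ((Fin n → R) → K) → Prop) (κ : Type)
    (f : (κ → R) → F) : Prop :=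
  f = 0 ∨ ∃ (n : ℕ) (e : κ ≃ Fin n) (g : (Fin n → R) → K), A n g ∧ rel e f = act M (mapT φ g)

/-- Job F: in the coordinates in which the form is standard, the system satisfies `ClosedB`. -/
def JobF : Prop :=
  ∀ {R : Type} [Fintype R] [DecidableEq R] {K : Type u} [Field K] [CharZero K] {F : Type v}
    [Field F] [CharZero F] (φ : K →+* F) (par : R → Bool) (G : Matrix R R K)
    (A : ∀ n : ℕ, ((Fin n → R) → K) → Prop), ClosedN par G A →
    ∀ (S : Std R) (M M' : Matrix R R F), (∀ i, S.par i = par i) → M * M' = 1 →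
    M.transpose * S.C F * M = G.map φ → (∀ i j, par i ≠ par j → M i j = 0) →
    ClosedB S (AF φ M A)

end Pool.Agent.Y97.FD
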