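import Pool.Agent.Y97.SymOp
import Pool.Agent.Y97.FD.Stm3

/-!
# Tensors attached to the cohomology classes of powers
-/

set_option linter.unusedSectionVars false

open CategoryTheory AlgebraicGeometry Finset

universe u v

namespace Pool.Agent.Y97.FD

open Pool.Agent.H914 Pool.Agent.H914.VarClass Pool.Agent.H914.VarClass.Obj
  Pool.Agent.H914.WeilCohomology Pool.Agent.H281R3.HT Pool.Agent.W552 Pool.Agent.W539.Ker

variable {k : Type u} [Field k] {𝒱 : VarClass k} {ops : CycleOps 𝒱}
  {W : WeilCohomology.{u, v} ops} {P : Polarized 𝒱}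

/-- The basis of the cohomology of a power. -/
noncomputable def bas (b : HB W P.X) (s : ℕ) :
    Module.Basis (Fin (s + 1) → Fin b.N) W.K (W.H (power ops P s).X) :=
  (exists_basis b s).choose

lemma bas_apply (b : HB W P.X) (s : ℕ) (x : Fin (s + 1) → Fin b.N) : bas b s x = vec b s x :=
  (exists_basis b s).choose_spec x

/-- The coordinates of a class. -/
noncomputable def co (b : HB W P.X) (s : ℕ) (c : W.H (power ops P s).X) :
    (Fin (s + 1) → Fin b.N) → W.K := fun x => (bas b s).repr c x

lemma sum_co (b : HB W P.X) (s : ℕ) (c : W.H (power ops P s).X) :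
    ∑ x, co b s c x • vec b s x = c := by
  have h := (bas b s).sum_repr c
  simp only [bas_apply] at h
  exact h

lemma co_add (b : HB W P.X) (s : ℕ) (c d : W.H (power ops P s).X) :
    co b s (c + d) = co b s c + co b s d := by
  funext x; simp [co]

lemma co_smul (b : HB W P.X) (s : ℕ) (a : W.K) (c : W.H (power ops P s).X) :
    co b s (a • c) = a • co b s c := by
  funext x; simp [co]

lemma co_zero (b : HB W P.X) (s : ℕ) : co b s (0 : W.H (power ops P s).X) = 0 := by
  funext x; simp [co]

lemma co_sum {ι : Type*} (b : HB W P.X) (s : ℕ) (t : Finset ι)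
    (c : ι → W.H (power ops P s).X) : co b s (∑ i ∈ t, c i) = ∑ i ∈ t, co b s (c i) := by
  funext x; simp [co]

lemma co_vec (b : HB W P.X) (s : ℕ) (x y : Fin (s + 1) → Fin b.N) :
    co b s (vec b s x) y = if x = y then 1 else 0 := by
  rw [co, ← bas_apply, Module.Basis.repr_self, Finsupp.single_apply]

lemma co_inj (b : HB W P.X) (s : ℕ) {c d : W.H (power ops P s).X} (h : co b s c = co b s d) :
    c = d := by
  rw [← sum_co b s c, ← sum_co b s d, h]

/-- Two linear maps which agree on the basis vectors are equal. -/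
lemma vec_ext (b : HB W P.X) (s : ℕ) {V : Type*} [AddCommGroup V] [Module W.K V]
    {T T' : W.H (power ops P s).X →ₗ[W.K] V} (h : ∀ x, T (vec b s x) = T' (vec b s x)) :
    T = T' := by
  apply (bas b s).ext
  intro x
  rw [bas_apply]
  exact h x

/-- The coordinates of the image of a class under an operator. -/
lemma co_map (b : HB W P.X) (s t : ℕ) (T : W.H (power ops P s).X →ₗ[W.K] W.H (power ops P t).X)
    (c : W.H (power ops P s).X) (y : Fin (t + 1) → Fin b.N) :
    co b t (T c) y = ∑ x, co b s c x * co b t (T (vec b s x)) y := by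
  conv_lhs => rw [← sum_co b s c]
  rw [map_sum, co_sum, Finset.sum_apply]
  refine Finset.sum_congr rfl fun x _ => ?_
  rw [map_smul, co_smul, Pi.smul_apply, smul_eq_mul]

/-- The parity of the basis vectors. -/
def gpar (b : HB W P.X) (i : Fin b.N) : Bool := decide (b.dg i % 2 = 1)

/-- The matrix of the form. -/
noncomputable def Gm (b : HB W P.X) (f : Module.End W.K (W.H P.X)) :
    Matrix (Fin b.N) (Fin b.N) W.K :=
  Matrix.of fun i j => bf W P.X P.D f (b.e i) (b.e j)

/-- The tensors given by algebraic classes. -/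
def A0 (b : HB W P.X) : ∀ n : ℕ, ((Fin n → Fin b.N) → W.K) → Prop
  | 0, g => ∃ q : ℚ, g = fun _ => (q : W.K)
  | s + 1, g => ∃ c : W.H (power ops P s).X, AS W _ c ∧ g = co b s c

end Pool.Agent.Y97.FD
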