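import Pool.Agent.Y97.FD.Geo0
import Pool.Agent.Y97.FD.GDefs

/-!
# Coordinate morphisms between powers
-/

set_option linter.unusedSectionVars false

open CategoryTheory AlgebraicGeometry Finset

universe u v

namespace Pool.Agent.Y97.FD

open Pool.Agent.H914 Pool.Agent.H914.VarClass Pool.Agent.H914.VarClass.Obj
  Pool.Agent.H914.WeilCohomology Pool.Agent.H281R3.HT Pool.Agent.W552 Pool.Agent.W539.Ker

variable {k : Type u} [Field k] {𝒱 : VarClass k} {ops : CycleOps 𝒱}
  {W : WeilCohomology.{u, v} ops} {P : Polarized 𝒱} {Y Z : 𝒱.Obj}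

lemma pr_zero (s : ℕ) : pr ops P (s + 1) 0 = fst P.X (power ops P s).X := rfl

lemma pr_succ (s : ℕ) (i : Fin (s + 1)) :
    pr ops P (s + 1) i.succ = snd P.X (power ops P s).X ≫ pr ops P s i := rfl

lemma tup_zero (g : Fin 1 → (Y ⟶ P.X)) : tup ops P 0 g = g 0 := rfl

lemma tup_succ (s : ℕ) (g : Fin (s + 2) → (Y ⟶ P.X)) :
    tup ops P (s + 1) g = Obj.lift (X := P.X) (Y := (power ops P s).X) (g 0)
      (tup ops P s (fun i => g i.succ)) := rfl

lemma tup_pr (s : ℕ) (g : Fin (s + 1) → (Y ⟶ P.X)) (i : Fin (s + 1)) :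
    tup ops P s g ≫ pr ops P s i = g i := by
  induction s with
  | zero =>
    obtain rfl : i = 0 := Fin.eq_zero i
    exact Category.comp_id (g 0)
  | succ s ih =>
    refine Fin.cases ?_ (fun j => ?_) i
    · exact Obj.lift_fst _ _
    · rw [pr_succ, tup_succ]
      have h1 : Obj.lift (g 0) (tup ops P s (fun i => g i.succ)) ≫
          snd P.X (power ops P s).X = tup ops P s (fun i => g i.succ) := Obj.lift_snd _ _
      refine (Category.assoc (Obj.lift (g 0) (tup ops P s (fun i => g i.succ)))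
        (snd P.X (power ops P s).X) (pr ops P s j)).symm.trans ?_
      rw [h1]
      exact ih _ j

/-- The ordered product of the pull-backs of basis vectors. -/
noncomputable def vG (b : HB W P.X) {Y : 𝒱.Obj} :
    (s : ℕ) → (Fin (s + 1) → (Y ⟶ P.X)) → (Fin (s + 1) → Fin b.N) → W.H Y
  | 0, g, x => W.map (g 0) (b.e (x 0))
  | s + 1, g, x => W.map (g 0) (b.e (x 0)) * vG b s (fun i => g i.succ) (fun i => x i.succ)

lemma vG_succ (b : HB W P.X) (s : ℕ) (g : Fin (s + 2) → (Y ⟶ P.X))
    (x : Fin (s + 2) → Fin b.N) : vG b (s + 1) g x = W.map (g 0) (b.e (x 0)) *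
      vG b s (fun i => g i.succ) (fun i => x i.succ) := rfl

lemma map_ext (g : Y ⟶ P.X) {Z : 𝒱.Obj} (h : Y ⟶ Z) (a : W.H P.X) (c : W.H Z) :
    W.map (Obj.lift g h) (ext W a c) = W.map g a * W.map h c := by
  rw [H281R3.HT.ext, map_mul (W.map (Obj.lift g h)), ← W.map_comp, ← W.map_comp, Obj.lift_fst,
    Obj.lift_snd]

lemma map_tup_vec (b : HB W P.X) (s : ℕ) (g : Fin (s + 1) → (Y ⟶ P.X))
    (x : Fin (s + 1) → Fin b.N) : W.map (tup ops P s g) (vec b s x) = vG b s g x := by
  induction s with
  | zero => rfl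
  | succ s ih =>
    rw [vG_succ, ← ih]
    exact map_ext (g 0) (tup ops P s (fun i => g i.succ)) (b.e (x 0))
      (vec b s (fun i => x i.succ))

lemma map_vG (b : HB W P.X) (h : Z ⟶ Y) (s : ℕ) (g : Fin (s + 1) → (Y ⟶ P.X))
    (x : Fin (s + 1) → Fin b.N) : W.map h (vG b s g x) = vG b s (fun i => h ≫ g i) x := by
  induction s with
  | zero => exact (W.map_comp h (g 0) (b.e (x 0))).symm
  | succ s ih =>
    rw [vG_succ, vG_succ, map_mul, ih, ← W.map_comp]

lemma vec_eq_vG (b : HB W P.X) (s : ℕ) (x : Fin (s + 1) → Fin b.N) :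
    vec b s x = vG b s (pr ops P s) x := by
  induction s with
  | zero => exact (W.map_id P.X (b.e (x 0))).symm
  | succ s ih =>
    rw [vG_succ, vec_succ, ih]
    refine congrArg (W.map (fst P.X (power ops P s).X) (b.e (x 0)) * ·) ?_
    exact map_vG b (snd P.X (power ops P s).X) s (pr ops P s) _

/-- The sign of the transposition of two basis vectors. -/
noncomputable def sgn2 (W : WeilCohomology.{u, v} ops) (b : HB W P.X) (i j : Fin b.N) : W.K :=
  (-1) ^ (b.dg i * b.dg j)

lemma vG_swap (b : HB W P.X) : ∀ (s : ℕ) (i : Fin s) (g : Fin (s + 1) → (Y ⟶ P.X))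
    (x : Fin (s + 1) → Fin b.N),
    vG b s (fun j => g (Equiv.swap i.castSucc i.succ j)) x =
      sgn2 W b (x i.castSucc) (x i.succ) •
        vG b s g (fun j => x (Equiv.swap i.castSucc i.succ j)) := by
  intro s
  induction s with
  | zero => intro i; exact i.elim0
  | succ s ih =>
    intro i g x
    refine Fin.cases ?_ (fun j => ?_) i
    · have e0 : Equiv.swap (Fin.castSucc (0 : Fin (s + 1))) (Fin.succ 0) 0 = 1 := by
        rw [Fin.castSucc_zero, Equiv.swap_apply_left, Fin.succ_zero_eq_one]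
      have e1 : Equiv.swap (Fin.castSucc (0 : Fin (s + 1))) (Fin.succ 0) 1 = 0 := by
        rw [Fin.castSucc_zero, Fin.succ_zero_eq_one, Equiv.swap_apply_right]
      have e2 : ∀ l : Fin s, Equiv.swap (Fin.castSucc (0 : Fin (s + 1))) (Fin.succ 0)
          l.succ.succ = l.succ.succ := by
        intro l
        rw [Fin.castSucc_zero]
        refine Equiv.swap_apply_of_ne_of_ne (Fin.succ_ne_zero _) ?_
        exact fun h => Fin.succ_ne_zero _ (Fin.succ_injective _ h)
      have hc : ∀ (a a' : W.H Y) (_ : a ∈ W.gr Y (b.dg (x 0))) (_ : a' ∈ W.gr Y (b.dg (x 1))),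
          a * a' = sgn2 W b (x 0) (x 1) • (a' * a) := fun a a' h h' => W.comm h h'
      have hm : ∀ (h : Y ⟶ P.X) (l : Fin b.N), W.map h (b.e l) ∈ W.gr Y (b.dg l) :=
        fun h l => W.map_mem h (b.mem l)
      rcases s with _ | s
      · change W.map (g (Equiv.swap (Fin.castSucc (0 : Fin 1)) (Fin.succ 0) 0)) (b.e (x 0)) *
          W.map (g (Equiv.swap (Fin.castSucc (0 : Fin 1)) (Fin.succ 0) 1)) (b.e (x 1)) =
          sgn2 W b (x 0) (x 1) • (W.map (g 0) (b.e (x (Equiv.swap (Fin.castSucc (0 : Fin 1))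
            (Fin.succ 0) 0))) * W.map (g 1) (b.e (x (Equiv.swap (Fin.castSucc (0 : Fin 1))
            (Fin.succ 0) 1))))
        rw [e0, e1]
        exact hc _ _ (hm _ _) (hm _ _)
      · change W.map (g (Equiv.swap (Fin.castSucc (0 : Fin (s + 2))) (Fin.succ 0) 0))
            (b.e (x 0)) * (W.map (g (Equiv.swap (Fin.castSucc (0 : Fin (s + 2))) (Fin.succ 0) 1))
            (b.e (x 1)) * vG b s (fun l => g (Equiv.swap (Fin.castSucc (0 : Fin (s + 2)))
            (Fin.succ 0) l.succ.succ)) (fun l => x l.succ.succ)) =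
          sgn2 W b (x 0) (x 1) • (W.map (g 0) (b.e (x (Equiv.swap
            (Fin.castSucc (0 : Fin (s + 2))) (Fin.succ 0) 0))) * (W.map (g 1) (b.e (x
            (Equiv.swap (Fin.castSucc (0 : Fin (s + 2))) (Fin.succ 0) 1))) *
            vG b s (fun l => g l.succ.succ) (fun l => x (Equiv.swap
            (Fin.castSucc (0 : Fin (s + 2))) (Fin.succ 0) l.succ.succ))))
        simp only [e0, e1, e2]
        rw [← mul_assoc, hc _ _ (hm _ _) (hm _ _), smul_mul_assoc, mul_assoc]
    · have e0 : Equiv.swap (Fin.castSucc (Fin.succ j)) (Fin.succ (Fin.succ j)) 0 = 0 := by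
        apply Equiv.swap_apply_of_ne_of_ne
        · rw [Fin.castSucc_succ]
          exact (Fin.succ_ne_zero _).symm
        · exact (Fin.succ_ne_zero _).symm
      have e1 : ∀ l : Fin (s + 1), Equiv.swap (Fin.castSucc (Fin.succ j))
          (Fin.succ (Fin.succ j)) l.succ = (Equiv.swap (Fin.castSucc j) (Fin.succ j) l).succ := by
        intro l
        rw [Fin.castSucc_succ]
        exact (Fin.succ_injective _).swap_apply _ _ _
      rw [vG_succ, vG_succ]
      simp only [e0, e1]
      rw [ih j (fun l => g l.succ) (fun l => x l.succ), mul_smul_comm]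
      rfl

lemma map_cmap_vec (b : HB W P.X) {s t : ℕ} (φ : Fin (s + 1) → Fin (t + 1))
    (x : Fin (s + 1) → Fin b.N) :
    W.map (cmap ops P φ) (vec b s x) = vG b s (fun i => pr ops P t (φ i)) x :=
  map_tup_vec b s _ x

lemma map_cmap_id (b : HB W P.X) {s : ℕ} (c : W.H (power ops P s).X) :
    W.map (cmap ops P (id : Fin (s + 1) → Fin (s + 1))) c = c := by
  have h : (W.map (cmap ops P (id : Fin (s + 1) → Fin (s + 1)))).toLinearMap =
      LinearMap.id := by
    apply vec_ext b s
    intro x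
    refine (map_cmap_vec b id x).trans ?_
    exact (vec_eq_vG b s x).symm
  exact congrArg (fun T => T c) h

lemma map_tup_cmap (b : HB W P.X) {s t : ℕ} (g : Fin (t + 1) → (Y ⟶ P.X))
    (φ : Fin (s + 1) → Fin (t + 1)) (c : W.H (power ops P s).X) :
    W.map (tup ops P t g) (W.map (cmap ops P φ) c) =
      W.map (tup ops P s (fun i => g (φ i))) c := by
  have h : (W.map (tup ops P t g)).toLinearMap ∘ₗ (W.map (cmap ops P φ)).toLinearMap =
      (W.map (tup ops P s (fun i => g (φ i)))).toLinearMap := by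
    apply vec_ext b s
    intro x
    change W.map (tup ops P t g) (W.map (cmap ops P φ) (vec b s x)) =
      W.map (tup ops P s (fun i => g (φ i))) (vec b s x)
    rw [map_cmap_vec, map_vG, map_tup_vec]
    congr 1
    funext i
    exact tup_pr t g (φ i)
  exact congrArg (fun T => T c) h

lemma map_cmap_comp (b : HB W P.X) {r s t : ℕ} (φ : Fin (r + 1) → Fin (s + 1))
    (ψ : Fin (s + 1) → Fin (t + 1)) (c : W.H (power ops P r).X) :
    W.map (cmap ops P ψ) (W.map (cmap ops P φ) c) = W.map (cmap ops P (ψ ∘ φ)) c :=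
  map_tup_cmap b _ φ c

/-- The transposition of two neighbouring factors in coordinates. -/
lemma map_cmap_swap (b : HB W P.X) {s : ℕ} (i : Fin s) (x : Fin (s + 1) → Fin b.N) :
    W.map (cmap ops P ⇑(Equiv.swap i.castSucc i.succ)) (vec b s x) =
      sgn2 W b (x i.castSucc) (x i.succ) •
        vec b s (fun j => x (Equiv.swap i.castSucc i.succ j)) := by
  rw [map_cmap_vec, vG_swap b s i (pr ops P s) x, ← vec_eq_vG]

/-- The projection of a product of powers to the first factor. -/
noncomputable def prL (ops : CycleOps 𝒱) (P : Polarized 𝒱) : (s t : ℕ) →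
    ((power ops P (t + 1 + s)).X ⟶ (power ops P s).X)
  | 0, t => fst P.X (power ops P t).X
  | s + 1, t => Obj.lift (X := P.X) (Y := (power ops P s).X) (fst P.X (power ops P (t + 1 + s)).X)
      (snd P.X (power ops P (t + 1 + s)).X ≫ prL ops P s t)

/-- The projection of a product of powers to the second factor. -/
noncomputable def prR (ops : CycleOps 𝒱) (P : Polarized 𝒱) : (s t : ℕ) →
    ((power ops P (t + 1 + s)).X ⟶ (power ops P t).X)
  | 0, t => snd P.X (power ops P t).X
  | s + 1, t => snd P.X (power ops P (t + 1 + s)).X ≫ prR ops P s t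

/-- The external product. -/
noncomputable def jn {s t : ℕ} (c : W.H (power ops P s).X) (d : W.H (power ops P t).X) :
    W.H (power ops P (t + 1 + s)).X := W.map (prL ops P s t) c * W.map (prR ops P s t) d

lemma jn_zero {t : ℕ} (a : W.H (power ops P 0).X) (d : W.H (power ops P t).X) :
    jn (s := 0) a d = ext W (X := P.X) (Y := (power ops P t).X) a d := rfl

lemma jn_succ {s t : ℕ} (a : W.H P.X) (c : W.H (power ops P s).X)
    (d : W.H (power ops P t).X) :
    jn (s := s + 1) (t := t) (ext W (X := P.X) (Y := (power ops P s).X) a c) d =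
      ext W (X := P.X) (Y := (power ops P (t + 1 + s)).X) a (jn c d) := by
  have h1 : W.map (prL ops P (s + 1) t) (ext W (X := P.X) (Y := (power ops P s).X) a c) =
      W.map (fst P.X (power ops P (t + 1 + s)).X) a *
        W.map (snd P.X (power ops P (t + 1 + s)).X ≫ prL ops P s t) c :=
    map_ext (P := P) (fst P.X (power ops P (t + 1 + s)).X) _ a c
  have h2 : W.map (prR ops P (s + 1) t) d =
      W.map (snd P.X (power ops P (t + 1 + s)).X) (W.map (prR ops P s t) d) :=
    W.map_comp _ _ _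
  have h3 : jn (s := s + 1) (t := t) (ext W (X := P.X) (Y := (power ops P s).X) a c) d =
      W.map (prL ops P (s + 1) t) (ext W (X := P.X) (Y := (power ops P s).X) a c) *
        W.map (prR ops P (s + 1) t) d := rfl
  rw [h3, h1, h2]
  refine (mul_assoc _ _ _).trans ?_
  have h4 : W.map (snd P.X (power ops P (t + 1 + s)).X ≫ prL ops P s t) c =
      W.map (snd P.X (power ops P (t + 1 + s)).X) (W.map (prL ops P s t) c) :=
    W.map_comp _ _ _
  rw [h4]
  have h5 : W.map (snd P.X (power ops P (t + 1 + s)).X) (W.map (prL ops P s t) c) *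
      W.map (snd P.X (power ops P (t + 1 + s)).X) (W.map (prR ops P s t) d) =
      W.map (snd P.X (power ops P (t + 1 + s)).X) (jn c d) := (map_mul _ _ _).symm
  exact congrArg (W.map (fst P.X (power ops P (t + 1 + s)).X) a * ·) h5

/-- The identification of the indices of a product of powers. -/
def jeq (s t : ℕ) : Fin (s + 1) ⊕ Fin (t + 1) ≃ Fin (t + 1 + s + 1) :=
  finSumFinEquiv.trans (finCongr (by omega))

lemma jeq_inl (s t : ℕ) (i : Fin (s + 1)) : ((jeq s t (Sum.inl i) : Fin _) : ℕ) = i := by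
  simp [jeq]

lemma jeq_inr (s t : ℕ) (j : Fin (t + 1)) : ((jeq s t (Sum.inr j) : Fin _) : ℕ) = s + 1 + j := by
  simp [jeq]
  omega

lemma jn_vec (b : HB W P.X) (s t : ℕ) (x : Fin (s + 1) → Fin b.N) (y : Fin (t + 1) → Fin b.N) :
    jn (vec b s x) (vec b t y) =
      vec b (t + 1 + s) (fun i => Sum.elim x y ((jeq s t).symm i)) := by
  induction s with
  | zero =>
    have h1 : (jeq 0 t).symm 0 = Sum.inl 0 := by
      rw [Equiv.symm_apply_eq]; ext; rw [jeq_inl]; rfl
    have h2 : ∀ i : Fin (t + 1), (jeq 0 t).symm i.succ = Sum.inr i := by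
      intro i
      rw [Equiv.symm_apply_eq]; ext; rw [jeq_inr]; simp [add_comm]
    refine (jn_zero (vec b 0 x) (vec b t y)).trans ?_
    have h3 := vec_succ (ops := ops) b t (fun i => Sum.elim x y ((jeq 0 t).symm i))
    refine Eq.trans ?_ h3.symm
    have h4 : (fun i : Fin (t + 1) => Sum.elim x y ((jeq 0 t).symm i.succ)) = y := by
      funext i; rw [h2]; rfl
    change ext W (b.e (x 0)) (vec b t y) = ext W (b.e (Sum.elim x y ((jeq 0 t).symm 0))) _
    rw [h1, h4]
    rfl
  | succ s ih =>
    have h1 : (jeq (s + 1) t).symm 0 = Sum.inl 0 := by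
      rw [Equiv.symm_apply_eq]; ext; rw [jeq_inl]; rfl
    have h2 : ∀ i : Fin (t + 1 + s + 1), (jeq (s + 1) t).symm i.succ =
        Sum.map Fin.succ id ((jeq s t).symm i) := by
      intro i
      rw [Equiv.symm_apply_eq]
      ext
      obtain ⟨w, rfl⟩ := (jeq s t).surjective i
      rw [Equiv.symm_apply_apply]
      rcases w with w | w
      · rw [Sum.map_inl, jeq_inl, Fin.val_succ, Fin.val_succ, jeq_inl]
      · rw [Sum.map_inr, jeq_inr, Fin.val_succ, jeq_inr, id]; omega
    refine (jn_succ (b.e (x 0)) (vec b s (fun i => x i.succ)) (vec b t y)).trans ?_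
    rw [ih (fun i => x i.succ)]
    have h3 := vec_succ (ops := ops) b (t + 1 + s)
      (fun i => Sum.elim x y ((jeq (s + 1) t).symm i))
    refine Eq.trans ?_ h3.symm
    have h4 : (fun i : Fin (t + 1 + s + 1) => Sum.elim x y ((jeq (s + 1) t).symm i.succ)) =
        fun i => Sum.elim (fun i => x i.succ) y ((jeq s t).symm i) := by
      funext i
      rw [h2]
      rcases (jeq s t).symm i with w | w <;> rfl
    change ext W (b.e (x 0)) _ = ext W (b.e (Sum.elim x y ((jeq (s + 1) t).symm 0))) _
    rw [h1, h4]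
    rfl

end Pool.Agent.Y97.FD
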