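import Pool.Agent.Y97.FD.Geo1

/-!
# The tensors of algebraic classes: permutations and products
-/

set_option linter.unusedSectionVars false

open CategoryTheory AlgebraicGeometry Finset

universe u v

namespace Pool.Agent.Y97.FD

open Pool.Agent.H914 Pool.Agent.H914.VarClass Pool.Agent.H914.VarClass.Obj
  Pool.Agent.H914.WeilCohomology Pool.Agent.H281R3.HT Pool.Agent.W552 Pool.Agent.W539.Ker

variable {k : Type u} [Field k] {𝒱 : VarClass k} {ops : CycleOps 𝒱}
  {W : WeilCohomology.{u, v} ops} {P : Polarized 𝒱} {Y Z : 𝒱.Obj}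

/-- The parity sign of a basis vector. -/
noncomputable def ps (b : HB W P.X) (i : Fin b.N) : W.K := if gpar b i then -1 else 1

lemma ps_eq (b : HB W P.X) (i : Fin b.N) : ps b i = (-1) ^ b.dg i := by
  rw [ps, gpar]
  rcases Nat.even_or_odd (b.dg i) with h | h
  · rw [h.neg_one_pow, if_neg]
    simp [Nat.even_iff.1 h]
  · rw [h.neg_one_pow, if_pos]
    simp [Nat.odd_iff.1 h]

lemma ps_sq (b : HB W P.X) (i : Fin b.N) : ps b i * ps b i = 1 := by
  rw [ps]; split_ifs <;> norm_num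

lemma sgn2_eq (b : HB W P.X) (i j : Fin b.N) :
    sgn2 W b i j = (2 : W.K)⁻¹ * (1 + ps b i + ps b j - ps b j * ps b i) := by
  have h2 : (2 : W.K) ≠ 0 := two_ne_zero
  rw [sgn2, ps_eq, ps_eq]
  rcases Nat.even_or_odd (b.dg i) with h | h
  · rw [h.neg_one_pow, (h.mul_right _).neg_one_pow]
    field_simp
    ring
  · rcases Nat.even_or_odd (b.dg j) with h' | h'
    · rw [h.neg_one_pow, h'.neg_one_pow, (h'.mul_left _).neg_one_pow]
      field_simp
      ring
    · rw [h.neg_one_pow, h'.neg_one_pow, (h.mul h').neg_one_pow]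
      field_simp
      ring

lemma sgn2_sq (b : HB W P.X) (i j : Fin b.N) : sgn2 W b i j * sgn2 W b i j = 1 := by
  rw [sgn2, ← mul_pow]; simp

lemma sgn2_comm (b : HB W P.X) (i j : Fin b.N) : sgn2 W b i j = sgn2 W b j i := by
  rw [sgn2, sgn2, mul_comm]

/-- The statement about the parity operators. -/
def PZ (b : HB W P.X) : Prop := ∀ (s : ℕ) (i : Fin (s + 1)),
  ∃ u : Module.End W.K (W.H (power ops P s).X), AOp W _ _ u ∧
    ∀ x, u (vec b s x) = (if gpar b (x i) then (-1 : W.K) else 1) • vec b s x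

lemma exists_zz {b : HB W P.X} (hz : PZ (ops := ops) b) (s : ℕ) (i j : Fin (s + 1)) :
    ∃ u : Module.End W.K (W.H (power ops P s).X), AOp W _ _ u ∧
      ∀ x, u (vec b s x) = sgn2 W b (x i) (x j) • vec b s x := by
  obtain ⟨u, hu, hu'⟩ := hz s i
  obtain ⟨v, hv, hv'⟩ := hz s j
  refine ⟨((2⁻¹ : ℚ) : W.K) • (1 + u + v + ((-1 : ℚ) : W.K) • (v * u)),
    (((AOp.one.add hu).add hv).add ((hv.mul hu).smul _)).smul _, fun x => ?_⟩
  simp only [LinearMap.smul_apply, LinearMap.add_apply, Module.End.one_apply,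
    Module.End.mul_apply, hu', hv', map_smul]
  have h1 : (if gpar b (x i) then (-1 : W.K) else 1) = ps b (x i) := rfl
  have h2 : (if gpar b (x j) then (-1 : W.K) else 1) = ps b (x j) := rfl
  rw [h1, h2, sgn2_eq]
  push_cast
  module

/-- Permutations of the factors without signs. -/
lemma exists_up {b : HB W P.X} (hz : PZ (ops := ops) b) (s : ℕ)
    (σ : Equiv.Perm (Fin (s + 1))) :
    ∃ u : Module.End W.K (W.H (power ops P s).X), AOp W _ _ u ∧
      ∀ x, u (vec b s x) = vec b s (x ∘ σ) := by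
  have h1 : σ ∈ Submonoid.closure (Set.range fun i : Fin s => Equiv.swap i.castSucc i.succ) := by
    rw [Equiv.Perm.mclosure_swap_castSucc_succ]
    exact Submonoid.mem_top _
  induction h1 using Submonoid.closure_induction with
  | mem σ h =>
    obtain ⟨i, rfl⟩ := h
    obtain ⟨u, hu, hu'⟩ := exists_zz hz s i.castSucc i.succ
    refine ⟨(W.map (cmap ops P ⇑(Equiv.swap i.castSucc i.succ))).toLinearMap * u,
      (map_aop _).mul hu, fun x => ?_⟩
    rw [Module.End.mul_apply, hu', map_smul]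
    have h2 := map_cmap_swap (ops := ops) b i x
    rw [show (W.map (cmap ops P ⇑(Equiv.swap i.castSucc i.succ))).toLinearMap (vec b s x) =
      W.map (cmap ops P ⇑(Equiv.swap i.castSucc i.succ)) (vec b s x) from rfl, h2, smul_smul,
      sgn2_sq, one_smul]
    rfl
  | one => exact ⟨1, AOp.one, fun x => by simp⟩
  | mul σ τ _ _ h h' =>
    obtain ⟨u, hu, hu'⟩ := h
    obtain ⟨v, hv, hv'⟩ := h'
    refine ⟨v * u, hv.mul hu, fun x => ?_⟩
    rw [Module.End.mul_apply, hu', hv']
    rfl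

lemma a0_perm {b : HB W P.X} (hz : PZ (ops := ops) b) {n : ℕ} (σ : Fin n ≃ Fin n)
    {g : (Fin n → Fin b.N) → W.K} (hg : A0 (ops := ops) b n g) :
    A0 (ops := ops) b n (rel σ g) := by
  rcases n with _ | s
  · obtain ⟨q, rfl⟩ := hg
    exact ⟨q, rfl⟩
  · obtain ⟨c, hc, rfl⟩ := hg
    obtain ⟨u, hu, hu'⟩ := exists_up hz s σ⁻¹
    refine ⟨u c, hu.apply hc, ?_⟩
    funext y
    rw [co_map, rel_apply, Finset.sum_eq_single (fun i => y (σ i))]
    · rw [hu', co_vec, if_pos, mul_one]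
      funext i
      simp
    · intro x _ hx
      rw [hu', co_vec, if_neg, mul_zero]
      intro h
      apply hx
      funext i
      rw [← h]
      simp
    · intro h; exact absurd (Finset.mem_univ _) h

lemma a0_cast {b : HB W P.X} {n n' : ℕ} (h : n = n') {g : (Fin n → Fin b.N) → W.K}
    (hg : A0 (ops := ops) b n g) : A0 (ops := ops) b n' (rel (finCongr h) g) := by
  subst h
  exact hg

lemma co_jn (b : HB W P.X) {s t : ℕ} (c : W.H (power ops P s).X) (d : W.H (power ops P t).X) :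
    co b (t + 1 + s) (jn c d) = rel (jeq s t) (tmul (co b s c) (co b t d)) := by
  have h1 : jn c d = ∑ x, ∑ y, (co b s c x * co b t d y) • jn (vec b s x) (vec b t y) := by
    conv_lhs => rw [← sum_co b s c, ← sum_co b t d]
    rw [jn, map_sum, map_sum, Finset.sum_mul_sum]
    refine Finset.sum_congr rfl fun x _ => Finset.sum_congr rfl fun y _ => ?_
    rw [map_smul, map_smul, smul_mul_smul_comm]
    rfl
  rw [h1, co_sum]
  funext z
  rw [Finset.sum_apply]
  have h2 : ∀ x y, co b (t + 1 + s) (jn (vec b s x) (vec b t y)) z =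
      if x = (fun i => z (jeq s t (Sum.inl i))) ∧ y = (fun i => z (jeq s t (Sum.inr i)))
      then 1 else 0 := by
    intro x y
    rw [jn_vec, co_vec]
    congr 1
    apply propext
    constructor
    · rintro rfl
      constructor <;> funext i <;> simp
    · rintro ⟨rfl, rfl⟩
      funext i
      obtain ⟨w, rfl⟩ := (jeq s t).surjective i
      rw [Equiv.symm_apply_apply]
      rcases w with w | w <;> rfl
  rw [Finset.sum_eq_single (fun i => z (jeq s t (Sum.inl i)))]
  · rw [co_sum, Finset.sum_apply, Finset.sum_eq_single (fun i => z (jeq s t (Sum.inr i)))]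
    · rw [co_smul, Pi.smul_apply, h2, if_pos ⟨rfl, rfl⟩, smul_eq_mul, mul_one]
      rfl
    · intro y _ hy
      rw [co_smul, Pi.smul_apply, h2, if_neg (fun h => hy h.2), smul_zero]
    · intro h; exact absurd (Finset.mem_univ _) h
  · intro x _ hx
    rw [co_sum, Finset.sum_apply]
    refine Finset.sum_eq_zero fun y _ => ?_
    rw [co_smul, Pi.smul_apply, h2, if_neg (fun h => hx h.1), smul_zero]
  · intro h; exact absurd (Finset.mem_univ _) h

lemma AS_jn {s t : ℕ} {c : W.H (power ops P s).X} {d : W.H (power ops P t).X}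
    (hc : AS W _ c) (hd : AS W _ d) : AS W _ (jn c d) := (hc.map _).mul (hd.map _)

lemma a0_tmul {b : HB W P.X} {n m : ℕ}
    {g : (Fin n → Fin b.N) → W.K} {h : (Fin m → Fin b.N) → W.K} (hg : A0 (ops := ops) b n g)
    (hh : A0 (ops := ops) b m h) :
    ∃ e : Fin n ⊕ Fin m ≃ Fin (n + m), A0 (ops := ops) b (n + m) (rel e (tmul g h)) := by
  have hs : ∀ {n : ℕ} (q : ℚ) {g : (Fin n → Fin b.N) → W.K}, A0 (ops := ops) b n g →
      A0 (ops := ops) b n ((q : W.K) • g) := by
    intro n q g hg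
    rcases n with _ | s
    · obtain ⟨r, rfl⟩ := hg
      refine ⟨q * r, ?_⟩
      funext x
      simp
    · obtain ⟨c, hc, rfl⟩ := hg
      exact ⟨(q : W.K) • c, hc.smul q, (co_smul b s _ c).symm⟩
  rcases n with _ | s
  · obtain ⟨q, rfl⟩ := hg
    let e0 : Fin 0 ⊕ Fin m ≃ Fin m := Equiv.emptySum (Fin 0) (Fin m)
    refine ⟨e0.trans (finCongr (by omega)), ?_⟩
    have h1 := a0_cast (ops := ops) (show m = 0 + m by omega) (hs q hh)
    have h2 : rel (e0.trans (finCongr (show m = 0 + m by omega)))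
        (tmul (fun _ : Fin 0 → Fin b.N => (q : W.K)) h) =
        rel (finCongr (show m = 0 + m by omega)) ((q : W.K) • h) := by
      funext I
      rw [rel_apply, rel_apply, tmul_apply]
      rfl
    rw [h2]
    exact h1
  rcases m with _ | t
  · obtain ⟨q, rfl⟩ := hh
    let e0 : Fin (s + 1) ⊕ Fin 0 ≃ Fin (s + 1) := Equiv.sumEmpty (Fin (s + 1)) (Fin 0)
    refine ⟨e0, ?_⟩
    have h2 : rel e0 (tmul g (fun _ : Fin 0 → Fin b.N => (q : W.K))) = (q : W.K) • g := by
      funext I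
      rw [rel_apply, tmul_apply, Pi.smul_apply, smul_eq_mul, mul_comm]
      rfl
    rw [h2]
    exact hs q hg
  · obtain ⟨c, hc, rfl⟩ := hg
    obtain ⟨d, hd, rfl⟩ := hh
    have h0 : t + 1 + s + 1 = s + 1 + (t + 1) := by omega
    refine ⟨(jeq s t).trans (finCongr h0), ?_⟩
    have h1 : A0 (ops := ops) b (t + 1 + s + 1) (co b (t + 1 + s) (jn c d)) :=
      ⟨_, AS_jn hc hd, rfl⟩
    have h2 := a0_cast (ops := ops) h0 h1
    rw [co_jn, rel_rel] at h2
    exact h2

lemma a0_sub {b : HB W P.X} (n : ℕ) : RatSub W.K (A0 (ops := ops) b n) := by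
  rcases n with _ | s
  · refine ⟨⟨0, by funext x; simp⟩, ?_, ?_⟩
    · rintro _ _ ⟨q, rfl⟩ ⟨r, rfl⟩
      exact ⟨q + r, by funext x; simp⟩
    · rintro q _ ⟨r, rfl⟩
      exact ⟨q * r, by funext x; simp⟩
  · refine ⟨⟨0, AS.zero, (co_zero b s).symm⟩, ?_, ?_⟩
    · rintro _ _ ⟨c, hc, rfl⟩ ⟨d, hd, rfl⟩
      exact ⟨c + d, hc.add hd, (co_add b s c d).symm⟩
    · rintro q _ ⟨c, hc, rfl⟩
      exact ⟨(q : W.K) • c, hc.smul q, (co_smul b s _ c).symm⟩

/-- **The tensors of the algebraic classes form a closed system.** -/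
theorem a0_closed {b : HB W P.X} {f : Module.End W.K (W.H P.X)} (hz : PZ (ops := ops) b)
    (hcup : ∀ c : Bool, ∃ Cu : Matrix (Fin b.N) (Fin b.N) W.K,
      (∀ i j, ((Gm b f).transpose * Cu * Gm b f) i j = if gpar b i = c then Gm b f i j else 0) ∧
        A0 (ops := ops) b 2 (fun I => Cu (I 0) (I 1)))
    (hctr : ∀ {n : ℕ} {g : (Fin (n + 2) → Fin b.N) → W.K}, A0 (ops := ops) b (n + 2) g →
      A0 (ops := ops) b n (fun I => ∑ i, ∑ j, Gm b f i j * g (Fin.cons i (Fin.cons j I))))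
    (heven : ∀ {n : ℕ} {g : (Fin n → Fin b.N) → W.K}, A0 (ops := ops) b n g →
      ∀ I : Fin n → Fin b.N, (∏ s, (if gpar b (I s) then (-1 : W.K) else 1)) * g I = g I) :
    ClosedN (gpar b) (Gm b f) (A0 (ops := ops) b) where
  sub := a0_sub
  perm σ _ h := a0_perm hz σ h
  tmul := a0_tmul
  ctr := hctr
  cup := hcup
  rat h := h
  one := ⟨1, by simp⟩
  even := heven

end Pool.Agent.Y97.FD
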