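import Pool.Agent.Y97.FD.Stm2

/-!
# Closed systems of tensors from contractions of one pair

This is the proof of `Pool.Agent.Y195.FD.jobE`.
-/

set_option linter.unusedSectionVars false
set_option autoImplicit false

universe u

open Finset Pool.Agent.W552 Pool.Agent.Y97.FD

namespace Pool.Agent.Y97.FD.E

section

variable {R : Type} {F : Type*} [CommRing F] (S : Std R) [Fintype R] [DecidableEq R]

/-- Splitting off the first slots. -/
def splitE (κ α : Type) : κ ⊕ (Option α ⊕ Option α) ≃ (κ ⊕ (Unit ⊕ Unit)) ⊕ (α ⊕ α) where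
  toFun
    | Sum.inl k => Sum.inl (Sum.inl k)
    | Sum.inr (Sum.inl none) => Sum.inl (Sum.inr (Sum.inl ()))
    | Sum.inr (Sum.inl (some a)) => Sum.inr (Sum.inl a)
    | Sum.inr (Sum.inr none) => Sum.inl (Sum.inr (Sum.inr ()))
    | Sum.inr (Sum.inr (some a)) => Sum.inr (Sum.inr a)
  invFun
    | Sum.inl (Sum.inl k) => Sum.inl k
    | Sum.inl (Sum.inr (Sum.inl _)) => Sum.inr (Sum.inl none)
    | Sum.inr (Sum.inl a) => Sum.inr (Sum.inl (some a))
    | Sum.inl (Sum.inr (Sum.inr _)) => Sum.inr (Sum.inr none)
    | Sum.inr (Sum.inr a) => Sum.inr (Sum.inr (some a))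
  left_inv := by rintro (k | ⟨_ | a⟩ | ⟨_ | a⟩) <;> rfl
  right_inv := by rintro ((k | u | u) | a | a) <;> rfl

/-- Splitting off the first slots of a cup. -/
def splitC (α : Type) : (Unit ⊕ Unit) ⊕ (α ⊕ α) ≃ Option α ⊕ Option α where
  toFun
    | Sum.inl (Sum.inl _) => Sum.inl none
    | Sum.inr (Sum.inl a) => Sum.inl (some a)
    | Sum.inl (Sum.inr _) => Sum.inr none
    | Sum.inr (Sum.inr a) => Sum.inr (some a)
  invFun
    | Sum.inl none => Sum.inl (Sum.inl ())
    | Sum.inl (some a) => Sum.inr (Sum.inl a)
    | Sum.inr none => Sum.inl (Sum.inr ())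
    | Sum.inr (some a) => Sum.inr (Sum.inr a)
  left_inv := by rintro ((u | u) | a | a) <;> rfl
  right_inv := by rintro (⟨_ | a⟩ | ⟨_ | a⟩) <;> rfl

/-- Functions on `Option`. -/
def optE (α : Type) : (Unit → R) × (α → R) ≃ (Option α → R) where
  invFun I := (fun _ => I none, fun a => I (some a))
  toFun p := fun o => o.elim (p.1 ()) p.2
  right_inv I := by funext o; cases o <;> rfl
  left_inv p := rfl

lemma pc_rel {κ α β : Type} [Fintype κ] [DecidableEq κ] [Fintype α] [DecidableEq α] [Fintype β]
    [DecidableEq β] (e : α ≃ β) (f : (κ ⊕ (α ⊕ α) → R) → F) :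
    pc S f = pc S (rel (Equiv.sumCongr (Equiv.refl κ) (Equiv.sumCongr e e)) f) := by
  funext I
  rw [pc_apply, pc_apply]
  refine Fintype.sum_equiv (Equiv.arrowCongr e (Equiv.refl R)) _ _ fun J => ?_
  rw [rel_apply]
  congr 1
  · congr 1
    funext s
    rcases s with s | s | s <;> simp
  · exact Fintype.prod_equiv e _ _ fun s => by simp

lemma pc_option {κ α : Type} [Fintype κ] [DecidableEq κ] [Fintype α] [DecidableEq α]
    (f : (κ ⊕ (Option α ⊕ Option α) → R) → F) :
    pc S f = pc S (pc S (rel (splitE κ α) f)) := by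
  funext I
  rw [pc_apply, pc_apply]
  rw [← (optE α).sum_comp, Fintype.sum_prod_type]
  refine Finset.sum_congr rfl fun r _ => ?_
  rw [pc_apply, Finset.sum_mul]
  refine Finset.sum_congr rfl fun J _ => ?_
  rw [rel_apply, Fintype.prod_option, mul_assoc]
  congr 1
  · congr 1
    funext s
    rcases s with s | ⟨_ | s⟩ | ⟨_ | s⟩ <;> rfl
  · rw [Fintype.prod_unique (fun s : Unit => (S.sg (r s) : F)), mul_comm]
    rfl

lemma pc_empty {κ : Type} [Fintype κ] [DecidableEq κ] {α : Type} [Fintype α] [DecidableEq α]
    [IsEmpty α] (f : (κ ⊕ (α ⊕ α) → R) → F) :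
    pc S f = rel (Equiv.sumEmpty κ (α ⊕ α)) f := by
  funext I
  rw [pc_apply, Fintype.sum_unique, rel_apply]
  rw [Finset.univ_eq_empty, Finset.prod_empty, mul_one]
  congr 1
  funext s
  rcases s with s | s
  · rfl
  · exact isEmptyElim s

lemma cup_rel {α β : Type} [Fintype α] [DecidableEq α] [Fintype β]
    [DecidableEq β] (e : α ≃ β) (c : β → Bool) :
    rel (Equiv.sumCongr e e) (cupK S F (fun a => c (e a))) = cupK S F c := by
  funext J
  rw [rel_apply, cupK, cupK]
  exact Fintype.prod_equiv e _ _ fun s => by simp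

lemma cup_option {α : Type} [Fintype α] [DecidableEq α] (c : Option α → Bool) :
    cupK S F c = rel (splitC α) (tmul (cupK S F fun _ : Unit => c none)
      (cupK S F fun a => c (some a))) := by
  funext J
  rw [rel_apply, tmul_apply, cupK, cupK, cupK, Fintype.prod_option]
  congr 1
  simp only [Finset.univ_unique, Finset.prod_singleton]
  rfl

lemma cup_empty {α : Type} [Fintype α] [DecidableEq α] [IsEmpty α] (c : α → Bool)
    (e : Empty ≃ α ⊕ α) :
    cupK S F c = rel e (fun _ => 1) := by
  funext J
  rw [rel_apply, cupK, Finset.univ_eq_empty, Finset.prod_empty]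

end

/-- Job E. -/
theorem jobE : Pool.Agent.Y97.FD.JobE.{u} := by
  intro R F _ S _ _ A hA
  -- contractions
  have hpc : ∀ (α : Type) [Finite α], ∀ [Fintype α] [DecidableEq α] {κ : Type} [Fintype κ]
      [DecidableEq κ] {f : (κ ⊕ (α ⊕ α) → R) → F}, A (κ ⊕ (α ⊕ α)) f → A κ (pc S f) := by
    intro α _
    induction α using Finite.induction_empty_option with
    | of_equiv e ih =>
      intro _ _ κ _ _ f hf
      rename_i a b _ _ _ _
      have : Fintype a := Fintype.ofEquiv b e.symm
      have : DecidableEq a := Classical.decEq a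
      rw [pc_rel S e.symm]
      exact ih (hA.rel _ hf)
    | h_empty =>
      intro _ _ κ _ _ f hf
      rw [pc_empty]
      exact hA.rel _ hf
    | @h_option a hFa ih =>
      intro instF instD κ _ _ f hf
      let dA : DecidableEq a := Classical.decEq a
      obtain rfl : instF = @instFintypeOption a hFa := Subsingleton.elim _ _
      obtain rfl : instD = @Option.instDecidableEq a dA := Subsingleton.elim _ _
      rw [pc_option]
      exact hA.pc1 (ih (hA.rel (splitE κ a) hf))
  have hcup : ∀ (α : Type) [Finite α], ∀ [Fintype α] [DecidableEq α] (c : α → Bool),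
      A (α ⊕ α) (cupK S F c) := by
    intro α _
    induction α using Finite.induction_empty_option with
    | of_equiv e ih =>
      intro _ _ c
      rename_i a b _ _
      have : Fintype a := Fintype.ofEquiv b e.symm
      have : DecidableEq a := Classical.decEq a
      rw [← cup_rel S e]
      exact hA.rel _ (ih _)
    | h_empty =>
      intro _ _ c
      rw [cup_empty S c (Equiv.equivOfIsEmpty _ _)]
      exact hA.rel _ hA.one
    | @h_option a hFa ih =>
      intro instF instD c
      let dA : DecidableEq a := Classical.decEq a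
      obtain rfl : instF = @instFintypeOption a hFa := Subsingleton.elim _ _
      obtain rfl : instD = @Option.instDecidableEq a dA := Subsingleton.elim _ _
      rw [cup_option]
      exact hA.rel (splitC a) (hA.tmul (hA.cup1 fun _ => c none) (ih fun x => c (some x)))
  exact
    { sub := hA.sub
      rel := hA.rel
      tmul := hA.tmul
      ctr := fun {κ κ'} _ _ _ _ {f g} hf hg => by
        rw [ctr_eq_pc]
        exact hpc κ' (hA.rel _ (hA.tmul hf hg))
      cup := fun {κ} _ _ c => hcup κ c
      rat := hA.rat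
      one := hA.one
      even := hA.even }

end Pool.Agent.Y97.FD.E
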