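import Pool.Agent.Y97.FD.Tan
import Pool.Agent.Y419.FD.A
import Pool.Agent.Y419.FD.B

/-!
# The positive part of a closed system
-/

set_option linter.unusedSectionVars false

open Finset Matrix Pool.Agent.W552 Pool.Agent.Y97

namespace Pool.Agent.Y97.FD

variable {R : Type} [Fintype R] [DecidableEq R] {S : Std R} {κ κ' : Type} [Fintype κ]
  [DecidableEq κ] [Fintype κ'] [DecidableEq κ']

lemma act_Jt {g m : Matrix R R ℂ} (hg : IsH S g) (hm : gᴴ * m = 1) (f : (κ → R) → ℂ) :
    act g (Jt S f) = Jt S (act m f) := by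
  rw [Jt, Jt, jl_eq_act, jl_eq_act, cj_act, ← act_mul, ← act_mul]
  congr 1
  have h1 : gᵀ * m.map (starRingEnd ℂ) = 1 := by
    have h2 := congrArg (fun M : Matrix R R ℂ => M.map (starRingEnd ℂ)) hm
    simp only [Matrix.map_mul] at h2
    have h3 : (gᴴ).map (starRingEnd ℂ) = gᵀ := by
      ext i j; simp [Matrix.conjTranspose_apply]
    rw [h3] at h2
    rw [h2]
    exact Matrix.map_one _ (map_zero _) (map_one _)
  calc g * S.C ℂ = g * S.C ℂ * (gᵀ * m.map (starRingEnd ℂ)) := by rw [h1, Matrix.mul_one]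
    _ = (g * S.C ℂ * gᵀ) * m.map (starRingEnd ℂ) := by simp only [Matrix.mul_assoc]
    _ = _ := by rw [hg.form]

lemma evn_cj {f : (κ → R) → ℂ} (hf : Evn S f) : Evn S (cj f) := by
  intro I
  have h1 := congrArg (starRingEnd ℂ) (hf I)
  rw [map_mul, map_prod] at h1
  simpa [cj, mapT_apply] using h1

lemma cj_jl (f : (κ → R) → ℂ) : cj (jl S f) = jl S (cj f) := mapT_jl S _ f

lemma cj_cj (f : (κ → R) → ℂ) : cj (cj f) = f := by
  funext I; simp [cj, mapT_apply]

lemma Jt_Jt {f : (κ → R) → ℂ} (hf : Evn S f) : Jt S (Jt S f) = f := by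
  rw [Jt, Jt, cj_jl, cj_cj, jl_jl S hf]

lemma Jt_add (f g : (κ → R) → ℂ) : Jt S (f + g) = Jt S f + Jt S g := by
  have h1 : cj (f + g) = cj f + cj g := by funext I; simp [cj, mapT_apply]
  rw [Jt, h1, jl_add]; rfl

lemma Jt_smul (c : ℂ) (f : (κ → R) → ℂ) : Jt S (c • f) = (starRingEnd ℂ) c • Jt S f := by
  have h1 : cj (c • f) = (starRingEnd ℂ) c • cj f := by funext I; simp [cj, mapT_apply]
  rw [Jt, h1, jl_smul]; rfl

lemma Jt_zero : Jt S (0 : (κ → R) → ℂ) = 0 := by
  have h := Jt_smul (S := S) (0 : ℂ) (0 : (κ → R) → ℂ)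
  rwa [zero_smul, map_zero, zero_smul] at h

lemma Jt_sum {ι : Type*} (s : Finset ι) (f : ι → (κ → R) → ℂ) :
    Jt S (∑ i ∈ s, f i) = ∑ i ∈ s, Jt S (f i) := by
  classical
  induction s using Finset.induction_on with
  | empty => rw [Finset.sum_empty, Finset.sum_empty, Jt_zero]
  | insert a s ha ih => rw [Finset.sum_insert ha, Finset.sum_insert ha, Jt_add, ih]

lemma nrm_eq_bp {f : (κ → R) → ℂ} (hf : Evn S f) : (nrm f : ℂ) = bp S f (Jt S f) := by
  rw [nrm_eq_dot, bp, Jt, jl_jl S (evn_cj hf)]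

variable {K : Type*} [Field K] [CharZero K] {A : ∀ κ : Type, ((κ → R) → K) → Prop}
  {B : Bas S A}

/-- A minimal model with its unitary. -/
structure MM (B : Bas S A) (x : B.Vr → ℂ) (k : Matrix R R ℂ) : Prop where
  model : IsModel B x
  isH : IsH S k
  uni : kᴴ * k = 1
  kx : ∀ n i, act k (B.xt x n i) = Jt S (B.xt x n i)
  sa : ∀ g : Matrix R R ℂ, (∀ n i, act g (B.xt x n i) = B.xt x n i) →
        ∀ n i, act gᴴ (B.xt x n i) = B.xt x n i

/-- The positive part. -/
def PP (B : Bas S A) (x : B.Vr → ℂ) (k : Matrix R R ℂ) (κ : Type) [Fintype κ] [DecidableEq κ]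
    (a : (κ → R) → K) : Prop :=
  A κ a ∧ act k (rho B x κ a) = rho B x κ a

section

variable (hA : Closed S A) {x : B.Vr → ℂ} {k : Matrix R R ℂ} (h : MM B x k)

include hA h

lemma MM.k_rho (a : (κ → R) → K) : act k (rho B x κ a) = Jt S (rho B x κ a) := by
  rw [rho_expand hA, act_sum, Jt_sum]
  refine Finset.sum_congr rfl fun i _ => ?_
  rw [act_smul, Jt_smul, rho_tk hA, act_rel, h.kx]
  have h1 : (starRingEnd ℂ) (B.cf (Fintype.card κ) (rel (Fintype.equivFin κ) a) i : ℂ) =
      (B.cf (Fintype.card κ) (rel (Fintype.equivFin κ) a) i : ℂ) := by simp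
  rw [h1]
  congr 1
  have h2 : cj (rel (Fintype.equivFin κ).symm (B.xt x _ i)) =
      rel (Fintype.equivFin κ).symm (cj (B.xt x _ i)) := rfl
  rw [Jt, Jt, h2, jl_rel]

/-- The tensors of the model are carried to combinations of tensors of the model. -/
lemma MM.k_mem (a : (κ → R) → K) : act k (rho B x κ a) ∈ Sp B x κ := by
  apply tannaka hA h.model Pool.Agent.Y419.FD.jobB
  intro g hg
  have hgH := isH_of_models hA h.model h.model hg
  have hsa := h.sa g hg
  have hsH := hgH.conjTranspose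
  let m := S.C ℂ * (gᴴ)ᵀ * (S.C ℂ)ᵀ
  have hm : gᴴ * m = 1 := hsH.mul_inv
  have hm' : m * gᴴ = 1 := hsH.inv_mul
  have h1 : ∀ n i, act m (B.xt x n i) = B.xt x n i := by
    intro n i
    conv_lhs => rw [← hsa n i, ← act_mul, hm', act_one]
  rw [h.k_rho hA, act_Jt hgH hm, act_rho_of_xt hA h1]

lemma MM.k_Jt (f : (κ → R) → ℂ) : act k (Jt S f) = Jt S (act k f) :=
  act_Jt h.isH h.uni f

lemma MM.bp_k (f g : (κ → R) → ℂ) : bp S (act k f) (act k g) = bp S f g := h.isH.bp f g

/-- Positivity for the elements of the positive part. -/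
lemma PP.pos {a : (κ → R) → K} (ha : PP B x k κ a) {q : ℚ} (hq : bp S a a = (q : K)) :
    0 ≤ q ∧ (q = 0 → NT S A κ a) := by
  have h1 := rho_bp hA h.model ha.1 ha.1 hq
  have h2 : (nrm (rho B x κ a) : ℂ) = ((q : ℝ) : ℂ) := by
    rw [nrm_eq_bp (rho_even h.model), ← h.k_rho hA, ha.2, h1]
    simp
  have h3 : nrm (rho B x κ a) = (q : ℝ) := by exact_mod_cast h2
  refine ⟨?_, fun hq0 => ⟨ha.1, fun b hb => ?_⟩⟩
  · have := nrm_nonneg (rho B x κ a)
    rw [h3] at this
    exact_mod_cast this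
  · have h4 : rho B x κ a = 0 := nrm_eq_zero (by rw [h3, hq0, Rat.cast_zero])
    obtain ⟨q', hq'⟩ := hA.bp_rat ha.1 hb
    have h5 := rho_bp hA h.model ha.1 hb hq'
    have h6 : bp S (0 : (κ → R) → ℂ) (rho B x κ b) = 0 := by
      have := smul_bp S (0 : ℂ) (0 : (κ → R) → ℂ) (rho B x κ b)
      rwa [zero_smul, zero_mul] at this
    rw [h4, h6] at h5
    have h7 : q' = 0 := by
      have h8 : ((q' : ℚ) : ℂ) = 0 := by simpa using h5.symm
      exact_mod_cast h8
    rw [hq', h7, Rat.cast_zero]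

omit h in
lemma PP.nt {a : (κ → R) → K} (ha : NT S A κ a) : PP B x k κ a :=
  ⟨ha.1, by rw [rho_nt hA ha, act_zero]⟩

omit h in
lemma PP.add {a b : (κ → R) → K} (ha : PP B x k κ a) (hb : PP B x k κ b) :
    PP B x k κ (a + b) :=
  ⟨(hA.sub κ).add ha.1 hb.1, by rw [rho_add hA ha.1 hb.1, act_add, ha.2, hb.2]⟩

omit h in
lemma PP.smul {a : (κ → R) → K} (ha : PP B x k κ a) (q : ℚ) : PP B x k κ ((q : K) • a) :=
  ⟨(hA.sub κ).smul q ha.1, by rw [rho_smul hA ha.1, act_smul, ha.2]⟩

lemma PP.rel (e : κ ≃ κ') {a : (κ → R) → K} (ha : PP B x k κ a) : PP B x k κ' (rel e a) :=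
  ⟨hA.rel e ha.1, by rw [rho_rel hA h.model e ha.1, act_rel, ha.2]⟩

lemma PP.tmul {a : (κ → R) → K} {b : (κ' → R) → K} (ha : PP B x k κ a) (hb : PP B x k κ' b) :
    PP B x k (κ ⊕ κ') (tmul a b) :=
  ⟨hA.tmul ha.1 hb.1, by rw [rho_tmul hA h.model ha.1 hb.1, act_tmul, ha.2, hb.2]⟩

omit hA h in
lemma act_ctr {g : Matrix R R ℂ} (hg : IsH S g) (f : (κ ⊕ κ' → R) → ℂ) (b : (κ' → R) → ℂ) :
    act g (ctr S f b) = ctr S (act g f) (act g b) := by
  rw [ctr_eq_pc, ctr_eq_pc, hg.act_pc, act_rel, act_tmul]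

lemma PP.ctr {a : (κ ⊕ κ' → R) → K} {b : (κ' → R) → K} (ha : PP B x k (κ ⊕ κ') a)
    (hb : PP B x k κ' b) : PP B x k κ (ctr S a b) :=
  ⟨hA.ctr ha.1 hb.1, by rw [rho_ctr hA h.model ha.1 hb.1, act_ctr h.isH, ha.2, hb.2]⟩

lemma PP.one : PP B x k Empty (fun _ => 1) := by
  refine ⟨hA.one, ?_⟩
  rw [rho_one hA h.model]
  funext I
  rw [act_apply]
  simp

lemma PP.cup (c : κ → Bool) : PP B x k (κ ⊕ κ) (cupK S K c) :=
  ⟨hA.cup c, by rw [rho_cup hA h.model, h.isH.act_cupK]⟩

/-- A stable subspace on which the form is positive lies in the positive part. -/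
theorem MM.stable {W : ((κ → R) → K) → Prop} (hW : RatSub K W) (hWA : ∀ a, W a → A κ a)
    (hst : ∀ a, W a → act k (rho B x κ a) ∈ Submodule.span ℂ {f | ∃ b, W b ∧ f = rho B x κ b})
    (hpos : ∀ a, W a → ∀ q : ℚ, bp S a a = (q : K) → 0 ≤ q ∧ (q = 0 → NT S A κ a)) :
    ∀ a, W a → PP B x k κ a := by
  have hRQ : RQ (bpL S K κ) W :=
    { sub := hW
      rat := fun hx hy => hA.bp_rat (hWA _ hx) (hWA _ hy)
      symm := fun hx _ => hA.symm (hWA _ hx) }
  obtain ⟨d, w, s, hMF⟩ := exists_MF hRQ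
  have hwW : ∀ j, W (w j) := fun j => hMF.mem j
  have hs : ∀ j, 0 < s j := by
    intro j
    have h1 := (hpos _ (hwW j) (s j) (hMF.self j)).1
    exact lt_of_le_of_ne h1 (Ne.symm (hMF.ne j))
  have hρ : ∀ i j, bp S (rho B x κ (w i)) (rho B x κ (w j)) =
      if i = j then (s j : ℂ) else 0 := by
    intro i j
    by_cases hij : i = j
    · subst hij
      rw [if_pos rfl, rho_bp hA h.model (hWA _ (hwW i)) (hWA _ (hwW i)) (hMF.self i)]
      simp
    · rw [if_neg hij, rho_bp hA h.model (hWA _ (hwW i)) (hWA _ (hwW j)) (q := 0)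
        (by rw [Rat.cast_zero]; exact hMF.orth i j hij), map_zero]
  -- every element is a combination of the family
  have hexp : ∀ b, W b → ∃ c : Fin d → ℂ, rho B x κ b = ∑ j, c j • rho B x κ (w j) ∧
      ∀ j, (starRingEnd ℂ) (c j) = c j := by
    intro b hb
    have hq : ∀ j, ∃ q : ℚ, bp S b (w j) = (q : K) := fun j =>
      hA.bp_rat (hWA _ hb) (hWA _ (hwW j))
    choose q hq using hq
    let b' := b - ∑ j, ((q j / s j : ℚ) : K) • w j
    have hsumA : ∀ t : Finset (Fin d), W (∑ j ∈ t, ((q j / s j : ℚ) : K) • w j) := by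
      intro t
      induction t using Finset.induction_on with
      | empty => rw [Finset.sum_empty]; exact hW.zero
      | insert a s ha ih => rw [Finset.sum_insert ha]; exact hW.add (hW.smul _ (hwW a)) ih
    have hb' : W b' := by
      have h1 := hW.smul (-1) (hsumA Finset.univ)
      have h2 := hW.add hb h1
      rw [Rat.cast_neg, Rat.cast_one, neg_one_smul, ← sub_eq_add_neg] at h2
      exact h2
    have horth : ∀ j, bp S b' (w j) = 0 := by
      intro j
      rw [sub_bp, sum_bp, hq, Finset.sum_eq_single j]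
      · rw [smul_bp, show bp S (w j) (w j) = (s j : K) from hMF.self j, ← Rat.cast_mul,
          div_mul_cancel₀ _ (hMF.ne j), sub_self]
      · intro i _ hij
        rw [smul_bp, show bp S (w i) (w j) = 0 from hMF.orth i j hij, mul_zero]
      · intro h'; exact absurd (Finset.mem_univ _) h'
    have hbb : bp S b' b' = 0 := hMF.max b' hb' horth
    have hnt := (hpos b' hb' 0 (by rw [hbb, Rat.cast_zero])).2 rfl
    refine ⟨fun j => ((q j / s j : ℚ) : ℂ), ?_, fun j => by simp⟩
    have h1 : b = b' + ∑ j, ((q j / s j : ℚ) : K) • w j := (sub_add_cancel _ _).symm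
    have h2 : ∀ t : Finset (Fin d), rho B x κ (∑ j ∈ t, ((q j / s j : ℚ) : K) • w j) =
        ∑ j ∈ t, ((q j / s j : ℚ) : ℂ) • rho B x κ (w j) := by
      intro t
      induction t using Finset.induction_on with
      | empty => rw [Finset.sum_empty, Finset.sum_empty]; exact rho_nt hA (NT.zero hA)
      | insert a s ha ih =>
        rw [Finset.sum_insert ha, Finset.sum_insert ha, rho_add hA
          (hWA _ (hW.smul _ (hwW a))) (hWA _ (hsumA s)), ih, rho_smul hA (hWA _ (hwW a))]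
        rfl
    conv_lhs => rw [h1, rho_add hA (hWA _ hb') (hWA _ (hsumA _)), rho_nt hA hnt, zero_add, h2]
  -- the matrix of k
  have hspan : ∀ f ∈ Submodule.span ℂ {f | ∃ b, W b ∧ f = rho B x κ b},
      ∃ c : Fin d → ℂ, f = ∑ j, c j • rho B x κ (w j) := by
    intro f hf
    refine Submodule.span_induction (p := fun f _ => ∃ c : Fin d → ℂ,
      f = ∑ j, c j • rho B x κ (w j)) ?_ ?_ ?_ ?_ hf
    · rintro _ ⟨b, hb, rfl⟩
      obtain ⟨c, hc, _⟩ := hexp b hb
      exact ⟨c, hc⟩
    · exact ⟨0, by simp⟩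
    · rintro _ _ _ _ ⟨c, rfl⟩ ⟨c', rfl⟩
      exact ⟨c + c', by rw [← Finset.sum_add_distrib]; simp only [Pi.add_apply, add_smul]⟩
    · rintro a _ _ ⟨c, rfl⟩
      exact ⟨a • c, by rw [Finset.smul_sum]; simp only [Pi.smul_apply, smul_eq_mul, mul_smul]⟩
  have hli : ∀ c : Fin d → ℂ, ∑ j, c j • rho B x κ (w j) = 0 → ∀ j, c j = 0 := by
    intro c hc j
    have h1 : bp S (∑ j, c j • rho B x κ (w j)) (rho B x κ (w j)) = 0 := by
      rw [hc]
      have := smul_bp S (0 : ℂ) (0 : (κ → R) → ℂ) (rho B x κ (w j))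
      rwa [zero_smul, zero_mul] at this
    rw [sum_bp, Finset.sum_eq_single j] at h1
    · rw [smul_bp, hρ, if_pos rfl] at h1
      have h2 : (s j : ℂ) ≠ 0 := by exact_mod_cast (hs j).ne'
      exact (mul_eq_zero.1 h1).resolve_right h2
    · intro i _ hij
      rw [smul_bp, hρ, if_neg hij, mul_zero]
    · intro h'; exact absurd (Finset.mem_univ _) h'
  have hkk : ∀ j, act k (act k (rho B x κ (w j))) = rho B x κ (w j) := by
    intro j
    rw [h.k_rho hA, h.k_Jt hA, h.k_rho hA, Jt_Jt (rho_even h.model)]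
  have hkinj : ∀ f g : (κ → R) → ℂ, act k f = act k g → f = g := by
    intro f g hfg
    have h1 := congrArg (act kᴴ) hfg
    rwa [← act_mul, ← act_mul, h.uni, act_one, act_one] at h1
  have hk : ∀ j, act k (rho B x κ (w j)) = rho B x κ (w j) := by
    intro j
    obtain ⟨c, hc⟩ := hspan _ (hst _ (hwW j))
    have hreal : ∀ i, (starRingEnd ℂ) (c i) = c i := by
      have h1 : Jt S (act k (rho B x κ (w j))) = act k (act k (rho B x κ (w j))) := by
        rw [← h.k_Jt hA, ← h.k_rho hA]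
      rw [hc, Jt_sum, act_sum] at h1
      have h2 : act k (∑ i, ((starRingEnd ℂ) (c i) - c i) • rho B x κ (w i)) = 0 := by
        have h1' : ∑ i, (starRingEnd ℂ) (c i) • act k (rho B x κ (w i)) =
            ∑ i, c i • act k (rho B x κ (w i)) := by
          calc _ = ∑ i, Jt S (c i • rho B x κ (w i)) :=
                Finset.sum_congr rfl fun i _ => by rw [Jt_smul, h.k_rho hA]
            _ = _ := h1
            _ = _ := Finset.sum_congr rfl fun i _ => by rw [act_smul]
        rw [act_sum]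
        simp only [sub_smul, act_sub, act_smul, Finset.sum_sub_distrib]
        rw [h1', sub_self]
      have h3 : ∑ i, ((starRingEnd ℂ) (c i) - c i) • rho B x κ (w i) = 0 :=
        hkinj _ _ (by rw [h2, act_zero])
      intro i
      exact sub_eq_zero.1 (hli _ h3 i)
    let r : Fin d → ℂ := fun i => (if i = j then 1 else 0) - c i
    have hf : rho B x κ (w j) - act k (rho B x κ (w j)) = ∑ i, r i • rho B x κ (w i) := by
      simp only [r, sub_smul, Finset.sum_sub_distrib, ite_smul, one_smul, zero_smul,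
        Finset.sum_ite_eq', Finset.mem_univ, if_true]
      rw [hc]
    have hr : ∀ i, (starRingEnd ℂ) (r i) = r i := by
      intro i
      simp only [r, map_sub, hreal]
      split_ifs <;> simp
    have hkf : act k (rho B x κ (w j) - act k (rho B x κ (w j))) =
        -(rho B x κ (w j) - act k (rho B x κ (w j))) := by
      rw [act_sub, hkk]; abel
    have hJf : Jt S (rho B x κ (w j) - act k (rho B x κ (w j))) =
        -(rho B x κ (w j) - act k (rho B x κ (w j))) := by
      rw [← hkf, hf, Jt_sum, act_sum]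
      exact Finset.sum_congr rfl fun i _ => by rw [Jt_smul, act_smul, hr, h.k_rho hA]
    have heven : Evn S (rho B x κ (w j) - act k (rho B x κ (w j))) := by
      rw [hf]
      exact Evn.sum S fun i _ => (rho_even h.model).smul S _
    have hn := nrm_eq_bp heven
    rw [hJf] at hn
    have hn2 : ∃ t : ℝ, 0 ≤ t ∧ bp S (rho B x κ (w j) - act k (rho B x κ (w j)))
        (rho B x κ (w j) - act k (rho B x κ (w j))) = (t : ℂ) := by
      refine ⟨∑ i, (r i).re * (r i).re * (s i : ℝ), Finset.sum_nonneg fun i _ =>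
        mul_nonneg (mul_self_nonneg _) (by exact_mod_cast (hs i).le), ?_⟩
      rw [hf, sum_bp, Complex.ofReal_sum]
      refine Finset.sum_congr rfl fun i _ => ?_
      rw [bp_sum, Finset.sum_eq_single i]
      · rw [smul_bp, bp_smul, hρ, if_pos rfl]
        have h1 : r i = ((r i).re : ℂ) := (Complex.conj_eq_iff_re.1 (hr i)).symm
        rw [h1]
        push_cast
        simp only [Complex.ofReal_re]
        ring
      · intro i' _ hi'
        rw [smul_bp, bp_smul, hρ, if_neg (Ne.symm hi'), mul_zero, mul_zero]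
      · intro h'; exact absurd (Finset.mem_univ _) h'
    obtain ⟨t, ht0, ht⟩ := hn2
    have h5 : bp S (rho B x κ (w j) - act k (rho B x κ (w j)))
        (-(rho B x κ (w j) - act k (rho B x κ (w j)))) = -(t : ℂ) := by
      rw [← ht, ← neg_one_smul ℂ (rho B x κ (w j) - act k (rho B x κ (w j))), bp_smul]
      ring
    rw [h5] at hn
    have h6 : nrm (rho B x κ (w j) - act k (rho B x κ (w j))) = -t := by exact_mod_cast hn
    have h7 : nrm (rho B x κ (w j) - act k (rho B x κ (w j))) = 0 := by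
      have := nrm_nonneg (rho B x κ (w j) - act k (rho B x κ (w j)))
      linarith
    exact (sub_eq_zero.1 (nrm_eq_zero h7)).symm
  intro a ha
  refine ⟨hWA a ha, ?_⟩
  obtain ⟨c, hc, _⟩ := hexp a ha
  rw [hc, act_sum]
  exact Finset.sum_congr rfl fun j _ => by rw [act_smul, hk]

/-- If the form is positive on the system in one degree, the system is contained in the positive
part in that degree. -/
theorem MM.full (hpos : ∀ a, A κ a → ∀ q : ℚ, bp S a a = (q : K) →
    0 ≤ q ∧ (q = 0 → NT S A κ a)) : ∀ a, A κ a → PP B x k κ a := by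
  refine h.stable hA (hA.sub κ) (fun _ ha => ha) (fun a _ => ?_) hpos
  have h1 : Sp B x κ ≤ Submodule.span ℂ {f | ∃ b, A κ b ∧ f = rho B x κ b} := by
    refine Submodule.span_mono ?_
    rintro _ ⟨i, rfl⟩
    exact ⟨_, tk_mem hA i, rfl⟩
  exact h1 (h.k_mem hA a)

/-- If the form is positive on the image of the contraction with an element of the positive part,
this image is contained in the positive part. -/
theorem MM.image {e : (κ ⊕ κ' → R) → K} (he : PP B x k (κ ⊕ κ') e)
    (hpos : ∀ a, A κ' a → ∀ q : ℚ, bp S (FD.ctr S e a) (FD.ctr S e a) = (q : K) →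
      0 ≤ q ∧ (q = 0 → NT S A κ (FD.ctr S e a))) :
    ∀ a, A κ' a → PP B x k κ (FD.ctr S e a) := by
  have h1 : ∀ c : K, ∀ a : (κ' → R) → K, FD.ctr S e (c • a) = c • FD.ctr S e a := by
    intro c a
    funext I
    simp only [FD.ctr, pdot, jl_smul, Pi.smul_apply, smul_eq_mul, Finset.mul_sum]
    exact Finset.sum_congr rfl fun _ _ => by ring
  have h2 : ∀ a b : (κ' → R) → K, FD.ctr S e (a + b) = FD.ctr S e a + FD.ctr S e b := by
    intro a b
    funext I
    simp only [FD.ctr, pdot, jl_add, Pi.add_apply, mul_add, Finset.sum_add_distrib]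
  have h3 : ∀ a, (∃ b, A κ' b ∧ a = FD.ctr S e b) → PP B x k κ a := by
    refine h.stable hA (W := fun a => ∃ b, A κ' b ∧ a = FD.ctr S e b) ⟨?_, ?_, ?_⟩ ?_ ?_ ?_
    · refine ⟨0, (hA.sub κ').zero, ?_⟩
      have := h1 0 0
      rw [zero_smul, zero_smul] at this
      exact this.symm
    · rintro _ _ ⟨a, ha, rfl⟩ ⟨b, hb, rfl⟩
      exact ⟨a + b, (hA.sub κ').add ha hb, (h2 a b).symm⟩
    · rintro q _ ⟨a, ha, rfl⟩
      exact ⟨(q : K) • a, (hA.sub κ').smul q ha, (h1 _ a).symm⟩
    · rintro _ ⟨a, ha, rfl⟩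
      exact hA.ctr he.1 ha
    · rintro _ ⟨a, ha, rfl⟩
      rw [rho_ctr hA h.model he.1 ha, act_ctr h.isH, he.2]
      refine Submodule.span_induction (p := fun u _ => FD.ctr S (rho B x (κ ⊕ κ') e) u ∈
        Submodule.span ℂ {f | ∃ b, (∃ b', A κ' b' ∧ b = FD.ctr S e b') ∧ f = rho B x κ b})
        ?_ ?_ ?_ ?_ (h.k_mem hA a)
      · rintro _ ⟨i, rfl⟩
        refine Submodule.subset_span ⟨_, ⟨_, tk_mem hA i, rfl⟩, ?_⟩
        rw [rho_ctr hA h.model he.1 (tk_mem hA i)]
      · have : FD.ctr S (rho B x (κ ⊕ κ') e) 0 = 0 := by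
          funext I
          simp [FD.ctr, pdot, jl_apply]
        rw [this]; exact Submodule.zero_mem _
      · intro u v _ _ hu hv
        have : FD.ctr S (rho B x (κ ⊕ κ') e) (u + v) = FD.ctr S (rho B x (κ ⊕ κ') e) u +
            FD.ctr S (rho B x (κ ⊕ κ') e) v := by
          funext I
          simp only [FD.ctr, pdot, jl_add, Pi.add_apply, mul_add, Finset.sum_add_distrib]
        rw [this]; exact Submodule.add_mem _ hu hv
      · intro c u _ hu
        have : FD.ctr S (rho B x (κ ⊕ κ') e) (c • u) = c • FD.ctr S (rho B x (κ ⊕ κ') e) u := by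
          funext I
          simp only [FD.ctr, pdot, jl_smul, Pi.smul_apply, smul_eq_mul, Finset.mul_sum]
          exact Finset.sum_congr rfl fun _ _ => by ring
        rw [this]; exact Submodule.smul_mem _ _ hu
    · rintro _ ⟨a, ha, rfl⟩ q hq
      exact hpos a ha q hq
  exact fun a ha => h3 _ ⟨a, ha, rfl⟩

end

/-- There is a minimal model. -/
theorem exists_MM (hA : Closed S A) :
    ∃ (B : Bas S A) (x : B.Vr → ℂ) (k : Matrix R R ℂ), MM B x k := by
  obtain ⟨B⟩ := hA.exists_bas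
  obtain ⟨x, k, h1, h2, h3, h4, h5⟩ := exists_min_model (B := B) hA Pool.Agent.Y419.FD.jobA
  exact ⟨B, x, k, h1, h2, h3, h4, h5⟩

end Pool.Agent.Y97.FD
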