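import Pool.Agent.Y97.FD.Geo2
import Pool.Agent.Y97.FD.Str
import Pool.Agent.Y96.FD.D
import Pool.Agent.Y97.FD.JobE
import Pool.Agent.Y496.FD.JobF

/-!
# The tensors of the algebraic classes in coordinates in which the form is standard
-/

set_option linter.unusedSectionVars false

open CategoryTheory AlgebraicGeometry Finset

universe u v

namespace Pool.Agent.Y97.FD

open Pool.Agent.H914 Pool.Agent.H914.VarClass Pool.Agent.H914.VarClass.Obj
  Pool.Agent.H914.WeilCohomology Pool.Agent.H281R3.HT Pool.Agent.W552 Pool.Agent.W539.Ker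

variable {k : Type u} [Field k] {𝒱 : VarClass k} {ops : CycleOps 𝒱}
  {W : WeilCohomology.{u, v} ops} {P : Polarized 𝒱} {Y Z : 𝒱.Obj}
  {f : Module.End W.K (W.H P.X)}

lemma Gm_zero (F : Fr W P.X P.D f) (b : HB W P.X) {i j : Fin b.N} (h : gpar b i ≠ gpar b j) :
    Gm b f i j = 0 := by
  refine F.bf_deg (b.mem i) (b.mem j) (fun h' => h ?_)
  rw [gpar, gpar, h']

lemma Gm_symm (G : Gd W P.X P.D f) (b : HB W P.X) (i j : Fin b.N) :
    Gm b f j i = (if gpar b i then -1 else 1) * Gm b f i j := by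
  have h1 : (if gpar b i then -1 else 1 : W.K) = (-1) ^ b.dg i := ps_eq b i
  rw [h1]
  exact G.symm (b.mem i) (b.mem j)

lemma Gm_det (G : Gd W P.X P.D f) (b : HB W P.X) : (Gm b f).det ≠ 0 := by
  rw [← isUnit_iff_ne_zero, ← Matrix.isUnit_iff_isUnit_det,
    ← Matrix.mulVec_injective_iff_isUnit]
  intro v w hvw
  have h2 : ∑ p, (v - w) p • b.e p = 0 := by
    apply G.nondeg
    intro y
    have h3 : ∀ r, bf W P.X P.D f (b.e r) (∑ p, (v - w) p • b.e p) = 0 := by
      intro r
      have h4 : (Matrix.mulVec (Gm b f) (v - w)) r = 0 := by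
        rw [Matrix.mulVec_sub]
        change Matrix.mulVec _ v = Matrix.mulVec _ w at hvw
        rw [hvw, sub_self]; rfl
      rw [map_sum, ← h4, Matrix.mulVec, dotProduct]
      apply Finset.sum_congr rfl
      intro p _
      rw [map_smul, smul_eq_mul, mul_comm]
      rfl
    rw [← b.e.sum_repr y, map_sum (bf W P.X P.D f), LinearMap.sum_apply]
    apply Finset.sum_eq_zero
    intro r _
    rw [map_smul, LinearMap.smul_apply, h3, smul_zero]
  have h5 := Fintype.linearIndependent_iff.1 b.e.linearIndependent _ h2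
  funext p
  exact sub_eq_zero.1 (h5 p)

/-- The form on the cohomology of a power. -/
noncomputable def bfs (W : WeilCohomology.{u, v} ops) (P : Polarized 𝒱)
    (f : Module.End W.K (W.H P.X)) (s : ℕ) :
    W.H (power ops P s).X →ₗ[W.K] W.H (power ops P s).X →ₗ[W.K] W.K :=
  bf W (power ops P s).X (power ops P s).D (frm W P f s)

lemma bfs_ext (G : Gp W P.X P.D f) (s : ℕ) (a a' : W.H P.X) (c c' : W.H (power ops P s).X) :
    bfs W P f (s + 1) (ext W (X := P.X) (Y := (power ops P s).X) a c)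
      (ext W (X := P.X) (Y := (power ops P s).X) a' c') =
      bf W P.X P.D f a a' * bfs W P f s c c' :=
  G.fr.bf_ext (gp_frm G s).fr a a' c c'

lemma bfs_vec (G : Gp W P.X P.D f) (b : HB W P.X) (s : ℕ) (x y : Fin (s + 1) → Fin b.N) :
    bfs W P f s (vec b s x) (vec b s y) = ∏ i, Gm b f (x i) (y i) := by
  induction s with
  | zero => rw [Fin.prod_univ_one]; rfl
  | succ s ih =>
    rw [Fin.prod_univ_succ, ← ih (fun i => x i.succ) (fun i => y i.succ)]
    exact bfs_ext G s (b.e (x 0)) (b.e (y 0)) (vec b s (fun i => x i.succ))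
      (vec b s (fun i => y i.succ))

lemma bfs_co (G : Gp W P.X P.D f) (b : HB W P.X) (s : ℕ) (c d : W.H (power ops P s).X) :
    bfs W P f s c d = dot (co b s c) (act (Gm b f) (co b s d)) := by
  conv_lhs => rw [← sum_co b s c, ← sum_co b s d]
  rw [map_sum (bfs W P f s), LinearMap.sum_apply, dot]
  refine Finset.sum_congr rfl fun x _ => ?_
  rw [map_smul, LinearMap.smul_apply, map_sum, act_apply, smul_eq_mul]
  congr 1
  refine Finset.sum_congr rfl fun y _ => ?_
  rw [map_smul, bfs_vec G, smul_eq_mul, mul_comm]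

/-- The data attached to a basis of the cohomology. -/
structure Dt (b : HB W P.X) (f : Module.End W.K (W.H P.X)) where
  /-- the standard form -/
  S : Std (Fin b.N)
  /-- the change of coordinates -/
  M : Matrix (Fin b.N) (Fin b.N) (AlgebraicClosure W.K)
  /-- its inverse -/
  M' : Matrix (Fin b.N) (Fin b.N) (AlgebraicClosure W.K)
  hpar : ∀ i, S.par i = gpar b i
  hmul : M * M' = 1
  hform : M.transpose * S.C _ * M = (Gm b f).map (algebraMap W.K (AlgebraicClosure W.K))
  heven : ∀ i j, gpar b i ≠ gpar b j → M i j = 0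
  hA : Closed S (AF (algebraMap W.K (AlgebraicClosure W.K)) M (A0 (ops := ops) b))
  /-- maximal orthogonal families -/
  B : Bas S (AF (algebraMap W.K (AlgebraicClosure W.K)) M (A0 (ops := ops) b))
  /-- a model -/
  x : B.Vr → ℂ
  /-- its unitary -/
  k : Matrix (Fin b.N) (Fin b.N) ℂ
  mm : MM B x k

/-- The existence of the data. -/
theorem exists_dt {b : HB W P.X} (G : Gp W P.X P.D f)
    (hN : ClosedN (gpar b) (Gm b f) (A0 (ops := ops) b)) : Nonempty (Dt b f) := by
  set φ := algebraMap W.K (AlgebraicClosure W.K) with hφ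
  obtain ⟨S, M, M', h1, h2, h3, h4⟩ := Pool.Agent.Y96.FD.jobD (AlgebraicClosure W.K) b.N
    (gpar b) ((Gm b f).map φ)
    (fun i j h => by rw [Matrix.map_apply, Gm_zero G.fr b h, map_zero])
    (fun i j => by
      rw [Matrix.map_apply, Matrix.map_apply, Gm_symm G.gd b i j, map_mul]
      congr 1
      split_ifs <;> simp)
    (by
      have h5 : ((Gm b f).map φ).det = φ (Gm b f).det := (RingHom.map_det φ _).symm
      rw [h5]
      exact (map_ne_zero φ).2 (Gm_det G.gd b))
  have hA : Closed S (AF φ M (A0 (ops := ops) b)) :=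
    Pool.Agent.Y97.FD.E.jobE S _
      (Pool.Agent.Y496.FD.jobF φ (gpar b) (Gm b f) _ hN S M M' h1 h2 h3 h4)
  obtain ⟨B, x, k, hm⟩ := exists_MM hA
  exact ⟨⟨S, M, M', h1, h2, h3, h4, hA, B, x, k, hm⟩⟩

namespace Dt

variable {b : HB W P.X} (D : Dt (ops := ops) b f)

/-- The extension of scalars. -/
noncomputable abbrev φ (W : WeilCohomology.{u, v} ops) : W.K →+* AlgebraicClosure W.K :=
  algebraMap W.K (AlgebraicClosure W.K)

/-- The system. -/
abbrev A : ∀ κ : Type, ((κ → Fin b.N) → AlgebraicClosure W.K) → Prop :=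
  AF (algebraMap W.K (AlgebraicClosure W.K)) D.M (A0 (ops := ops) b)

/-- The tensor of a class in the coordinates in which the form is standard. -/
noncomputable def cs (s : ℕ) (c : W.H (power ops P s).X) :
    (Fin (s + 1) → Fin b.N) → AlgebraicClosure W.K :=
  act D.M (mapT (φ W) (co b s c))

lemma hmul' : D.M' * D.M = 1 := mul_eq_one_comm.1 D.hmul

lemma cs_add (s : ℕ) (c d : W.H (power ops P s).X) : D.cs s (c + d) = D.cs s c + D.cs s d := by
  rw [cs, co_add, cs, cs, ← act_add]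
  congr 1
  funext x
  simp [mapT_apply]

lemma cs_smul (s : ℕ) (q : ℚ) (c : W.H (power ops P s).X) :
    D.cs s ((q : W.K) • c) = (q : AlgebraicClosure W.K) • D.cs s c := by
  rw [cs, co_smul, cs, ← act_smul]
  congr 1
  funext x
  simp [mapT_apply]

lemma bp_cs (G : Gp W P.X P.D f) (s : ℕ) (c d : W.H (power ops P s).X) :
    bp D.S (D.cs s c) (D.cs s d) = φ W (bfs W P f s c d) := by
  rw [bfs_co G b, map_dot, mapT_act, ← D.hform, act_mul, act_mul, bp, jl_eq_act, cs, cs,
    dot_act]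

lemma cs_mem {s : ℕ} {c : W.H (power ops P s).X} (hc : AS W _ c) :
    D.A (Fin (s + 1)) (D.cs s c) :=
  Or.inr ⟨s + 1, Equiv.refl _, co b s c, ⟨c, hc, rfl⟩, rfl⟩

/-- The tensors of the system in numbered slots are given by algebraic classes. -/
lemma exists_cs (hz : PZ (ops := ops) b) {s : ℕ}
    {a : (Fin (s + 1) → Fin b.N) → AlgebraicClosure W.K} (ha : D.A (Fin (s + 1)) a) :
    ∃ c : W.H (power ops P s).X, AS W _ c ∧ a = D.cs s c := by
  rcases ha with rfl | ⟨n, e, g, hg, h⟩
  · refine ⟨0, AS.zero, ?_⟩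
    rw [cs, co_zero]
    have : mapT (φ W) (0 : (Fin (s + 1) → Fin b.N) → W.K) = 0 := by
      funext x; simp [mapT_apply]
    rw [this, act_zero]
  · have hn : s + 1 = n := by simpa using Fintype.card_congr e
    subst hn
    have h1 := a0_perm hz e.symm hg
    obtain ⟨c, hc, hc'⟩ := h1
    refine ⟨c, hc, ?_⟩
    rw [cs, ← hc', mapT_rel, act_rel, ← h, rel_symm_rel]

/-- The positive classes. -/
def Pc (s : ℕ) (c : W.H (power ops P s).X) : Prop :=
  PP D.B D.x D.k (Fin (s + 1)) (D.cs s c)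

lemma nt_iff (hz : PZ (ops := ops) b) (G : Gp W P.X P.D f) {s : ℕ}
    {c : W.H (power ops P s).X} (hc : AS W _ c) :
    NT D.S D.A (Fin (s + 1)) (D.cs s c) ↔ ∀ d, AS W _ d → bfs W P f s c d = 0 := by
  constructor
  · intro h d hd
    have h1 := h.2 _ (D.cs_mem hd)
    rw [D.bp_cs G] at h1
    exact (map_eq_zero _).1 h1
  · intro h
    refine ⟨D.cs_mem hc, fun g hg => ?_⟩
    obtain ⟨d, hd, rfl⟩ := D.exists_cs hz hg
    rw [D.bp_cs G, h d hd, map_zero]

/-- **Positivity of the form on the positive classes.** -/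
theorem Pc.pos (hz : PZ (ops := ops) b) (G : Gp W P.X P.D f) {s : ℕ}
    {c : W.H (power ops P s).X} (hc : AS W _ c) (hp : D.Pc s c) {q : ℚ}
    (hq : bfs W P f s c c = (q : W.K)) :
    0 ≤ q ∧ (q = 0 → ∀ d, AS W _ d → bfs W P f s c d = 0) := by
  have h1 : bp D.S (D.cs s c) (D.cs s c) = (q : AlgebraicClosure W.K) := by
    rw [D.bp_cs G, hq]; simp
  have h2 := PP.pos D.hA D.mm hp h1
  exact ⟨h2.1, fun h => (D.nt_iff hz G hc).1 (h2.2 h)⟩

/-- Positivity in one degree. -/
def _root_.Pool.Agent.Y97.FD.PosAt (W : WeilCohomology.{u, v} ops) (P : Polarized 𝒱)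
    (f : Module.End W.K (W.H P.X)) (s : ℕ) : Prop :=
  ∀ c : W.H (power ops P s).X, AS W _ c → ∀ q : ℚ, bfs W P f s c c = (q : W.K) →
    0 ≤ q ∧ (q = 0 → ∀ d, AS W _ d → bfs W P f s c d = 0)

/-- If the form is positive on the algebraic classes of a power, they are positive classes. -/
theorem full (hz : PZ (ops := ops) b) (G : Gp W P.X P.D f) {s : ℕ} (h : PosAt W P f s)
    {a : (Fin (s + 1) → Fin b.N) → AlgebraicClosure W.K} (ha : D.A (Fin (s + 1)) a) :
    PP D.B D.x D.k (Fin (s + 1)) a := by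
  refine MM.full D.hA D.mm ?_ a ha
  intro a ha q hq
  obtain ⟨c, hc, rfl⟩ := D.exists_cs hz ha
  have h1 : bfs W P f s c c = (q : W.K) := by
    rw [D.bp_cs G] at hq
    apply (φ W).injective
    rw [hq]; simp
  obtain ⟨h2, h3⟩ := h c hc q h1
  exact ⟨h2, fun h0 => (D.nt_iff hz G hc).2 (h3 h0)⟩

theorem full' (hz : PZ (ops := ops) b) (G : Gp W P.X P.D f) {s : ℕ} (h : PosAt W P f s)
    {κ : Type} [Fintype κ] [DecidableEq κ] (hκ : Fintype.card κ = s + 1)
    {a : (κ → Fin b.N) → AlgebraicClosure W.K} (ha : D.A κ a) :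
    PP D.B D.x D.k κ a := by
  let e : κ ≃ Fin (s + 1) := (Fintype.equivFin κ).trans (finCongr hκ)
  have h1 := D.full hz G h (D.hA.rel e ha)
  have h2 := PP.rel D.hA D.mm e.symm h1
  rwa [rel_symm_rel] at h2

end Dt

end Pool.Agent.Y97.FD
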