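import Pool.Agent.Y97.FD.Geo3
import Pool.Agent.Y784.FD.Ker

/-!
# Operators which preserve the positive classes
-/

set_option linter.unusedSectionVars false

open CategoryTheory AlgebraicGeometry Finset

universe u v

namespace Pool.Agent.Y97.FD

open Pool.Agent.H914 Pool.Agent.H914.VarClass Pool.Agent.H914.VarClass.Obj
  Pool.Agent.H914.WeilCohomology Pool.Agent.H281R3.HT Pool.Agent.W552 Pool.Agent.W539.Ker
  Pool.Agent.Y784.FD

variable {k : Type u} [Field k] {𝒱 : VarClass k} {ops : CycleOps 𝒱}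
  {W : WeilCohomology.{u, v} ops} {P : Polarized 𝒱}
  {f : Module.End W.K (W.H P.X)}

section Rz

variable {κ κ' ν ν₀ : Type} [Fintype κ] [DecidableEq κ] [Fintype κ'] [DecidableEq κ'] [Fintype ν]
  [DecidableEq ν] [Fintype ν₀] [DecidableEq ν₀]

lemma apM_rel {R : Type} [Fintype R] [DecidableEq R] {F : Type*} [CommRing F]
    (u : (κ' → R) → (κ → R) → F) (e : ν ≃ ν₀) (g : (κ ⊕ ν → R) → F) :
    apM u (rel (Equiv.sumCongr (Equiv.refl κ) e) g) =
      rel (Equiv.sumCongr (Equiv.refl κ') e) (apM u g) := by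
  funext J
  rw [apM, rel_apply, apM]
  refine Finset.sum_congr rfl fun I _ => ?_
  rw [rel_apply]
  congr 2
  funext s
  rcases s with s | s <;> rfl

/-- The linear map acts on the first slots by the matrix `u`, and preserves the algebraic
classes. -/
structure Rz (b : HB W P.X) (u : (κ' → Fin b.N) → (κ → Fin b.N) → W.K) {s t : ℕ}
    (e : κ ⊕ ν ≃ Fin (s + 1)) (e' : κ' ⊕ ν ≃ Fin (t + 1))
    (T : W.H (power ops P s).X →ₗ[W.K] W.H (power ops P t).X) : Prop where
  as : ∀ c, AS W _ c → AS W _ (T c)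
  act : ∀ x, T (vec b s x) = ∑ J : κ' → Fin b.N, u J (fun a => x (e (Sum.inl a))) •
    vec b t (fun i => Sum.elim J (fun a => x (e (Sum.inr a))) (e'.symm i))

variable {b : HB W P.X} {u : (κ' → Fin b.N) → (κ → Fin b.N) → W.K} {s t s₀ t₀ : ℕ}
  {e : κ ⊕ ν ≃ Fin (s + 1)} {e' : κ' ⊕ ν ≃ Fin (t + 1)}
  {T : W.H (power ops P s).X →ₗ[W.K] W.H (power ops P t).X}
  {e₀ : κ ⊕ ν₀ ≃ Fin (s₀ + 1)} {e₀' : κ' ⊕ ν₀ ≃ Fin (t₀ + 1)}
  {T₀ : W.H (power ops P s₀).X →ₗ[W.K] W.H (power ops P t₀).X}

lemma Rz.co (h : Rz b u e e' T) (c : W.H (power ops P s).X) :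
    co b t (T c) = rel e' (apM u (rel e.symm (co b s c))) := by
  funext I
  rw [co_map, sum_rel e, sum_sumArrow, rel_apply, apM]
  refine Finset.sum_congr rfl fun L _ => ?_
  have h1 : ∀ L' : ν → Fin b.N, FD.co b t (T (vec b s (fun i => Sum.elim L L' (e.symm i)))) I =
      if L' = (fun a => I (e' (Sum.inr a))) then u (fun a => I (e' (Sum.inl a))) L else 0 := by
    intro L'
    rw [h.act, co_sum, Finset.sum_apply, Finset.sum_eq_single (fun a => I (e' (Sum.inl a)))]
    · rw [co_smul, Pi.smul_apply, co_vec, smul_eq_mul]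
      simp only [Equiv.symm_apply_apply, Sum.elim_inl, Sum.elim_inr]
      by_cases hL : L' = fun a => I (e' (Sum.inr a))
      · rw [if_pos hL, if_pos, mul_one]
        funext i
        obtain ⟨w, rfl⟩ := e'.surjective i
        rw [Equiv.symm_apply_apply]
        rcases w with w | w
        · rfl
        · rw [Sum.elim_inr, hL]
      · rw [if_neg hL, if_neg, mul_zero]
        intro h2
        apply hL
        funext a
        have h3 := congrFun h2 (e' (Sum.inr a))
        rw [Equiv.symm_apply_apply, Sum.elim_inr] at h3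
        exact h3
    · intro J _ hJ
      rw [co_smul, Pi.smul_apply, co_vec, if_neg, smul_zero]
      intro h2
      apply hJ
      funext a
      have h3 := congrFun h2 (e' (Sum.inl a))
      rw [Equiv.symm_apply_apply, Sum.elim_inl] at h3
      exact h3
    · intro h'; exact absurd (Finset.mem_univ _) h'
  rw [Finset.sum_eq_single (fun a => I (e' (Sum.inr a)))]
  · rw [h1, if_pos rfl, mul_comm]
    rfl
  · intro L' _ hL'
    rw [h1, if_neg hL', mul_zero]
  · intro h'; exact absurd (Finset.mem_univ _) h'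

/-- The matrix in the coordinates in which the form is standard. -/
noncomputable def Dt.U (D : Dt (ops := ops) b f) (u : (κ' → Fin b.N) → (κ → Fin b.N) → W.K) :
    (κ' → Fin b.N) → (κ → Fin b.N) → AlgebraicClosure W.K :=
  cjM D.M D.M' (fun J I => Dt.φ W (u J I))

lemma Rz.cs (h : Rz b u e e' T) (D : Dt (ops := ops) b f) (c : W.H (power ops P s).X) :
    D.cs t (T c) = rel e' (apM (D.U u) (rel e.symm (D.cs s c))) := by
  rw [Dt.cs, h.co, mapT_rel, mapT_apM, act_rel, act_apM D.hmul', mapT_rel, act_rel]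
  rfl

/-- **Operators on few slots preserve the positive classes.** -/
theorem Rz.pc (D : Dt (ops := ops) b f) (hz : PZ (ops := ops) b) (G : Gp W P.X P.D f)
    (h₀ : Rz b u e₀ e₀' T₀) (hν : Fintype.card κ = Fintype.card ν₀) (hpos : PosAt W P f t₀)
    (h : Rz b u e e' T) {c : W.H (power ops P s).X} (hc : D.Pc s c) : D.Pc t (T c) := by
  rw [Dt.Pc, h.cs]
  refine PP.rel D.hA D.mm e' (PP.op D.hA D.mm ?_ ?_ (PP.rel D.hA D.mm e.symm hc))
  · intro a ha
    refine D.full' hz G hpos ?_ ha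
    have h1 := Fintype.card_congr e₀'
    rw [Fintype.card_sum, Fintype.card_fin] at h1
    rw [Fintype.card_sum, hν, h1]
  · intro a ha
    let ε : κ ≃ ν₀ := Fintype.equivOfCardEq hν
    have h1 := D.hA.rel (Equiv.sumCongr (Equiv.refl κ) ε) ha
    obtain ⟨c, hc, hc'⟩ := D.exists_cs hz (D.hA.rel e₀ h1)
    have h2 := D.cs_mem (h₀.as c hc)
    rw [h₀.cs, ← hc', rel_symm_rel, apM_rel] at h2
    have h3 := D.hA.rel (Equiv.sumCongr (Equiv.refl κ') ε).symm (D.hA.rel e₀'.symm h2)
    rwa [rel_symm_rel, rel_symm_rel] at h3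

end Rz

namespace Dt

variable {b : HB W P.X} (D : Dt (ops := ops) b f)

lemma cs_inj {s : ℕ} {c d : W.H (power ops P s).X} (h : D.cs s c = D.cs s d) : c = d := by
  apply co_inj b s
  have h1 := congrArg (act D.M') h
  rw [cs, cs, ← act_mul, ← act_mul, D.hmul', act_one, act_one] at h1
  funext x
  exact (φ W).injective (congrFun h1 x)

lemma Pc.as (hz : PZ (ops := ops) b) {s : ℕ} {c : W.H (power ops P s).X} (h : D.Pc s c) :
    AS W _ c := by
  obtain ⟨d, hd, hd'⟩ := D.exists_cs hz h.1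
  rw [D.cs_inj hd']
  exact hd

lemma Pc.add {s : ℕ} {c d : W.H (power ops P s).X} (hc : D.Pc s c) (hd : D.Pc s d) :
    D.Pc s (c + d) := by
  rw [Pc, cs_add]
  exact PP.add D.hA hc hd

lemma Pc.smul {s : ℕ} {c : W.H (power ops P s).X} (hc : D.Pc s c) (q : ℚ) :
    D.Pc s ((q : W.K) • c) := by
  rw [Pc, cs_smul]
  exact PP.smul D.hA hc q

lemma Pc.nt (hz : PZ (ops := ops) b) (G : Gp W P.X P.D f) {s : ℕ}
    {c : W.H (power ops P s).X} (hc : AS W _ c)
    (h : ∀ d, AS W _ d → bfs W P f s c d = 0) : D.Pc s c :=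
  PP.nt D.hA ((D.nt_iff hz G hc).2 h)

lemma Pc.of_pos (hz : PZ (ops := ops) b) (G : Gp W P.X P.D f) {s : ℕ} (h : PosAt W P f s)
    {c : W.H (power ops P s).X} (hc : AS W _ c) : D.Pc s c :=
  D.full hz G h (D.cs_mem hc)

lemma Pc.jn {s t : ℕ} {c : W.H (power ops P s).X} {d : W.H (power ops P t).X}
    (hc : D.Pc s c) (hd : D.Pc t d) : D.Pc (t + 1 + s) (jn c d) := by
  have h1 : D.cs (t + 1 + s) (FD.jn c d) = rel (jeq s t) (tmul (D.cs s c) (D.cs t d)) := by
    rw [cs, co_jn, mapT_rel, mapT_tmul, act_rel, act_tmul]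
    rfl
  rw [Pc, h1]
  exact PP.rel D.hA D.mm _ (PP.tmul D.hA D.mm hc hd)

/-- The permutation of the factors, without signs. -/
noncomputable def uperm (b : HB W P.X) (s : ℕ) (σ : Equiv.Perm (Fin (s + 1))) :
    W.H (power ops P s).X →ₗ[W.K] W.H (power ops P s).X :=
  (bas b s).constr W.K (fun x => vec b s (x ∘ σ))

lemma uperm_vec (s : ℕ) (σ : Equiv.Perm (Fin (s + 1))) (x : Fin (s + 1) → Fin b.N) :
    uperm (ops := ops) b s σ (vec b s x) = vec b s (x ∘ σ) := by
  rw [← bas_apply, uperm, Module.Basis.constr_basis]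

lemma Pc.uperm {s : ℕ} {c : W.H (power ops P s).X} (hc : D.Pc s c)
    (σ : Equiv.Perm (Fin (s + 1))) : D.Pc s (uperm b s σ c) := by
  have h1 : co b s (Dt.uperm b s σ c) = rel (σ⁻¹ : Equiv.Perm (Fin (s + 1))) (co b s c) := by
    funext y
    rw [co_map, rel_apply, Finset.sum_eq_single (fun i => y (σ⁻¹ i))]
    · rw [uperm_vec, co_vec, if_pos, mul_one]
      funext i
      simp
    · intro x _ hx
      rw [uperm_vec, co_vec, if_neg, mul_zero]
      intro h
      apply hx
      funext i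
      rw [← h]
      simp
    · intro h; exact absurd (Finset.mem_univ _) h
  rw [Pc, cs, h1, mapT_rel, act_rel]
  exact PP.rel D.hA D.mm _ hc

end Dt

/-- The first slot. -/
def fs (n : ℕ) : Unit ⊕ Fin n ≃ Fin (n + 1) where
  toFun := Sum.elim (fun _ => 0) Fin.succ
  invFun := Fin.cases (Sum.inl ()) Sum.inr
  left_inv := by rintro (_ | i) <;> rfl
  right_inv := by
    intro i
    refine Fin.cases ?_ (fun j => ?_) i <;> rfl

lemma fs_inl (n : ℕ) : fs n (Sum.inl ()) = 0 := rfl

lemma fs_inr (n : ℕ) (i : Fin n) : fs n (Sum.inr i) = i.succ := rfl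

lemma fs_symm_zero (n : ℕ) : (fs n).symm 0 = Sum.inl () := rfl

lemma fs_symm_succ (n : ℕ) (i : Fin n) : (fs n).symm i.succ = Sum.inr i := rfl

/-- The first two slots. -/
def f2 (n : ℕ) : (Unit ⊕ Unit) ⊕ Fin n ≃ Fin (n + 2) :=
  ((Equiv.sumAssoc Unit Unit (Fin n)).trans
    (Equiv.sumCongr (Equiv.refl Unit) (fs n))).trans (fs (n + 1))

lemma f2_a (n : ℕ) : f2 n (Sum.inl (Sum.inl ())) = 0 := rfl

lemma f2_b (n : ℕ) : f2 n (Sum.inl (Sum.inr ())) = Fin.succ 0 := rfl

lemma f2_c (n : ℕ) (i : Fin n) : f2 n (Sum.inr i) = i.succ.succ := rfl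

/-- A vector with an arbitrary class in the first slot. -/
noncomputable def vecA (b : HB W P.X) : (n : ℕ) → W.H P.X →
    (Fin n → Fin b.N) → W.H (power ops P n).X
  | 0, a, _ => a
  | n + 1, a, y => ext W (X := P.X) (Y := (power ops P n).X) a (vec b n y)

lemma vec_eq_vecA (b : HB W P.X) (n : ℕ) (x : Fin (n + 1) → Fin b.N) :
    vec (ops := ops) b n x = vecA b n (b.e (x 0)) (fun i => x i.succ) := by
  rcases n with _ | n <;> rfl

lemma vecA_add (b : HB W P.X) (n : ℕ) (a a' : W.H P.X) (y : Fin n → Fin b.N) :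
    vecA (ops := ops) b n (a + a') y = vecA b n a y + vecA b n a' y := by
  rcases n with _ | n
  · rfl
  · exact ext_add_left a a' _

lemma vecA_smul (b : HB W P.X) (n : ℕ) (r : W.K) (a : W.H P.X) (y : Fin n → Fin b.N) :
    vecA (ops := ops) b n (r • a) y = r • vecA b n a y := by
  rcases n with _ | n
  · rfl
  · exact ext_smul_left r a _

lemma vecA_expand (b : HB W P.X) (n : ℕ) (a : W.H P.X) (y : Fin n → Fin b.N) :
    vecA (ops := ops) b n a y =
      ∑ J : Unit → Fin b.N, b.e.repr a (J ()) • vecA (ops := ops) b n (b.e (J ())) y := by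
  let T : W.H P.X →ₗ[W.K] W.H (power ops P n).X :=
    { toFun := fun a => vecA b n a y
      map_add' := fun a a' => vecA_add b n a a' y
      map_smul' := fun r a => vecA_smul b n r a y }
  change T a = ∑ J : Unit → Fin b.N, b.e.repr a (J ()) • T (b.e (J ()))
  have h1 : T a = ∑ p, b.e.repr a p • T (b.e p) := by
    conv_lhs => rw [← b.e.sum_repr a]
    rw [map_sum]
    exact Finset.sum_congr rfl fun p _ => by rw [map_smul]
  rw [h1]
  exact Fintype.sum_equiv (Equiv.funUnique Unit (Fin b.N)).symm _ _ (fun p => rfl)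

lemma mul_vecA (b : HB W P.X) (n : ℕ) (a a' : W.H P.X) (y : Fin n → Fin b.N) :
    W.map (pr ops P n 0) a * vecA (ops := ops) b n a' y = vecA (ops := ops) b n (a * a') y := by
  rcases n with _ | n
  · change W.map (𝟙 P.X) a * a' = a * a'
    rw [W.map_id]
  · change W.map (fst P.X (power ops P n).X) a * (W.map (fst P.X (power ops P n).X) a' *
      W.map (snd P.X (power ops P n).X) (vec b n y)) =
      W.map (fst P.X (power ops P n).X) (a * a') * W.map (snd P.X (power ops P n).X) (vec b n y)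
    rw [map_mul (W.map (fst P.X (power ops P n).X)), mul_assoc]

/-- The matrix of the product. -/
noncomputable def uMul (b : HB W P.X) : (Unit → Fin b.N) → ((Unit ⊕ Unit) → Fin b.N) → W.K :=
  fun J I => b.e.repr (b.e (I (Sum.inl ())) * b.e (I (Sum.inr ()))) (J ())

/-- The duplication of the first coordinate. -/
def dup0 (n : ℕ) : Fin (n + 2) → Fin (n + 1) := Fin.cons 0 id

lemma rz_dup (b : HB W P.X) (n : ℕ) : Rz b (uMul b) (f2 n) (fs n)
    (W.map (cmap ops P (dup0 n))).toLinearMap where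
  as c hc := hc.map _
  act x := by
    refine (map_cmap_vec b (dup0 n) x).trans ?_
    have h1 : vG b (n + 1) (fun i => pr ops P n (dup0 n i)) x =
        W.map (pr ops P n 0) (b.e (x 0)) * vG b n (pr ops P n) (fun i => x i.succ) := rfl
    rw [h1, ← vec_eq_vG, vec_eq_vecA, mul_vecA, vecA_expand]
    refine Finset.sum_congr rfl fun J _ => ?_
    have h2 : (fun i => Sum.elim J (fun a => x (f2 n (Sum.inr a))) ((fs n).symm i)) =
        (Fin.cons (J ()) (fun i : Fin n => x i.succ.succ) : Fin (n + 1) → Fin b.N) := by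
      funext i
      refine Fin.cases ?_ (fun j => ?_) i <;> rfl
    rw [h2, vec_eq_vecA, Fin.cons_zero]
    rfl

/-- The matrix of the trace. -/
noncomputable def uTr (b : HB W P.X) : (Empty → Fin b.N) → (Unit → Fin b.N) → W.K :=
  fun _ I => W.tr P.X (b.e (I ()))

lemma rz_push (b : HB W P.X) (n : ℕ) : Rz b (uTr b) (fs (n + 1))
    (Equiv.emptySum Empty (Fin (n + 1))) (W.push (snd P.X (power ops P n).X)) where
  as c hc := hc.push _
  act x := by
    have h1 : W.push (snd P.X (power ops P n).X) (vec b (n + 1) x) =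
        W.tr P.X (b.e (x 0)) • vec b n (fun i => x i.succ) := W.push_snd _ _
    refine h1.trans ?_
    rw [Fintype.sum_unique]
    rfl

/-- The matrix of the parity. -/
noncomputable def uPar (b : HB W P.X) : (Unit → Fin b.N) → (Unit → Fin b.N) → W.K :=
  fun J I => if J = I then ps b (I ()) else 0

lemma exists_rz_par {b : HB W P.X} (hz : PZ (ops := ops) b) (n : ℕ) :
    ∃ T : W.H (power ops P n).X →ₗ[W.K] W.H (power ops P n).X,
      Rz b (uPar b) (fs n) (fs n) T ∧ ∀ x, T (vec b n x) = ps b (x 0) • vec b n x := by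
  obtain ⟨T, hT, hT'⟩ := hz n 0
  refine ⟨T, ⟨fun c hc => hT.apply hc, fun x => ?_⟩, hT'⟩
  rw [hT', Finset.sum_eq_single (fun _ => x 0)]
  · have h1 : (fun i => Sum.elim (fun _ : Unit => x 0) (fun a => x (fs n (Sum.inr a)))
        ((fs n).symm i)) = x := by
      funext i
      refine Fin.cases ?_ (fun j => ?_) i <;> rfl
    have h2 : uPar b (fun _ => x 0) (fun a => x (fs n (Sum.inl a))) = ps b (x 0) := by
      rw [uPar]
      exact if_pos rfl
    rw [h1, h2]
    rfl
  · intro J _ hJ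
    rw [uPar, if_neg, zero_smul]
    exact hJ
  · intro h; exact absurd (Finset.mem_univ _) h

end Pool.Agent.Y97.FD
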