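import Pool.Agent.Y97.FD.Grp

/-!
# Minimal models
-/

set_option linter.unusedSectionVars false

open Finset Matrix Pool.Agent.W552 Pool.Agent.Y97

open scoped MatrixOrder ComplexOrder ENNReal

namespace Pool.Agent.Y97.FD

section Norm

variable {R : Type} [Fintype R] [DecidableEq R] {S : Std R} {κ κ' : Type} [Fintype κ]
  [DecidableEq κ] [Fintype κ'] [DecidableEq κ']

/-- The complex conjugate. -/
noncomputable def cj (f : (κ → R) → ℂ) : (κ → R) → ℂ := mapT (starRingEnd ℂ) f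

/-- The Hermitian norm (squared). -/
noncomputable def nrm (f : (κ → R) → ℂ) : ℝ := ∑ I, ‖f I‖ ^ 2

lemma nrm_nonneg (f : (κ → R) → ℂ) : 0 ≤ nrm f := Finset.sum_nonneg fun _ _ => by positivity

lemma nrm_eq_zero {f : (κ → R) → ℂ} (h : nrm f = 0) : f = 0 := by
  funext I
  have h1 := (Finset.sum_eq_zero_iff_of_nonneg (fun I _ => by positivity)).1 h I
    (Finset.mem_univ _)
  simpa using h1

lemma nrm_eq_dot (f : (κ → R) → ℂ) : (nrm f : ℂ) = dot f (cj f) := by
  rw [nrm, dot, Complex.ofReal_sum]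
  refine Finset.sum_congr rfl fun I _ => ?_
  rw [cj, mapT_apply, Complex.mul_conj, Complex.normSq_eq_norm_sq]

lemma cj_act (g : Matrix R R ℂ) (f : (κ → R) → ℂ) :
    cj (act g f) = act (g.map (starRingEnd ℂ)) (cj f) := by
  funext I
  rw [cj, mapT_apply, act_apply, act_apply, map_sum]
  refine Finset.sum_congr rfl fun J _ => ?_
  rw [map_mul, map_prod]
  rfl

lemma cj_sub (f g : (κ → R) → ℂ) : cj (f - g) = cj f - cj g := by
  funext I; simp [cj, mapT_apply]

lemma dot_cj_act (g : Matrix R R ℂ) (f h : (κ → R) → ℂ) :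
    dot (act g f) (cj h) = dot f (cj (act gᴴ h)) := by
  rw [dot_act, cj_act]
  congr 2
  ext i j
  simp [Matrix.conjTranspose_apply]

lemma nrm_kn {g r h : Matrix R R ℂ} (hr : rᴴ = r) (hh : hᴴ = h) (h1 : h * h = r)
    (h2 : r * r = gᴴ * g) (f : (κ → R) → ℂ) :
    nrm (act r f - f) + 2 * nrm (act h f) = nrm (act g f) + nrm f := by
  have key : ((nrm (act r f - f) + 2 * nrm (act h f) : ℝ) : ℂ) =
      ((nrm (act g f) + nrm f : ℝ) : ℂ) := by
    push_cast
    rw [nrm_eq_dot, nrm_eq_dot, nrm_eq_dot, nrm_eq_dot, cj_sub, dot_sub, dot_comm (act r f - f),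
      dot_comm (act r f - f), dot_sub, dot_sub, dot_comm _ (act r f), dot_comm _ (act r f),
      dot_comm _ f, dot_comm _ f]
    have e1 : dot (act r f) (cj (act r f)) = dot (act g f) (cj (act g f)) := by
      rw [dot_cj_act, hr, ← act_mul, h2, act_mul, ← dot_cj_act]
    have e2 : dot (act r f) (cj f) = dot (act h f) (cj (act h f)) := by
      rw [← h1, act_mul, dot_cj_act, hh]
    have e3 : dot f (cj (act r f)) = dot (act h f) (cj (act h f)) := by
      rw [← h1, act_mul, dot_cj_act h f, hh]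
    rw [e1, e2, e3]
    ring
  exact_mod_cast key

lemma nrm_act_unitary {k : Matrix R R ℂ} (hk : kᴴ * k = 1) (f : (κ → R) → ℂ) :
    nrm (act k f) = nrm f := by
  have key : (nrm (act k f) : ℂ) = nrm f := by
    rw [nrm_eq_dot, nrm_eq_dot, dot_cj_act, ← act_mul, hk, act_one]
  exact_mod_cast key

lemma nrm_jl_cj (f : (κ → R) → ℂ) : nrm (jl S (cj f)) = nrm f := by
  rw [nrm, nrm]
  let e : (κ → R) ≃ (κ → R) :=
    { toFun := fun I s => S.inv (I s)
      invFun := fun I s => S.inv (I s)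
      left_inv := fun I => by funext s; exact S.inv_inv _
      right_inv := fun I => by funext s; exact S.inv_inv _ }
  refine Fintype.sum_equiv e _ _ fun I => ?_
  rw [jl_apply, norm_mul, cj, mapT_apply, norm_prod]
  have h1 : ∀ s, ‖(S.sg (I s) : ℂ)‖ = 1 := by
    intro s
    have h := S.sg_sq (I s)
    rcases Int.mul_eq_one_iff_eq_one_or_neg_one.1 h with ⟨h, _⟩ | ⟨h, _⟩ <;> rw [h] <;> simp
  rw [Finset.prod_congr rfl fun s _ => h1 s, Finset.prod_const_one, one_mul, RCLike.norm_conj]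
  rfl

end Norm

section Models

variable {R : Type} [Fintype R] [DecidableEq R] {S : Std R} {K : Type*} [Field K] [CharZero K]
  {A : ∀ κ : Type, ((κ → R) → K) → Prop} {B : Bas S A}

/-- The indices of the members of the families. -/
abbrev Qr (B : Bas S A) : Type := Σ n : ℕ, Fin (B.d n)

/-- The weighted norm of a model. -/
noncomputable def NN (B : Bas S A) (w : Qr B → ℝ) (x : B.Vr → ℂ) : ℝ≥0∞ :=
  ∑' q : Qr B, ENNReal.ofReal (w q * nrm (B.xt x q.1 q.2))

lemma exists_weights (x : B.Vr → ℂ) : ∃ w : Qr B → ℝ, (∀ q, 0 < w q) ∧ NN B w x < ⊤ := by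
  obtain ⟨ε, h1, h2⟩ := ENNReal.exists_pos_sum_of_countable (ε := 1) one_ne_zero (Qr B)
  refine ⟨fun q => ε q / (1 + nrm (B.xt x q.1 q.2)), fun q => ?_, ?_⟩
  · have := nrm_nonneg (B.xt x q.1 q.2)
    have h3 : (0 : ℝ) < ε q := by exact_mod_cast h1 q
    positivity
  · refine lt_of_le_of_lt (ENNReal.tsum_le_tsum fun q => ?_) (h2.trans ENNReal.one_lt_top)
    rw [← ENNReal.ofReal_coe_nnreal]
    apply ENNReal.ofReal_le_ofReal
    have h3 := nrm_nonneg (B.xt x q.1 q.2)
    have h4 : (0 : ℝ) ≤ ε q := NNReal.coe_nonneg _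
    rw [div_mul_eq_mul_div, div_le_iff₀ (by positivity)]
    nlinarith

lemma continuous_xt (n : ℕ) (i : Fin (B.d n)) : Continuous fun x : B.Vr → ℂ => B.xt x n i :=
  continuous_pi fun I => continuous_apply _

lemma continuous_rn (n : ℕ) (a : (Fin n → R) → K) :
    Continuous fun x : B.Vr → ℂ => B.rn x n a := by
  refine continuous_pi fun I => ?_
  simp only [Bas.rn_apply]
  exact continuous_finsetSum _ fun i _ => continuous_const.mul (continuous_apply _)

lemma continuous_rel {κ κ' : Type} (e : κ ≃ κ') {f : (B.Vr → ℂ) → (κ → R) → ℂ}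
    (hf : Continuous f) : Continuous fun x => rel e (f x) :=
  continuous_pi fun I => (continuous_apply _).comp hf

lemma isClosed_model : IsClosed {x : B.Vr → ℂ | IsModel B x} := by
  refine isClosed_of_closure_subset fun x hx => ?_
  exact
  { perm := fun n σ i => closure_minimal (t := {x : B.Vr → ℂ | B.rn x n (rel σ (B.t n i)) =
        rel σ (B.xt x n i)}) (fun y hy => hy.perm n σ i)
        (isClosed_eq (continuous_rn _ _) (continuous_rel _ (continuous_xt _ _))) hx
    tmul := fun n m i j => closure_minimal (t := {x : B.Vr → ℂ |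
        B.rn x (n + m) (rel finSumFinEquiv (FD.tmul (B.t n i) (B.t m j))) =
          rel finSumFinEquiv (FD.tmul (B.xt x n i) (B.xt x m j))}) (fun y hy => hy.tmul n m i j)
        (isClosed_eq (continuous_rn _ _) (continuous_rel _ (continuous_pi fun I =>
          (continuous_apply (⟨n, i, fun s => I (Sum.inl s)⟩ : B.Vr)).mul
            (continuous_apply (⟨m, j, fun s => I (Sum.inr s)⟩ : B.Vr))))) hx
    pc := fun n m i => closure_minimal (t := {x : B.Vr → ℂ |
        B.rn x n (FD.pc S (rel (Bas.eF n m) (B.t _ i))) =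
          FD.pc S (rel (Bas.eF n m) (B.xt x _ i))}) (fun y hy => hy.pc n m i)
        (isClosed_eq (continuous_rn _ _) (continuous_pi fun I => by
          simp only [FD.pc_apply]
          exact continuous_finsetSum _ fun J _ => ((continuous_apply _).comp
            (continuous_rel _ (continuous_xt _ i))).mul continuous_const)) hx
    one := closure_minimal (t := {x : B.Vr → ℂ | B.rn x 0 (fun _ => 1) = fun _ => 1})
        (fun y hy => hy.one) (isClosed_eq (continuous_rn _ _) continuous_const) hx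
    cup := fun n c => closure_minimal (t := {x : B.Vr → ℂ |
        B.rn x (n + n) (rel finSumFinEquiv (cupK S K c)) = rel finSumFinEquiv (cupK S ℂ c)})
        (fun y hy => hy.cup n c) (isClosed_eq (continuous_rn _ _) continuous_const) hx
    even := fun n i I => closure_minimal (t := {x : B.Vr → ℂ |
        (∏ s, (S.tau (I s) : ℂ)) * B.xt x n i I = B.xt x n i I}) (fun y hy => hy.even n i I)
        (isClosed_eq (continuous_const.mul (continuous_apply _)) (continuous_apply _)) hx }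

lemma lsc_NN {w : Qr B → ℝ} : LowerSemicontinuous (NN B w) := by
  refine lowerSemicontinuous_tsum fun q => Continuous.lowerSemicontinuous ?_
  refine ENNReal.continuous_ofReal.comp (continuous_const.mul ?_)
  exact continuous_finsetSum _ fun I _ => (continuous_norm.comp (continuous_apply _)).pow 2

/-- There is a minimal model. -/
lemma exists_min {x : B.Vr → ℂ} (hx : IsModel B x) {w : Qr B → ℝ} (hw : ∀ q, 0 < w q)
    (hf : NN B w x < ⊤) :
    ∃ y : B.Vr → ℂ, IsModel B y ∧ NN B w y < ⊤ ∧ ∀ z, IsModel B z → NN B w y ≤ NN B w z := by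
  let M : Set (B.Vr → ℂ) := {z | IsModel B z} ∩ {z | NN B w z ≤ NN B w x}
  have hM : IsCompact M := by
    have h1 : IsCompact (Set.pi Set.univ fun v : B.Vr => Metric.closedBall (0 : ℂ)
        (Real.sqrt ((NN B w x).toReal / w ⟨v.1, v.2.1⟩))) :=
      isCompact_univ_pi fun v => isCompact_closedBall _ _
    refine h1.of_isClosed_subset (isClosed_model.inter (lsc_NN.isClosed_preimage _)) ?_
    rintro z ⟨_, hz⟩ ⟨n, i, I⟩ _
    rw [mem_closedBall_zero_iff]
    apply Real.le_sqrt_of_sq_le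
    rw [le_div_iff₀ (hw _)]
    have h2 : ENNReal.ofReal (w ⟨n, i⟩ * nrm (B.xt z n i)) ≤ NN B w x :=
      (ENNReal.le_tsum (f := fun q : Qr B => ENNReal.ofReal (w q * nrm (B.xt z q.1 q.2)))
        ⟨n, i⟩).trans hz
    have h3 : w ⟨n, i⟩ * nrm (B.xt z n i) ≤ (NN B w x).toReal := by
      rwa [ENNReal.ofReal_le_iff_le_toReal hf.ne] at h2
    have h4 : ‖z ⟨n, i, I⟩‖ ^ 2 ≤ nrm (B.xt z n i) :=
      Finset.single_le_sum (f := fun I => ‖B.xt z n i I‖ ^ 2) (fun _ _ => by positivity)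
        (Finset.mem_univ I)
    calc _ ≤ nrm (B.xt z n i) * w ⟨n, i⟩ := by
          exact mul_le_mul_of_nonneg_right h4 (hw _).le
      _ ≤ _ := by rw [mul_comm]; exact h3
  have hne : M.Nonempty := ⟨x, hx, le_refl (NN B w x)⟩
  obtain ⟨y, hy, hmin⟩ := LowerSemicontinuousOn.exists_isMinOn hne hM
    ((lsc_NN (B := B) (w := w)).lowerSemicontinuousOn M)
  refine ⟨y, hy.1, lt_of_le_of_lt hy.2 hf, fun z hz => ?_⟩
  by_cases h : NN B w z ≤ NN B w x
  · exact hmin ⟨hz, h⟩
  · exact hy.2.trans (not_le.1 h).le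

/-- The uniqueness of minimal models in an orbit. -/
lemma kn {w : Qr B → ℝ} (hw : ∀ q, 0 < w q) {x : B.Vr → ℂ} (hx : IsModel B x)
    (hf : NN B w x < ⊤) (hmin : ∀ z, IsModel B z → NN B w x ≤ NN B w z) {g : Matrix R R ℂ}
    (hg : IsH S g) (he : NN B w (actV g x) = NN B w x) :
    ∃ r : Matrix R R ℂ, IsH S r ∧ r.PosDef ∧ r * r = gᴴ * g ∧
      ∀ n i, act r (B.xt x n i) = B.xt x n i := by
  have hgu : IsUnit g := IsUnit.of_mul_eq_one _ hg.mul_inv
  have hgu' : IsUnit gᴴ := by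
    have := hgu.star
    exact this
  have hq : (gᴴ * g).PosDef :=
    (posSemidef_conjTranspose_mul_self g).posDef_iff_isUnit.2 (hgu'.mul hgu)
  obtain ⟨r, hr, hrp, hrr⟩ := (hg.conjTranspose.mul hg).sqrt hq
  obtain ⟨h, hh, hhp, hhh⟩ := hr.sqrt hrp
  refine ⟨r, hr, hrp, hrr, ?_⟩
  have h1 : ∀ q : Qr B, ENNReal.ofReal (w q * nrm (act r (B.xt x q.1 q.2) - B.xt x q.1 q.2)) +
      2 * ENNReal.ofReal (w q * nrm (B.xt (actV h x) q.1 q.2)) =
      ENNReal.ofReal (w q * nrm (B.xt (actV g x) q.1 q.2)) +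
        ENNReal.ofReal (w q * nrm (B.xt x q.1 q.2)) := by
    intro q
    have h2 := nrm_kn hrp.1 hhp.1 hhh hrr (B.xt x q.1 q.2)
    have h3 : (2 : ℝ≥0∞) = ENNReal.ofReal 2 := by simp
    have hwq := (hw q).le
    rw [xt_actV, xt_actV, h3, ← ENNReal.ofReal_mul (by norm_num),
      ← ENNReal.ofReal_add (mul_nonneg hwq (nrm_nonneg _))
        (mul_nonneg (by norm_num) (mul_nonneg hwq (nrm_nonneg _))),
      ← ENNReal.ofReal_add (mul_nonneg hwq (nrm_nonneg _)) (mul_nonneg hwq (nrm_nonneg _))]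
    congr 1
    linear_combination w q * h2
  have h2 : (∑' q : Qr B, ENNReal.ofReal (w q * nrm (act r (B.xt x q.1 q.2) -
      B.xt x q.1 q.2))) + 2 * NN B w (actV h x) = NN B w (actV g x) + NN B w x := by
    rw [NN, NN, NN, ← ENNReal.tsum_mul_left, ← ENNReal.tsum_add, ← ENNReal.tsum_add]
    exact tsum_congr h1
  have h3 : NN B w x ≤ NN B w (actV h x) := hmin _ (hh.isModel hx)
  have h4 : (∑' q : Qr B, ENNReal.ofReal (w q * nrm (act r (B.xt x q.1 q.2) -
      B.xt x q.1 q.2))) = 0 := by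
    rw [he] at h2
    have h5 : (∑' q : Qr B, ENNReal.ofReal (w q * nrm (act r (B.xt x q.1 q.2) -
      B.xt x q.1 q.2))) + 2 * NN B w x ≤ 0 + 2 * NN B w x := by
      calc _ ≤ (∑' q : Qr B, ENNReal.ofReal (w q * nrm (act r (B.xt x q.1 q.2) -
            B.xt x q.1 q.2))) + 2 * NN B w (actV h x) := by gcongr
        _ = NN B w x + NN B w x := h2
        _ = _ := by rw [two_mul, zero_add]
    have h6 : 2 * NN B w x ≠ ⊤ := ENNReal.mul_ne_top (by simp) hf.ne
    exact le_antisymm ((ENNReal.add_le_add_iff_right h6).1 h5) bot_le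
  intro n i
  have h5 := (ENNReal.tsum_eq_zero.1 h4) ⟨n, i⟩
  rw [ENNReal.ofReal_eq_zero] at h5
  have h6 : nrm (act r (B.xt x n i) - B.xt x n i) = 0 := by
    refine le_antisymm ?_ (nrm_nonneg _)
    by_contra h7
    push Not at h7
    exact absurd (mul_pos (hw ⟨n, i⟩) h7) (not_lt.2 h5)
  exact sub_eq_zero.1 (nrm_eq_zero h6)

/-- The conjugate operator. -/
noncomputable def Jt (S : Std R) {κ : Type} [Fintype κ] (f : (κ → R) → ℂ) : (κ → R) → ℂ :=
  jl S (cj f)

/-- The conjugate model. -/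
noncomputable def Jx (x : B.Vr → ℂ) : B.Vr → ℂ :=
  actV (S.C ℂ) (fun v => (starRingEnd ℂ) (x v))

lemma xt_Jx (x : B.Vr → ℂ) (n : ℕ) (i : Fin (B.d n)) :
    B.xt (Jx x) n i = Jt S (B.xt x n i) := by
  rw [Jx, xt_actV, Jt, jl_eq_act]
  rfl

lemma isModel_Jx {x : B.Vr → ℂ} (hx : IsModel B x) : IsModel B (Jx x) :=
  isH_C.isModel (hx.map ((starRingEnd ℂ).toRatAlgHom))

variable (hA : Closed S A)

include hA

lemma isH_of_models {x x' : B.Vr → ℂ} (hx : IsModel B x) (hx' : IsModel B x')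
    {g : Matrix R R ℂ} (h : ∀ n i, act g (B.xt x n i) = B.xt x' n i) : IsH S g := by
  refine isH_of_cup fun c => ?_
  have h1 := act_rho_of_xt hA h (cupK S K c : (Unit ⊕ Unit → R) → K)
  rwa [rho_cup hA hx, rho_cup hA hx'] at h1

/-- A complex model with a unitary relating it to its conjugate, and with self-adjoint
stabilizer. -/
theorem exists_min_model (jobA : JobA) :
    ∃ (x : B.Vr → ℂ) (k : Matrix R R ℂ), IsModel B x ∧ IsH S k ∧ kᴴ * k = 1 ∧
      (∀ n i, act k (B.xt x n i) = Jt S (B.xt x n i)) ∧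
      ∀ g : Matrix R R ℂ, (∀ n i, act g (B.xt x n i) = B.xt x n i) →
        ∀ n i, act gᴴ (B.xt x n i) = B.xt x n i := by
  obtain ⟨x₀, hx₀⟩ := exists_model (B := B) hA jobA
  obtain ⟨w, hw, hf₀⟩ := exists_weights x₀
  obtain ⟨x, hx, hf, hmin⟩ := exists_min hx₀ hw hf₀
  obtain ⟨g, hg⟩ := exists_g hA hx (isModel_Jx hx)
  have hgH : IsH S g := isH_of_models hA hx (isModel_Jx hx) hg
  have he : NN B w (actV g x) = NN B w x := by
    rw [NN, NN]
    refine tsum_congr fun q => ?_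
    rw [xt_actV, hg, xt_Jx, Jt, nrm_jl_cj]
  obtain ⟨r, hr, hrp, hrr, hrx⟩ := kn hw hx hf hmin hgH he
  have hru : IsUnit r := hrp.isUnit
  have hdet : IsUnit r.det := (Matrix.isUnit_iff_isUnit_det _).1 hru
  have hri : r⁻¹ * r = 1 := Matrix.nonsing_inv_mul _ hdet
  have hri' : r * r⁻¹ = 1 := Matrix.mul_nonsing_inv _ hdet
  have hrx' : ∀ n i, act r⁻¹ (B.xt x n i) = B.xt x n i := by
    intro n i
    conv_lhs => rw [← hrx n i, ← act_mul, hri, act_one]
  have hrH : (r⁻¹)ᴴ = r⁻¹ := hrp.1.inv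
  refine ⟨x, g * r⁻¹, hx, hgH.mul (hr.inv hri), ?_, ?_, ?_⟩
  · rw [Matrix.conjTranspose_mul, hrH]
    calc _ = r⁻¹ * (gᴴ * g) * r⁻¹ := by simp only [Matrix.mul_assoc]
      _ = (r⁻¹ * r) * (r * r⁻¹) := by rw [← hrr]; simp only [Matrix.mul_assoc]
      _ = 1 := by rw [hri, hri', Matrix.one_mul]
  · intro n i
    rw [act_mul, hrx', hg, xt_Jx]
  · intro g' hg'
    have hgH' : IsH S g' := isH_of_models hA hx hx hg'
    have he' : NN B w (actV g' x) = NN B w x := by
      rw [NN, NN]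
      exact tsum_congr fun q => by rw [xt_actV, hg']
    obtain ⟨r', _, _, hrr', hrx''⟩ := kn hw hx hf hmin hgH' he'
    intro n i
    have h1 : act (g'ᴴ * g') (B.xt x n i) = B.xt x n i := by
      rw [← hrr', act_mul, hrx'', hrx'']
    rwa [act_mul, hg'] at h1

end Models

end Pool.Agent.Y97.FD
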