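import Pool.Agent.Y97.FD.Proj

/-!
# Models of a closed system of tensors
-/

set_option linter.unusedSectionVars false

open Finset Pool.Agent.W552 Pool.Agent.Y97

namespace Pool.Agent.Y97.FD

variable {R : Type} {K : Type*} [Field K] [CharZero K] {κ κ' κ'' : Type} {S : Std R}
  [Fintype R] [DecidableEq R] {A : ∀ κ : Type, ((κ → R) → K) → Prop}

namespace Bas

/-- The coordinates of the members of the families. -/
abbrev Vr (B : Bas S A) : Type := Σ n : ℕ, Fin (B.d n) × (Fin n → R)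

variable (B : Bas S A)

variable {F : Type*} [CommRing F] [Algebra ℚ F]

/-- The tensors of a family of coordinates. -/
def xt (x : B.Vr → F) (n : ℕ) (i : Fin (B.d n)) : (Fin n → R) → F := fun I => x ⟨n, i, I⟩

/-- The tensor attached to a member of the system. -/
noncomputable def rn (x : B.Vr → F) (n : ℕ) (a : (Fin n → R) → K) : (Fin n → R) → F :=
  ∑ i, algebraMap ℚ F (B.cf n a i) • B.xt x n i

lemma rn_apply (x : B.Vr → F) (n : ℕ) (a : (Fin n → R) → K) (I : Fin n → R) :
    B.rn x n a I = ∑ i, algebraMap ℚ F (B.cf n a i) * x ⟨n, i, I⟩ := by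
  rw [rn, Finset.sum_apply]
  rfl

/-- The equivalence used for contractions. -/
def eF (n m : ℕ) : Fin (n + (m + m)) ≃ Fin n ⊕ (Fin m ⊕ Fin m) :=
  finSumFinEquiv.symm.trans (Equiv.sumCongr (Equiv.refl _) finSumFinEquiv.symm)

end Bas

/-- The equations for a model. -/
structure IsModel (B : Bas S A) {F : Type*} [CommRing F] [Algebra ℚ F] (x : B.Vr → F) : Prop where
  perm : ∀ n (σ : Fin n ≃ Fin n) i, B.rn x n (rel σ (B.t n i)) = rel σ (B.xt x n i)
  tmul : ∀ n m i j, B.rn x (n + m) (rel finSumFinEquiv (tmul (B.t n i) (B.t m j))) =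
    rel finSumFinEquiv (tmul (B.xt x n i) (B.xt x m j))
  pc : ∀ n m i, B.rn x n (pc S (rel (Bas.eF n m) (B.t _ i))) = pc S (rel (Bas.eF n m) (B.xt x _ i))
  one : B.rn x 0 (fun _ => 1) = fun _ => 1
  cup : ∀ n (c : Fin n → Bool), B.rn x (n + n) (rel finSumFinEquiv (cupK S K c)) =
    rel finSumFinEquiv (cupK S F c)
  even : ∀ n i, Evn S (B.xt x n i)

namespace Bas

variable {B : Bas S A} (hA : Closed S A) {F : Type*} [CommRing F] [Algebra ℚ F] {x : B.Vr → F}

include hA

lemma rn_add {n : ℕ} {a b : (Fin n → R) → K} (ha : A _ a) (hb : A _ b) :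
    B.rn x n (a + b) = B.rn x n a + B.rn x n b := by
  rw [rn, rn, rn, ← Finset.sum_add_distrib]
  exact Finset.sum_congr rfl fun i _ => by rw [B.cf_add hA ha hb, map_add, add_smul]

lemma rn_smul {n : ℕ} {a : (Fin n → R) → K} (ha : A _ a) (q : ℚ) :
    B.rn x n ((q : K) • a) = algebraMap ℚ F q • B.rn x n a := by
  rw [rn, rn, Finset.smul_sum]
  exact Finset.sum_congr rfl fun i _ => by rw [B.cf_smul hA ha, map_mul, mul_smul]

lemma rn_nt {n : ℕ} {a : (Fin n → R) → K} (ha : NT S A _ a) : B.rn x n a = 0 := by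
  rw [rn]
  exact Finset.sum_eq_zero fun i _ => by rw [B.cf_nt hA ha, map_zero, zero_smul]

lemma rn_self {n : ℕ} (i : Fin (B.d n)) : B.rn x n (B.t n i) = B.xt x n i := by
  rw [rn, Finset.sum_eq_single i]
  · rw [B.cf_self hA, if_pos rfl, map_one, one_smul]
  · intro j _ hj
    rw [B.cf_self hA, if_neg (Ne.symm hj), map_zero, zero_smul]
  · intro h; exact absurd (Finset.mem_univ _) h

lemma rn_sum {n : ℕ} {ι : Type*} {s : Finset ι} {f : ι → (Fin n → R) → K}
    (hf : ∀ i ∈ s, A _ (f i)) : B.rn x n (∑ i ∈ s, f i) = ∑ i ∈ s, B.rn x n (f i) := by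
  classical
  induction s using Finset.induction_on with
  | empty => rw [Finset.sum_empty, Finset.sum_empty]; exact rn_nt hA (NT.zero hA)
  | insert a s ha ih =>
    rw [Finset.sum_insert ha, Finset.sum_insert ha, rn_add hA (hf a (Finset.mem_insert_self _ _))
      (hA.sum_mem fun i hi => hf i (Finset.mem_insert_of_mem hi)),
      ih fun i hi => hf i (Finset.mem_insert_of_mem hi)]

/-- Linear operations can be computed on the members of the family. -/
lemma rn_lin {n m : ℕ} (Φ : ((Fin n → R) → K) →ₗ[K] ((Fin m → R) → K))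
    (h1 : ∀ a, A _ a → A _ (Φ a)) (h2 : ∀ a, NT S A _ a → NT S A _ (Φ a))
    {a : (Fin n → R) → K} (ha : A _ a) :
    B.rn x m (Φ a) = ∑ i, algebraMap ℚ F (B.cf n a i) • B.rn x m (Φ (B.t n i)) := by
  have h3 := B.nt_sub hA ha
  have h4 : a = ∑ i, (B.cf n a i : K) • B.t n i + (a - ∑ i, (B.cf n a i : K) • B.t n i) := by
    rw [add_sub_cancel]
  have h5 : Φ a = ∑ i, (B.cf n a i : K) • Φ (B.t n i) +
      Φ (a - ∑ i, (B.cf n a i : K) • B.t n i) := by
    conv_lhs => rw [h4]
    rw [map_add, map_sum]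
    simp only [map_smul]
  rw [h5, rn_add hA (hA.sum_mem fun i _ => (hA.sub _).smul _ (h1 _ ((B.mf n).mem i)))
    (h1 _ h3.1), rn_nt hA (h2 _ h3), add_zero,
    rn_sum hA fun i _ => (hA.sub _).smul _ (h1 _ ((B.mf n).mem i))]
  exact Finset.sum_congr rfl fun i _ => rn_smul hA (h1 _ ((B.mf n).mem i)) _

end Bas

/-- Relabelling as a linear map. -/
def relL (F : Type*) [CommRing F] (e : κ ≃ κ') : ((κ → R) → F) →ₗ[F] ((κ' → R) → F) where
  toFun := rel e
  map_add' := rel_add e
  map_smul' := rel_smul e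

/-- The product as a linear map. -/
def tmulL {F : Type*} [CommRing F] (f : (κ → R) → F) :
    ((κ' → R) → F) →ₗ[F] ((κ ⊕ κ' → R) → F) where
  toFun := tmul f
  map_add' := tmul_add f
  map_smul' c g := tmul_smul c f g

lemma pc_add {F : Type*} [CommRing F] [Fintype κ'] [DecidableEq κ']
    (f g : (κ ⊕ (κ' ⊕ κ') → R) → F) : pc S (f + g) = pc S f + pc S g := by
  funext I; simp only [pc, pdot, Pi.add_apply, add_mul, Finset.sum_add_distrib]

lemma pc_sub {F : Type*} [CommRing F] [Fintype κ'] [DecidableEq κ']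
    (f g : (κ ⊕ (κ' ⊕ κ') → R) → F) : pc S (f - g) = pc S f - pc S g := by
  funext I; simp only [pc, pdot, Pi.sub_apply, sub_mul, Finset.sum_sub_distrib]

lemma pc_smul {F : Type*} [CommRing F] [Fintype κ'] [DecidableEq κ'] (c : F)
    (f : (κ ⊕ (κ' ⊕ κ') → R) → F) : pc S (c • f) = c • pc S f := by
  funext I; simp only [pc, pdot, Pi.smul_apply, smul_eq_mul, Finset.mul_sum, mul_assoc]

/-- The contraction as a linear map. -/
def pcL (S : Std R) (F : Type*) [CommRing F] [Fintype κ'] [DecidableEq κ'] :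
    ((κ ⊕ (κ' ⊕ κ') → R) → F) →ₗ[F] ((κ → R) → F) where
  toFun := pc S
  map_add' := pc_add
  map_smul' c g := pc_smul c g

section

variable {B : Bas S A} (hA : Closed S A) {F : Type*} [CommRing F] [Algebra ℚ F] {x : B.Vr → F}
  (hx : IsModel B x)

include hA hx

lemma IsModel.perm' {n : ℕ} (σ : Fin n ≃ Fin n) {a : (Fin n → R) → K} (ha : A _ a) :
    B.rn x n (rel σ a) = rel σ (B.rn x n a) := by
  have h1 := Bas.rn_lin (B := B) (x := x) hA (relL K σ) (fun a ha => hA.rel σ ha)
    (fun a ha => ha.rel hA σ) ha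
  change B.rn x n (rel σ a) = _ at h1
  rw [h1, Bas.rn, rel_sum]
  exact Finset.sum_congr rfl fun i _ => by rw [rel_smul, ← hx.perm]; rfl

lemma IsModel.tmul' {n m : ℕ} {a : (Fin n → R) → K} (ha : A _ a) {b : (Fin m → R) → K}
    (hb : A _ b) : B.rn x (n + m) (rel finSumFinEquiv (FD.tmul a b)) =
      rel finSumFinEquiv (FD.tmul (B.rn x n a) (B.rn x m b)) := by
  have h1 : ∀ i, B.rn x (n + m) (rel finSumFinEquiv (FD.tmul (B.t n i) b)) =
      rel finSumFinEquiv (FD.tmul (B.xt x n i) (B.rn x m b)) := by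
    intro i
    have h1 := Bas.rn_lin (B := B) (x := x) hA ((relL K finSumFinEquiv).comp (tmulL (B.t n i)))
      (fun a ha => hA.rel _ (hA.tmul ((B.mf n).mem i) ha))
      (fun a ha => (ha.tmul' hA ((B.mf n).mem i)).rel hA _) hb
    change B.rn x _ (rel finSumFinEquiv (FD.tmul (B.t n i) b)) = _ at h1
    rw [h1, Bas.rn, tmul_sum, rel_sum]
    exact Finset.sum_congr rfl fun j _ => by rw [tmul_smul, rel_smul, ← hx.tmul]; rfl
  have h2 : ∀ (a : (Fin n → R) → K), (FD.tmul a b) =
      rel (Equiv.sumComm _ _) (FD.tmul b a) := fun a => tmul_comm b a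
  have h3 := Bas.rn_lin (B := B) (x := x) hA ((relL K finSumFinEquiv).comp
    ((relL K (Equiv.sumComm _ _)).comp (tmulL b)))
      (fun a ha => hA.rel _ (hA.rel _ (hA.tmul hb ha)))
      (fun a ha => ((ha.tmul' hA hb).rel hA _).rel hA _) ha
  change B.rn x _ (rel finSumFinEquiv (rel (Equiv.sumComm _ _) (FD.tmul b a))) = _ at h3
  rw [h2, h3]
  conv_rhs => rw [Bas.rn, sum_tmul, rel_sum]
  refine Finset.sum_congr rfl fun i _ => ?_
  rw [smul_tmul, rel_smul, ← h1, h2]; rfl

lemma IsModel.pc' {n m : ℕ} {a : (Fin (n + (m + m)) → R) → K} (ha : A _ a) :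
    B.rn x n (FD.pc S (rel (Bas.eF n m) a)) = FD.pc S (rel (Bas.eF n m) (B.rn x _ a)) := by
  have h1 := Bas.rn_lin (B := B) (x := x) hA ((pcL S K).comp (relL K (Bas.eF n m)))
    (fun a ha => hA.pc (hA.rel _ ha))
    (fun a ha => (ha.rel hA _).pc hA) ha
  change B.rn x n (FD.pc S (rel (Bas.eF n m) a)) = _ at h1
  rw [h1, Bas.rn, rel_sum]
  have h2 : FD.pc S (∑ i, rel (Bas.eF n m) (algebraMap ℚ F (B.cf _ a i) • B.xt x _ i)) =
      ∑ i, FD.pc S (rel (Bas.eF n m) (algebraMap ℚ F (B.cf _ a i) • B.xt x _ i)) :=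
    map_sum (pcL S F) _ _
  rw [h2]
  exact Finset.sum_congr rfl fun i _ => by rw [rel_smul, pc_smul, ← hx.pc]; rfl

omit hA in
lemma IsModel.even' {n : ℕ} (a : (Fin n → R) → K) : Evn S (B.rn x n a) := by
  rw [Bas.rn]
  exact Evn.sum S fun i _ => (hx.even n i).smul S _

end

/-- The tensor of a model attached to a member of the system. -/
noncomputable def rho (B : Bas S A) {F : Type*} [CommRing F] [Algebra ℚ F] (x : B.Vr → F)
    (κ : Type) [Fintype κ] (a : (κ → R) → K) : (κ → R) → F :=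
  rel (Fintype.equivFin κ).symm (B.rn x (Fintype.card κ) (rel (Fintype.equivFin κ) a))

section

variable {B : Bas S A} (hA : Closed S A) {F : Type*} [CommRing F] [Algebra ℚ F] {x : B.Vr → F}
  [Fintype κ] [Fintype κ']

section

include hA

lemma rho_add {a b : (κ → R) → K} (ha : A κ a) (hb : A κ b) :
    rho B x κ (a + b) = rho B x κ a + rho B x κ b := by
  rw [rho, rel_add, Bas.rn_add hA (hA.rel _ ha) (hA.rel _ hb), rel_add]; rfl

lemma rho_smul {a : (κ → R) → K} (ha : A κ a) (q : ℚ) :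
    rho B x κ ((q : K) • a) = algebraMap ℚ F q • rho B x κ a := by
  rw [rho, rel_smul, Bas.rn_smul hA (hA.rel _ ha), rel_smul]; rfl

lemma rho_nt [DecidableEq κ] {a : (κ → R) → K} (ha : NT S A κ a) : rho B x κ a = 0 := by
  rw [rho, Bas.rn_nt hA (ha.rel hA _), rel_zero]

end

variable (hx : IsModel B x)

include hA hx

lemma rho_eq {n : ℕ} (e : κ ≃ Fin n) {a : (κ → R) → K} (ha : A κ a) :
    rho B x κ a = rel e.symm (B.rn x n (rel e a)) := by
  have hn : Fintype.card κ = n := by simpa using Fintype.card_congr e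
  subst hn
  have h1 := hx.perm' hA ((Fintype.equivFin κ).symm.trans e) (hA.rel (Fintype.equivFin κ) ha)
  rw [rel_rel] at h1
  have h2 : (Fintype.equivFin κ).trans ((Fintype.equivFin κ).symm.trans e) = e := by
    ext s; simp
  rw [h2] at h1
  rw [h1, rel_rel, rho]
  congr 1
  ext s; simp

lemma rho_rel (e : κ ≃ κ') {a : (κ → R) → K} (ha : A κ a) :
    rho B x κ' (rel e a) = rel e (rho B x κ a) := by
  rw [rho, rel_rel, rho_eq hA hx (e.trans (Fintype.equivFin κ')) ha, rel_rel]
  congr 1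
  ext s; simp

lemma rho_tmul {a : (κ → R) → K} (ha : A κ a) {b : (κ' → R) → K} (hb : A κ' b) :
    rho B x (κ ⊕ κ') (tmul a b) = tmul (rho B x κ a) (rho B x κ' b) := by
  let e := Fintype.equivFin κ
  let e' := Fintype.equivFin κ'
  rw [rho_eq hA hx ((Equiv.sumCongr e e').trans finSumFinEquiv) (hA.tmul ha hb), ← rel_rel,
    ← tmul_rel, hx.tmul' hA (hA.rel _ ha) (hA.rel _ hb), rel_rel, rho_eq hA hx e ha,
    rho_eq hA hx e' hb, tmul_rel]
  congr 1
  ext s; simp

lemma rho_pc [DecidableEq κ] [DecidableEq κ'] {a : (κ ⊕ (κ' ⊕ κ') → R) → K} (ha : A _ a) :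
    rho B x κ (pc S a) = pc S (rho B x _ a) := by
  let e := Fintype.equivFin κ
  let e' := Fintype.equivFin κ'
  have hpc : ∀ {E : Type _} [CommRing E] (b : (κ ⊕ (κ' ⊕ κ') → R) → E),
      rel e (pc S b) = pc S (rel (Equiv.sumCongr e (Equiv.sumCongr e' e')) b) := by
    intro E _ b
    funext I
    rw [rel_apply, pc_apply, pc_apply]
    refine Fintype.sum_equiv (Equiv.arrowCongr e' (Equiv.refl R)) _ _ fun J => ?_
    rw [rel_apply]
    congr 1
    · congr 1
      funext s
      rcases s with s | s | s <;> simp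
    · exact Fintype.prod_equiv e' _ _ fun s => by simp
  have hpc' : ∀ {E : Type _} [CommRing E] (b : (κ ⊕ (κ' ⊕ κ') → R) → E),
      rel e (pc S b) = pc S (rel (Equiv.sumCongr e (Equiv.sumCongr e' e')) b) := by
    intro E _ b
    funext I
    rw [rel_apply, pc_apply, pc_apply]
    refine Fintype.sum_equiv (Equiv.arrowCongr e' (Equiv.refl R)) _ _ fun J => ?_
    rw [rel_apply]
    congr 1
    · congr 1
      funext s
      rcases s with s | s | s <;> simp
    · exact Fintype.prod_equiv e' _ _ fun s => by simp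
  let ee : κ ⊕ (κ' ⊕ κ') ≃ Fin (Fintype.card κ + (Fintype.card κ' + Fintype.card κ')) :=
    (Equiv.sumCongr e (Equiv.sumCongr e' e')).trans (Bas.eF _ _).symm
  have h1 : rel (Bas.eF _ _) (rel ee a) = rel (Equiv.sumCongr e (Equiv.sumCongr e' e')) a := by
    rw [rel_rel]
    congr 1
    ext s; simp [ee]
  rw [rho_eq hA hx e (hA.pc ha), rho_eq hA hx ee ha, hpc, ← h1, hx.pc' hA (hA.rel _ ha)]
  rw [show pc S (rel ee.symm (B.rn x _ (rel ee a))) = rel e.symm (rel e (pc S
    (rel ee.symm (B.rn x _ (rel ee a))))) by rw [rel_symm_rel], hpc']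
  congr 2
  rw [rel_rel]
  congr 1
  ext s
  simp only [ee, Equiv.trans_apply, Equiv.symm_trans_apply, Equiv.symm_symm]
  rcases (Bas.eF (Fintype.card κ) (Fintype.card κ') s) with t | t | t <;> simp

lemma rho_one : rho B x Empty (fun _ => (1 : K)) = fun _ => 1 := by
  rw [rho_eq hA hx (Equiv.equivOfIsEmpty Empty (Fin 0)) hA.one]
  change rel _ (B.rn x 0 (fun _ => 1)) = _
  rw [hx.one]; rfl

lemma rho_cup [DecidableEq κ] (c : κ → Bool) :
    rho B x (κ ⊕ κ) (cupK S K c) = cupK S F c := by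
  let e := Fintype.equivFin κ
  have hc : ∀ {E : Type _} [CommRing E], rel (Equiv.sumCongr e e) (cupK S E c) =
      cupK S E (fun s => c (e.symm s)) := by
    intro E _
    funext J
    rw [rel_apply, cupK, cupK]
    exact Fintype.prod_equiv e _ _ fun s => by simp
  have hc' : ∀ {E : Type _} [CommRing E], rel (Equiv.sumCongr e e) (cupK S E c) =
      cupK S E (fun s => c (e.symm s)) := by
    intro E _
    funext J
    rw [rel_apply, cupK, cupK]
    exact Fintype.prod_equiv e _ _ fun s => by simp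
  rw [rho_eq hA hx ((Equiv.sumCongr e e).trans finSumFinEquiv) (hA.cup c), ← rel_rel, hc, hx.cup,
    ← hc', rel_rel, rel_rel]
  have h1 : ((e.sumCongr e).trans (finSumFinEquiv.trans
      ((e.sumCongr e).trans finSumFinEquiv).symm)) = Equiv.refl _ := by
    ext s; simp
  rw [h1, rel_refl]

lemma rho_cupA [DecidableEq κ] : rho B x (κ ⊕ κ) (cupA S κ K) = cupA S κ F := by
  rw [cupA_eq, cupA_eq]
  have h1 : ∀ s : Finset (κ → Bool), rho B x (κ ⊕ κ) (∑ c ∈ s, cupK S K c) =
      ∑ c ∈ s, cupK S F c := by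
    intro s
    induction s using Finset.induction_on with
    | empty => rw [Finset.sum_empty, Finset.sum_empty]; exact rho_nt hA (NT.zero hA)
    | insert a s ha ih =>
      rw [Finset.sum_insert ha, Finset.sum_insert ha, rho_add hA (hA.cup a)
        (hA.sum_mem fun i _ => hA.cup i), ih, rho_cup hA hx]
  exact h1 _

omit hA in
lemma rho_even {a : (κ → R) → K} : Evn S (rho B x κ a) :=
  Evn.rel S _ (hx.even' _)

lemma rho_ctr [DecidableEq κ] [DecidableEq κ'] {a : (κ ⊕ κ' → R) → K} (ha : A _ a)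
    {b : (κ' → R) → K} (hb : A _ b) :
    rho B x κ (ctr S a b) = ctr S (rho B x _ a) (rho B x _ b) := by
  rw [ctr_eq_pc, rho_pc hA hx (hA.rel _ (hA.tmul ha hb)), rho_rel hA hx _ (hA.tmul ha hb),
    rho_tmul hA hx ha hb, ctr_eq_pc]

lemma rho_const (q : ℚ) : rho B x Empty (fun _ => (q : K)) = fun _ => algebraMap ℚ F q := by
  have h1 : (fun _ => (q : K) : (Empty → R) → K) = (q : K) • fun _ => 1 := by
    funext I; simp
  rw [h1, rho_smul hA hA.one, rho_one hA hx]
  funext I; simp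

/-- The form is preserved. -/
lemma rho_bp [DecidableEq κ] {a b : (κ → R) → K} (ha : A κ a) (hb : A κ b) {q : ℚ}
    (h : bp S a b = (q : K)) : bp S (rho B x κ a) (rho B x κ b) = algebraMap ℚ F q := by
  have h1 := rho_ctr hA hx (κ := Empty) (hA.rel (Equiv.emptySum Empty κ).symm ha) hb
  have h2 : ctr S (rel (Equiv.emptySum Empty κ).symm a) b = fun _ => (q : K) := by
    funext I
    rw [← h]; rfl
  rw [h2, rho_const hA hx, rho_rel hA hx _ ha] at h1
  have h3 := congrFun h1 (fun s => s.elim)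
  rw [h3]; rfl

end

end Pool.Agent.Y97.FD
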