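import Pool.Agent.Y97.FD.Sys

/-!
# The tensors generated by the cups, and the projection to them
-/

set_option linter.unusedSectionVars false

open Finset Pool.Agent.W552 Pool.Agent.Y97

namespace Pool.Agent.Y97.FD

variable {R : Type} [Fintype R] [DecidableEq R]

/-- The tensors generated by the cups. -/
inductive Br (S : Std R) : ∀ κ : Type, ((κ → R) → ℚ) → Prop
  | one : Br S Empty (fun _ => 1)
  | cup {κ : Type} [Fintype κ] [DecidableEq κ] (c : κ → Bool) : Br S (κ ⊕ κ) (cupK S ℚ c)
  | tmul {κ κ' : Type} {f : (κ → R) → ℚ} {g : (κ' → R) → ℚ} : Br S κ f → Br S κ' g →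
      Br S (κ ⊕ κ') (tmul f g)
  | rel {κ κ' : Type} (e : κ ≃ κ') {f : (κ → R) → ℚ} : Br S κ f → Br S κ' (rel e f)
  | ctr {κ κ' : Type} [Fintype κ] [DecidableEq κ] [Fintype κ'] [DecidableEq κ']
      {f : (κ ⊕ κ' → R) → ℚ} {g : (κ' → R) → ℚ} : Br S (κ ⊕ κ') f → Br S κ' g →
      Br S κ (ctr S f g)

variable {S : Std R} {κ κ' κ'' : Type}

lemma Br.evn {f : (κ → R) → ℚ} (h : Br S κ f) : ∀ [Fintype κ], Evn S f := by
  induction h with
  | one => intro _ I; simp
  | @cup κ i1 i2 c =>
    intro i3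
    obtain rfl : i3 = instFintypeSum κ κ := Subsingleton.elim _ _
    exact evn_cupK S c
  | @tmul κ κ' f g _ _ ih ih' =>
    intro i
    have _ : Fintype κ := Fintype.sumLeft (β := κ')
    have _ : Fintype κ' := Fintype.sumRight (α := κ)
    obtain rfl : i = instFintypeSum κ κ' := Subsingleton.elim _ _
    exact Evn.tmul S ih ih'
  | @rel κ κ' e f _ ih =>
    intro i
    have _ : Fintype κ := Fintype.ofEquiv κ' e.symm
    exact Evn.rel S e ih
  | @ctr κ κ' i1 i2 i3 i4 f g _ _ ih ih' =>
    intro i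
    obtain rfl : i = i1 := Subsingleton.elim _ _
    intro I
    rw [FD.ctr, pdot, Finset.mul_sum]
    refine Finset.sum_congr rfl fun I' _ => ?_
    have h1 := ih (Sum.elim I I')
    have h2 := Evn.jl S (show Evn S g from ih') I'
    rw [Fintype.prod_sum_type] at h1
    simp only [Sum.elim_inl, Sum.elim_inr] at h1
    have h3 : (∏ s, (S.tau (I' s) : ℚ)) * (∏ s, (S.tau (I' s) : ℚ)) = 1 := by
      rw [← Finset.prod_mul_distrib]
      exact Finset.prod_eq_one fun s _ => by rw [← Int.cast_mul, S.tau_sq, Int.cast_one]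
    calc _ = ((∏ s, (S.tau (I s) : ℚ)) * (∏ s, (S.tau (I' s) : ℚ)) * f (Sum.elim I I')) *
        ((∏ s, (S.tau (I' s) : ℚ)) * jl S g I') := by
          linear_combination (-(∏ s, (S.tau (I s) : ℚ)) * f (Sum.elim I I') * jl S g I') * h3
      _ = _ := by rw [h1, h2]

lemma Br.jl {f : (κ → R) → ℚ} (h : Br S κ f) : ∀ [Fintype κ], jl S f = f := by
  induction h with
  | one => intro _; funext I; rw [jl_apply]; simp
  | @cup κ i1 i2 c =>
    intro i3
    obtain rfl : i3 = instFintypeSum κ κ := Subsingleton.elim _ _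
    exact jl_cupK S c
  | @tmul κ κ' f g _ _ ih ih' =>
    intro i
    have _ : Fintype κ := Fintype.sumLeft (β := κ')
    have _ : Fintype κ' := Fintype.sumRight (α := κ)
    obtain rfl : i = instFintypeSum κ κ' := Subsingleton.elim _ _
    rw [jl_tmul, ih, ih']
  | @rel κ κ' e f _ ih =>
    intro i
    have _ : Fintype κ := Fintype.ofEquiv κ' e.symm
    rw [jl_rel, ih]
  | @ctr κ κ' i1 i2 i3 i4 f g hf hg ih ih' =>
    intro i
    obtain rfl : i = i1 := Subsingleton.elim _ _
    have e1 : FD.jl S f = f := ih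
    have e2 : FD.jl S g = g := ih'
    rw [FD.ctr, jl_pdot, e1, e2, e2]

/-- The span of the tensors generated by the cups. -/
def WB (S : Std R) (F : Type*) [Field F] [CharZero F] (κ : Type) : Submodule F ((κ → R) → F) :=
  Submodule.span F {f | ∃ g, Br S κ g ∧ f = mapT (Rat.castHom F) g}

section Rational

variable [Fintype κ] [DecidableEq κ]

lemma dot_self_eq_zero {f : (κ → R) → ℚ} (h : dot f f = 0) : f = 0 := by
  funext I
  have h1 := (Finset.sum_eq_zero_iff_of_nonneg (fun I _ => mul_self_nonneg (f I))).1 h I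
    (Finset.mem_univ _)
  exact mul_self_eq_zero.1 h1

/-- The dot product as a bilinear form. -/
def dotL (κ : Type) [Fintype κ] [DecidableEq κ] (F : Type*) [Field F] :
    LinearMap.BilinForm F ((κ → R) → F) :=
  LinearMap.mk₂ F dot
    (fun f g h => by rw [dot_comm, dot_add, dot_comm h, dot_comm h])
    (fun c f g => by rw [dot_comm, dot_smul, dot_comm g]; rfl) dot_add
    (fun c f g => by rw [dot_smul]; rfl)

lemma dotL_apply (f g : (κ → R) → ℚ) : dotL κ ℚ f g = dot f g := rfl

lemma exists_proj (W : Submodule ℚ ((κ → R) → ℚ)) (u : (κ → R) → ℚ) :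
    ∃ w ∈ W, ∀ b ∈ W, dot (u - w) b = 0 := by
  have hrefl : (dotL (R := R) κ ℚ).IsRefl := by
    intro x y h
    rw [dotL_apply] at h ⊢
    rw [dot_comm]; exact h
  have hnd : ((dotL (R := R) κ ℚ).restrict W).Nondegenerate := by
    have h0 : ∀ x : W, (∀ y : W, (dotL (R := R) κ ℚ).restrict W x y = 0) → x = 0 := by
      intro x hx
      have h1 := hx x
      exact Subtype.ext (dot_self_eq_zero h1)
    refine ⟨h0, fun x hx => h0 x fun y => ?_⟩
    have h1 := hx y
    change dot _ _ = 0 at h1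
    change dot _ _ = 0
    rw [dot_comm]; exact h1
  have h1 := LinearMap.BilinForm.isCompl_orthogonal_of_restrict_nondegenerate hrefl hnd
  obtain ⟨w, hw, w', hw', h2⟩ := Submodule.mem_sup.1
    (show u ∈ W ⊔ (dotL (R := R) κ ℚ).orthogonal W by rw [h1.sup_eq_top]; exact Submodule.mem_top)
  refine ⟨w, hw, fun b hb => ?_⟩
  have h3 : u - w = w' := by rw [← h2, add_sub_cancel_left]
  rw [h3, dot_comm]
  exact hw' b hb

end Rational

variable {F : Type*} [Field F] [CharZero F]

section Proj

variable [Fintype κ] [DecidableEq κ]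

/-- The projection of a basis vector. -/
noncomputable def pker (S : Std R) (J : κ → R) : (κ → R) → ℚ :=
  (exists_proj (WB S ℚ κ) (Pi.single J 1)).choose

lemma pker_mem (J : κ → R) : pker S J ∈ WB S ℚ κ :=
  (exists_proj (WB S ℚ κ) (Pi.single J 1)).choose_spec.1

lemma pker_dot (J : κ → R) {b : (κ → R) → ℚ} (hb : b ∈ WB S ℚ κ) :
    dot (Pi.single J 1 - pker S J) b = 0 :=
  (exists_proj (WB S ℚ κ) (Pi.single J 1)).choose_spec.2 b hb

lemma dot_single (J : κ → R) (b : (κ → R) → F) : dot (Pi.single J 1) b = b J := by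
  rw [dot, Finset.sum_eq_single J]
  · rw [Pi.single_eq_same, one_mul]
  · intro I _ hI; rw [Pi.single_eq_of_ne hI, zero_mul]
  · intro h; exact absurd (Finset.mem_univ _) h

lemma pker_symm (I J : κ → R) : pker S J I = pker S I J := by
  have h1 := pker_dot J (pker_mem (S := S) I)
  have h2 := pker_dot I (pker_mem (S := S) J)
  rw [dot_comm, dot_sub, dot_comm _ (Pi.single _ _), dot_single] at h1 h2
  rw [dot_comm] at h2
  linear_combination h2 - h1

/-- The projection to the span of the tensors generated by the cups. -/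
noncomputable def PB (S : Std R) (F : Type*) [Field F] [CharZero F] (κ : Type) [Fintype κ]
    [DecidableEq κ] : ((κ → R) → F) →ₗ[F] ((κ → R) → F) where
  toFun t := fun I => ∑ J, (pker S J I : F) * t J
  map_add' t t' := by funext I; simp only [Pi.add_apply, mul_add, Finset.sum_add_distrib]
  map_smul' c t := by
    funext I
    simp only [Pi.smul_apply, smul_eq_mul, RingHom.id_apply, Finset.mul_sum]
    exact Finset.sum_congr rfl fun _ _ => by ring

lemma PB_apply (t : (κ → R) → F) (I : κ → R) : PB S F κ t I = ∑ J, (pker S J I : F) * t J := rfl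

lemma cast_mem {b : (κ → R) → ℚ} (hb : b ∈ WB S ℚ κ) :
    mapT (Rat.castHom F) b ∈ WB S F κ := by
  refine Submodule.span_induction (p := fun b _ => mapT (Rat.castHom F) b ∈ WB S F κ)
    ?_ ?_ ?_ ?_ hb
  · rintro _ ⟨g, hg, rfl⟩
    exact Submodule.subset_span ⟨g, hg, by funext I; simp [mapT_apply]⟩
  · have h0 : mapT (Rat.castHom F) (0 : (κ → R) → ℚ) = 0 := by funext I; simp [mapT_apply]
    rw [h0]; exact Submodule.zero_mem _
  · intro x y _ _ hx hy
    have h0 : mapT (Rat.castHom F) (x + y) = mapT (Rat.castHom F) x + mapT (Rat.castHom F) y := by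
      funext I; simp [mapT_apply]
    rw [h0]; exact Submodule.add_mem _ hx hy
  · intro c x _ hx
    have h0 : mapT (Rat.castHom F) (c • x) = (c : F) • mapT (Rat.castHom F) x := by
      funext I; simp [mapT_apply]
    rw [h0]; exact Submodule.smul_mem _ _ hx

lemma PB_mem (t : (κ → R) → F) : PB S F κ t ∈ WB S F κ := by
  have h1 : PB S F κ t = ∑ J, t J • mapT (Rat.castHom F) (pker S J) := by
    funext I
    rw [PB_apply, Finset.sum_apply]
    refine Finset.sum_congr rfl fun J _ => ?_
    rw [Pi.smul_apply, mapT_apply, smul_eq_mul, mul_comm]; rfl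
  rw [h1]
  exact Submodule.sum_mem _ fun J _ => Submodule.smul_mem _ _ (cast_mem (pker_mem J))

lemma PB_dot (t : (κ → R) → F) {g : (κ → R) → ℚ} (hg : Br S κ g) :
    dot (mapT (Rat.castHom F) g) (t - PB S F κ t) = 0 := by
  rw [dot_sub, sub_eq_zero]
  rw [dot, dot]
  simp only [PB_apply, Finset.mul_sum]
  rw [Finset.sum_comm]
  refine Finset.sum_congr rfl fun J _ => ?_
  have h1 := pker_dot (S := S) J (b := g) (Submodule.subset_span ⟨g, hg, by
    funext I; simp [mapT_apply]⟩)
  rw [dot_comm, dot_sub, dot_comm _ (Pi.single _ _), dot_single, sub_eq_zero, dot] at h1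
  have h2 := congrArg (fun x : ℚ => (x : F)) h1
  simp only [Rat.cast_sum, Rat.cast_mul] at h2
  rw [mapT_apply]
  have h3 : (Rat.castHom F) (g J) = (g J : F) := rfl
  rw [h3, h2, Finset.sum_mul]
  refine Finset.sum_congr rfl fun I _ => ?_
  rw [mapT_apply]
  have h4 : (Rat.castHom F) (g I) = (g I : F) := rfl
  rw [h4]; ring

lemma PB_eq_zero {t : (κ → R) → F}
    (h : ∀ g, Br S κ g → dot (mapT (Rat.castHom F) g) t = 0) : PB S F κ t = 0 := by
  funext I
  rw [PB_apply, Pi.zero_apply]
  have h1 : ∀ b ∈ WB S ℚ κ, dot (mapT (Rat.castHom F) b) t = 0 := by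
    intro b hb
    refine Submodule.span_induction
      (p := fun b _ => dot (mapT (Rat.castHom F) b) t = 0) ?_ ?_ ?_ ?_ hb
    · rintro _ ⟨g, hg, rfl⟩
      have h2 : mapT (Rat.castHom ℚ) g = g := by funext I; simp [mapT_apply]
      rw [h2]; exact h g hg
    · simp [dot, mapT_apply]
    · intro x y _ _ hx hy
      simp only [dot, mapT_apply, Pi.add_apply, map_add, add_mul, Finset.sum_add_distrib] at *
      rw [hx, hy, add_zero]
    · intro c x _ hx
      simp only [dot, mapT_apply, Pi.smul_apply, smul_eq_mul, map_mul, mul_assoc] at *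
      rw [← Finset.mul_sum, hx, mul_zero]
  have h2 := h1 _ (pker_mem (S := S) I)
  rw [← h2, dot]
  refine Finset.sum_congr rfl fun J _ => ?_
  rw [mapT_apply, pker_symm]
  rfl

lemma PB_br {g : (κ → R) → ℚ} (hg : Br S κ g) :
    PB S F κ (mapT (Rat.castHom F) g) = mapT (Rat.castHom F) g := by
  have hgW : g ∈ WB S ℚ κ := Submodule.subset_span ⟨g, hg, by funext I; simp [mapT_apply]⟩
  have h1 : ∀ I, ∑ J, pker S J I * g J = g I := by
    intro I
    have h2 := pker_dot (S := S) I hgW
    rw [dot_comm, dot_sub, dot_comm _ (Pi.single _ _), dot_single, sub_eq_zero, dot] at h2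
    rw [h2]
    exact Finset.sum_congr rfl fun J _ => by rw [pker_symm]; ring
  funext I
  rw [PB_apply, mapT_apply]
  have h3 : (Rat.castHom F) (g I) = (g I : F) := rfl
  rw [h3, ← h1 I, Rat.cast_sum]
  refine Finset.sum_congr rfl fun J _ => ?_
  rw [mapT_apply, Rat.cast_mul]; rfl

lemma PB_of_mem {w : (κ → R) → F} (hw : w ∈ WB S F κ) : PB S F κ w = w := by
  refine Submodule.span_induction (p := fun w _ => PB S F κ w = w) ?_ ?_ ?_ ?_ hw
  · rintro _ ⟨g, hg, rfl⟩; exact PB_br hg
  · exact map_zero _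
  · intro x y _ _ hx hy; rw [map_add, hx, hy]
  · intro c x _ hx; rw [map_smul, hx]

/-- The characterization of the projection. -/
lemma PB_unique {t w : (κ → R) → F} (hw : w ∈ WB S F κ)
    (h : ∀ g, Br S κ g → dot (mapT (Rat.castHom F) g) (t - w) = 0) : PB S F κ t = w := by
  have h1 := PB_eq_zero h
  rw [map_sub, sub_eq_zero, PB_of_mem hw] at h1
  exact h1

end Proj

section Ops

variable [Fintype κ] [DecidableEq κ] [Fintype κ'] [DecidableEq κ']

lemma WB_rel (e : κ ≃ κ') {w : (κ → R) → F} (hw : w ∈ WB S F κ) : rel e w ∈ WB S F κ' := by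
  refine Submodule.span_induction (p := fun w _ => rel e w ∈ WB S F κ') ?_ ?_ ?_ ?_ hw
  · rintro _ ⟨g, hg, rfl⟩
    exact Submodule.subset_span ⟨rel e g, Br.rel e hg, rfl⟩
  · exact Submodule.zero_mem _
  · intro x y _ _ hx hy; exact Submodule.add_mem _ hx hy
  · intro c x _ hx; exact Submodule.smul_mem _ _ hx

lemma PB_rel (e : κ ≃ κ') (t : (κ → R) → F) : PB S F κ' (rel e t) = rel e (PB S F κ t) := by
  apply PB_unique (WB_rel e (PB_mem t))
  intro g hg
  rw [← rel_sub, dot_comm, dot_rel, dot_comm]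
  exact PB_dot t (Br.rel e.symm hg)

lemma mapT_pdot {E E' : Type*} [CommRing E] [CommRing E'] (φ : E →+* E')
    (f : (κ ⊕ κ' → R) → E) (g : (κ' → R) → E) :
    mapT φ (pdot f g) = pdot (mapT φ f) (mapT φ g) := by
  funext I
  rw [mapT_apply, pdot, pdot, map_sum]
  exact Finset.sum_congr rfl fun _ _ => by rw [map_mul]; rfl

lemma mapT_ctr {E E' : Type*} [CommRing E] [CommRing E'] (φ : E →+* E')
    (f : (κ ⊕ κ' → R) → E) (g : (κ' → R) → E) :
    mapT φ (ctr S f g) = ctr S (mapT φ f) (mapT φ g) := by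
  rw [ctr, mapT_pdot, mapT_jl, ctr]

lemma Br.tmul_cupA {g : (κ → R) → ℚ} (hg : Br S κ g) :
    FD.tmul g (cupA S κ' ℚ) ∈ WB S ℚ (κ ⊕ (κ' ⊕ κ')) := by
  rw [cupA_eq, tmul_sum]
  refine Submodule.sum_mem _ fun c _ => Submodule.subset_span ⟨_, hg.tmul (Br.cup c), ?_⟩
  funext I; simp [mapT_apply]

lemma mapT_cupA {E E' : Type*} [CommRing E] [CommRing E'] (φ : E →+* E') :
    mapT φ (cupA S κ E) = cupA S κ E' := by
  funext J
  rw [mapT_apply, cupA, cupA, map_prod]
  exact Finset.prod_congr rfl fun s _ => by split_ifs <;> simp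

lemma dot_WB {t : (κ → R) → F} (h : ∀ g, Br S κ g → dot (mapT (Rat.castHom F) g) t = 0)
    {w : (κ → R) → F} (hw : w ∈ WB S F κ) : dot w t = 0 := by
  refine Submodule.span_induction (p := fun w _ => dot w t = 0) ?_ ?_ ?_ ?_ hw
  · rintro _ ⟨g, hg, rfl⟩; exact h g hg
  · simp [dot]
  · intro x y _ _ hx hy; rw [dot_comm, dot_add, dot_comm t, dot_comm t, hx, hy, add_zero]
  · intro c x _ hx; rw [dot_comm, dot_smul, dot_comm t, hx, mul_zero]

lemma WB_pc {w : (κ ⊕ (κ' ⊕ κ') → R) → F} (hw : w ∈ WB S F _) : pc S w ∈ WB S F κ := by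
  refine Submodule.span_induction (p := fun w _ => pc S w ∈ WB S F κ) ?_ ?_ ?_ ?_ hw
  · rintro _ ⟨g, hg, rfl⟩
    rw [← mapT_pc, pc_eq_ctr, cupA_eq]
    have h1 : ctr S g (∑ c, cupK S ℚ c) = ∑ c : κ' → Bool, ctr S g (cupK S ℚ c) := by
      funext I
      rw [Finset.sum_apply]
      simp only [ctr, pdot]
      rw [jl_sum, Finset.sum_comm]
      refine Finset.sum_congr rfl fun J _ => ?_
      rw [Finset.sum_apply, Finset.mul_sum]
    rw [h1]
    apply cast_mem
    refine Submodule.sum_mem _ fun c _ => Submodule.subset_span ⟨_, hg.ctr (Br.cup c), ?_⟩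
    funext I; simp [mapT_apply]
  · have : pc S (0 : (κ ⊕ (κ' ⊕ κ') → R) → F) = 0 := by funext I; simp [pc, pdot]
    rw [this]; exact Submodule.zero_mem _
  · intro x y _ _ hx hy
    have : pc S (x + y) = pc S x + pc S y := by
      funext I; simp only [pc, pdot, Pi.add_apply, add_mul, Finset.sum_add_distrib]
    rw [this]; exact Submodule.add_mem _ hx hy
  · intro c x _ hx
    have : pc S (c • x) = c • pc S x := by
      funext I; simp only [pc, pdot, Pi.smul_apply, smul_eq_mul, Finset.mul_sum, mul_assoc]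
    rw [this]; exact Submodule.smul_mem _ _ hx

/-- The projection commutes with the contractions. -/
lemma PB_pc (t : (κ ⊕ (κ' ⊕ κ') → R) → F) : PB S F κ (pc S t) = pc S (PB S F _ t) := by
  apply PB_unique (WB_pc (PB_mem t))
  intro g hg
  have h1 : pc S t - pc S (PB S F _ t) = pc S (t - PB S F _ t) := by
    funext I
    simp only [pc, pdot, Pi.sub_apply, sub_mul, Finset.sum_sub_distrib]
  rw [h1, pc, dot_pdot, ← mapT_cupA (Rat.castHom F), ← mapT_tmul]
  exact dot_WB (fun g hg => PB_dot t hg) (cast_mem hg.tmul_cupA)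

end Ops

/-- Multiplication with the parity of the slots in a set. -/
def zop (S : Std R) [Fintype κ] (ε : κ → Bool) (f : (κ → R) → F) : (κ → R) → F :=
  fun I => (∏ s, if ε s then (S.tau (I s) : F) else 1) * f I

lemma zop_rel [Fintype κ] [Fintype κ'] (e : κ ≃ κ') (ε : κ' → Bool) (f : (κ → R) → F) :
    zop S ε (rel e f) = rel e (zop S (fun s => ε (e s)) f) := by
  funext I
  rw [zop, rel_apply, rel_apply, zop]
  congr 1
  exact (Fintype.prod_equiv e _ _ (fun s => rfl)).symm

lemma zop_tmul [Fintype κ] [Fintype κ'] (ε : κ ⊕ κ' → Bool) (f : (κ → R) → F)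
    (g : (κ' → R) → F) : zop S ε (tmul f g) =
      tmul (zop S (fun s => ε (Sum.inl s)) f) (zop S (fun s => ε (Sum.inr s)) g) := by
  funext I
  rw [zop, tmul_apply, tmul_apply, zop, zop, Fintype.prod_sum_type]
  ring

lemma zop_pdot [Fintype κ] [Fintype κ'] [DecidableEq κ'] (ε : κ → Bool)
    (f : (κ ⊕ κ' → R) → F) (g : (κ' → R) → F) :
    zop S ε (pdot f g) = pdot (zop S (Sum.elim ε fun _ => false) f) g := by
  funext I
  rw [zop, pdot, pdot, Finset.mul_sum]
  refine Finset.sum_congr rfl fun I' _ => ?_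
  rw [zop, Fintype.prod_sum_type]
  simp only [Sum.elim_inl, Sum.elim_inr]
  simp only [Bool.false_eq_true, if_false, Finset.prod_const_one, mul_one]
  ring

lemma Br.zop {f : (κ → R) → ℚ} (h : Br S κ f) : ∀ [Fintype κ] (ε : κ → Bool),
    zop S ε f = f ∨ zop S ε f = -f := by
  induction h with
  | one => intro _ ε; left; funext I; simp [FD.zop]
  | @cup κ i1 i2 c =>
    intro i3 ε
    obtain rfl : i3 = instFintypeSum κ κ := Subsingleton.elim _ _
    have h1 : ∀ I : κ ⊕ κ → R, FD.zop S ε (cupK S ℚ c) I =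
        (∏ s, (if ε (Sum.inl s) then (if c s then -1 else 1) else 1) *
          (if ε (Sum.inr s) then (if c s then -1 else 1 : ℚ) else 1)) * cupK S ℚ c I := by
      intro I
      rw [FD.zop, Fintype.prod_sum_type, cupK, ← Finset.prod_mul_distrib,
        ← Finset.prod_mul_distrib, ← Finset.prod_mul_distrib]
      refine Finset.prod_congr rfl fun s _ => ?_
      by_cases h : S.par (I (Sum.inl s)) = c s ∧ I (Sum.inr s) = S.inv (I (Sum.inl s))
      · rw [if_pos h, h.2, S.tau_inv, Std.tau, h.1]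
        push_cast
        rfl
      · rw [if_neg h, mul_zero, mul_zero]
    have h2 : (∏ s, (if ε (Sum.inl s) then (if c s then -1 else 1) else 1) *
          (if ε (Sum.inr s) then (if c s then -1 else 1 : ℚ) else 1)) = 1 ∨
        (∏ s, (if ε (Sum.inl s) then (if c s then -1 else 1) else 1) *
          (if ε (Sum.inr s) then (if c s then -1 else 1 : ℚ) else 1)) = -1 := by
      refine Finset.prod_induction _ (fun x : ℚ => x = 1 ∨ x = -1) ?_ (Or.inl rfl) ?_
      · rintro a b (rfl | rfl) (rfl | rfl) <;> norm_num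
      · intro s _; split_ifs <;> norm_num
    rcases h2 with h2 | h2
    · left; funext I; rw [h1, h2, one_mul]
    · right; funext I; rw [h1, h2, neg_one_mul]; rfl
  | @tmul κ κ' f g _ _ ih ih' =>
    intro i ε
    have _ : Fintype κ := Fintype.sumLeft (β := κ')
    have _ : Fintype κ' := Fintype.sumRight (α := κ)
    obtain rfl : i = instFintypeSum κ κ' := Subsingleton.elim _ _
    rw [zop_tmul]
    rcases ih (fun s => ε (Sum.inl s)) with h1 | h1 <;>
      rcases ih' (fun s => ε (Sum.inr s)) with h2 | h2 <;> rw [h1, h2]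
    · left; rfl
    · right; funext I; simp only [tmul_apply, Pi.neg_apply]; ring
    · right; funext I; simp only [tmul_apply, Pi.neg_apply]; ring
    · left; funext I; simp only [tmul_apply, Pi.neg_apply]; ring
  | @rel κ κ' e f _ ih =>
    intro i ε
    have _ : Fintype κ := Fintype.ofEquiv κ' e.symm
    rw [zop_rel]
    rcases ih (fun s => ε (e s)) with h1 | h1 <;> rw [h1]
    · left; rfl
    · right; rfl
  | @ctr κ κ' i1 i2 i3 i4 f g hf hg ih ih' =>
    intro i ε
    obtain rfl : i = i1 := Subsingleton.elim _ _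
    rw [FD.ctr, zop_pdot]
    rcases (show FD.zop S (Sum.elim ε fun _ => false) f = f ∨
      FD.zop S (Sum.elim ε fun _ => false) f = -f from ih _) with h1 | h1 <;> rw [h1]
    · left; rfl
    · right; funext I
      simp only [pdot, Pi.neg_apply, neg_mul, Finset.sum_neg_distrib]

lemma WB_zop [Fintype κ] [DecidableEq κ] (ε : κ → Bool) {w : (κ → R) → F}
    (hw : w ∈ WB S F κ) : zop S ε w ∈ WB S F κ := by
  refine Submodule.span_induction (p := fun w _ => FD.zop S ε w ∈ WB S F κ) ?_ ?_ ?_ ?_ hw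
  · rintro _ ⟨g, hg, rfl⟩
    have h1 : FD.zop S ε (mapT (Rat.castHom F) g) = mapT (Rat.castHom F) (FD.zop S ε g) := by
      funext I
      rw [mapT_apply, FD.zop, FD.zop, map_mul, map_prod, mapT_apply]
      congr 1
      exact Finset.prod_congr rfl fun s _ => by split_ifs <;> simp
    rw [h1]
    rcases hg.zop ε with h2 | h2 <;> rw [h2]
    · exact Submodule.subset_span ⟨g, hg, rfl⟩
    · have h3 : mapT (Rat.castHom F) (-g) = -mapT (Rat.castHom F) g := by
        funext I; simp [mapT_apply]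
      rw [h3]
      exact Submodule.neg_mem _ (Submodule.subset_span ⟨g, hg, rfl⟩)
  · have : FD.zop S ε (0 : (κ → R) → F) = 0 := by funext I; simp [FD.zop]
    rw [this]; exact Submodule.zero_mem _
  · intro x y _ _ hx hy
    have : FD.zop S ε (x + y) = FD.zop S ε x + FD.zop S ε y := by
      funext I; simp only [FD.zop, Pi.add_apply, mul_add]
    rw [this]; exact Submodule.add_mem _ hx hy
  · intro c x _ hx
    have : FD.zop S ε (c • x) = c • FD.zop S ε x := by
      funext I; simp only [FD.zop, Pi.smul_apply, smul_eq_mul]; ring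
    rw [this]; exact Submodule.smul_mem _ _ hx

/-- The projection commutes with the parity operators. -/
lemma PB_zop [Fintype κ] [DecidableEq κ] (ε : κ → Bool) (t : (κ → R) → F) :
    PB S F κ (zop S ε t) = zop S ε (PB S F κ t) := by
  apply PB_unique (WB_zop ε (PB_mem t))
  intro g hg
  have h1 : FD.zop S ε t - FD.zop S ε (PB S F κ t) = FD.zop S ε (t - PB S F κ t) := by
    funext I; simp only [FD.zop, Pi.sub_apply]; ring
  have h2 : ∀ u v : (κ → R) → F, dot u (FD.zop S ε v) = dot (FD.zop S ε u) v := by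
    intro u v
    rw [dot, dot]
    exact Finset.sum_congr rfl fun I _ => by rw [FD.zop, FD.zop]; ring
  rw [h1, h2]
  refine dot_WB (fun g hg => PB_dot t hg) (WB_zop ε (Submodule.subset_span ⟨g, hg, rfl⟩))

end Pool.Agent.Y97.FD
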