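import Pool.Agent.Y97.FD.Ten
import Pool.Agent.W552.RatBasis

/-!
# Standard forms and closed systems of tensors
-/

set_option linter.unusedSectionVars false

open Finset Pool.Agent.W552

namespace Pool.Agent.Y97.FD

/-- The combinatorial data of a standard form: the basis vectors `e i` and `e (inv i)` are paired,
with the sign `sg i`; the form is symmetric on the even and alternating on the odd vectors. -/
structure Std (R : Type) where
  /-- the partner -/
  inv : R → R
  /-- the sign -/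
  sg : R → ℤ
  /-- the parity, `true` for odd -/
  par : R → Bool
  inv_inv : ∀ i, inv (inv i) = i
  sg_sq : ∀ i, sg i * sg i = 1
  par_inv : ∀ i, par (inv i) = par i
  sg_inv : ∀ i, sg (inv i) = (if par i then -1 else 1) * sg i

namespace Std

variable {R : Type} (S : Std R)

/-- The sign of the parity. -/
def tau (i : R) : ℤ := if S.par i then -1 else 1

lemma tau_sq (i : R) : S.tau i * S.tau i = 1 := by
  rw [tau]; split_ifs <;> norm_num

lemma tau_inv (i : R) : S.tau (S.inv i) = S.tau i := by rw [tau, tau, S.par_inv]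

lemma sg_inv' (i : R) : S.sg (S.inv i) = S.tau i * S.sg i := S.sg_inv i

lemma sg_mul (i : R) : S.sg i * S.sg (S.inv i) = S.tau i := by
  rw [sg_inv', mul_comm, mul_assoc, S.sg_sq, mul_one]

lemma inv_inj {i j : R} (h : S.inv i = S.inv j) : i = j := by
  rw [← S.inv_inv i, h, S.inv_inv]

end Std

variable {R : Type} {F : Type*} [CommRing F] {κ κ' κ'' : Type} (S : Std R)

section

variable [Fintype κ] [Fintype κ']

/-- The linear operator attached to the standard form. -/
def jl (f : (κ → R) → F) : (κ → R) → F :=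
  fun I => (∏ s, (S.sg (I s) : F)) * f (fun s => S.inv (I s))

lemma jl_apply (f : (κ → R) → F) (I : κ → R) :
    jl S f I = (∏ s, (S.sg (I s) : F)) * f (fun s => S.inv (I s)) := rfl

/-- The tensor is even: it is supported on the indices with an even number of odd entries. -/
def Evn (f : (κ → R) → F) : Prop := ∀ I, (∏ s, (S.tau (I s) : F)) * f I = f I

lemma Evn.zero : Evn S (0 : (κ → R) → F) := fun I => by simp

lemma Evn.add {f g : (κ → R) → F} (hf : Evn S f) (hg : Evn S g) : Evn S (f + g) := fun I => by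
  rw [Pi.add_apply, mul_add, hf, hg]

lemma Evn.smul {f : (κ → R) → F} (c : F) (hf : Evn S f) : Evn S (c • f) := fun I => by
  rw [Pi.smul_apply, smul_eq_mul, mul_left_comm, hf]

lemma Evn.sum {ι : Type*} {s : Finset ι} {f : ι → (κ → R) → F} (hf : ∀ i ∈ s, Evn S (f i)) :
    Evn S (∑ i ∈ s, f i) := by
  classical
  induction s using Finset.induction_on with
  | empty => simpa using Evn.zero S
  | insert a s ha ih =>
    rw [Finset.sum_insert ha]
    exact (hf a (Finset.mem_insert_self _ _)).add S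
      (ih fun i hi => hf i (Finset.mem_insert_of_mem hi))

lemma jl_jl {f : (κ → R) → F} (hf : Evn S f) : jl S (jl S f) = f := by
  funext I
  rw [jl_apply, jl_apply, ← mul_assoc, ← Finset.prod_mul_distrib]
  have h1 : ∀ s, (S.sg (I s) : F) * (S.sg (S.inv (I s)) : F) = (S.tau (I s) : F) := by
    intro s
    rw [← Int.cast_mul, S.sg_mul]
  rw [Finset.prod_congr rfl fun s _ => h1 s]
  have h2 : (fun s => S.inv (S.inv (I s))) = I := by funext s; exact S.inv_inv _
  rw [h2, hf]

lemma Evn.jl {f : (κ → R) → F} (hf : Evn S f) : Evn S (jl S f) := by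
  intro I
  rw [jl_apply, mul_left_comm]
  congr 1
  have h1 := hf (fun s => S.inv (I s))
  rw [Finset.prod_congr rfl fun s _ => by rw [S.tau_inv]] at h1
  exact h1

lemma jl_add (f g : (κ → R) → F) : jl S (f + g) = jl S f + jl S g := by
  funext I; simp only [jl_apply, Pi.add_apply, mul_add]

lemma jl_sub (f g : (κ → R) → F) : jl S (f - g) = jl S f - jl S g := by
  funext I; simp only [jl_apply, Pi.sub_apply, mul_sub]

lemma jl_smul (c : F) (f : (κ → R) → F) : jl S (c • f) = c • jl S f := by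
  funext I; simp only [jl_apply, Pi.smul_apply, smul_eq_mul]; ring

lemma jl_sum {ι : Type*} (s : Finset ι) (f : ι → (κ → R) → F) :
    jl S (∑ i ∈ s, f i) = ∑ i ∈ s, jl S (f i) := by
  funext I
  simp only [jl_apply, Finset.sum_apply, Finset.mul_sum]

lemma jl_rel (e : κ ≃ κ') (f : (κ → R) → F) : jl S (rel e f) = rel e (jl S f) := by
  funext I
  rw [jl_apply, rel_apply, rel_apply, jl_apply]
  congr 1
  exact (Fintype.prod_equiv e _ _ (fun s => rfl)).symm

lemma jl_tmul (f : (κ → R) → F) (g : (κ' → R) → F) :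
    jl S (tmul f g) = tmul (jl S f) (jl S g) := by
  funext I
  rw [jl_apply, tmul_apply, tmul_apply, jl_apply, jl_apply, Fintype.prod_sum_type]
  ring

lemma Evn.rel (e : κ ≃ κ') {f : (κ → R) → F} (hf : Evn S f) : Evn S (rel e f) := by
  intro I
  rw [rel_apply]
  have h1 : (∏ s, (S.tau (I s) : F)) = ∏ s, (S.tau (I (e s)) : F) :=
    (Fintype.prod_equiv e _ _ (fun s => rfl)).symm
  rw [h1]
  exact hf (fun s => I (e s))

lemma Evn.tmul {f : (κ → R) → F} {g : (κ' → R) → F} (hf : Evn S f) (hg : Evn S g) :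
    Evn S (tmul f g) := by
  intro I
  rw [tmul_apply, Fintype.prod_sum_type]
  rw [mul_mul_mul_comm, hf, hg]

variable [Fintype R] [DecidableEq R] [DecidableEq κ] [DecidableEq κ']

/-- The matrix of the standard form. -/
def Std.C (F : Type*) [CommRing F] : Matrix R R F := Matrix.of fun i j => if j = S.inv i then (S.sg i : F) else 0

lemma Std.C_apply (i j : R) : S.C F i j = if j = S.inv i then (S.sg i : F) else 0 := rfl

lemma jl_eq_act (f : (κ → R) → F) : jl S f = act (S.C F) f := by
  funext I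
  rw [act_apply, Finset.sum_eq_single (fun s => S.inv (I s))]
  · rw [jl_apply]
    congr 1
    exact Finset.prod_congr rfl fun s _ => by rw [Std.C_apply, if_pos rfl]
  · intro J _ hJ
    have : ∃ s, J s ≠ S.inv (I s) := by
      by_contra h
      push Not at h
      exact hJ (funext h)
    obtain ⟨s, hs⟩ := this
    have h0 : (∏ s, S.C F (I s) (J s)) = 0 :=
      Finset.prod_eq_zero (Finset.mem_univ s) (by rw [Std.C_apply, if_neg hs])
    rw [h0, zero_mul]
  · intro h; exact absurd (Finset.mem_univ _) h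

lemma Std.C_mul_transpose : S.C F * (S.C F).transpose = 1 := by
  ext i j
  rw [Matrix.mul_apply, Finset.sum_eq_single (S.inv i)]
  · rw [Matrix.transpose_apply, Std.C_apply, Std.C_apply, if_pos rfl, Matrix.one_apply]
    by_cases h : i = j
    · subst h
      rw [if_pos rfl, if_pos rfl, ← Int.cast_mul, S.sg_sq, Int.cast_one]
    · rw [if_neg h, if_neg (fun h' => h (S.inv_inj h')), mul_zero]
  · intro l _ hl
    rw [Std.C_apply, if_neg hl, zero_mul]
  · intro h; exact absurd (Finset.mem_univ _) h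

lemma Std.transpose_mul_C : (S.C F).transpose * S.C F = 1 :=
  mul_eq_one_comm.1 S.C_mul_transpose

lemma act_transpose_C {f : (κ → R) → F} (hf : Evn S f) :
    act (S.C F).transpose f = jl S f := by
  have h1 : act (S.C F).transpose (jl S (jl S f)) = jl S f := by
    rw [jl_eq_act S (jl S f), ← act_mul, S.transpose_mul_C, act_one]
  rwa [jl_jl S hf] at h1

lemma dot_jl {f : (κ → R) → F} (hf : Evn S f) (g : (κ → R) → F) :
    dot f (jl S g) = dot (jl S f) g := by
  rw [jl_eq_act S g, dot_comm, dot_act, act_transpose_C S hf, dot_comm]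

/-- The standard form. -/
def bp (f g : (κ → R) → F) : F := dot f (jl S g)

lemma bp_comm {f g : (κ → R) → F} (hf : Evn S f) : bp S f g = bp S g f := by
  rw [bp, bp, dot_jl S hf, dot_comm]

lemma bp_rel (e : κ ≃ κ') (f g : (κ → R) → F) : bp S (rel e f) (rel e g) = bp S f g := by
  rw [bp, bp, jl_rel, dot_rel_rel]

lemma bp_rel_left (e : κ ≃ κ') (f : (κ → R) → F) (g : (κ' → R) → F) :
    bp S (rel e f) g = bp S f (rel e.symm g) := by
  rw [bp, bp, dot_rel, ← jl_rel]

lemma bp_tmul (f f' : (κ → R) → F) (g g' : (κ' → R) → F) :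
    bp S (tmul f g) (tmul f' g') = bp S f f' * bp S g g' := by
  rw [bp, bp, bp, jl_tmul, dot_tmul]

lemma bp_add (f g h : (κ → R) → F) : bp S f (g + h) = bp S f g + bp S f h := by
  rw [bp, bp, bp, jl_add, dot_add]

lemma bp_sub (f g h : (κ → R) → F) : bp S f (g - h) = bp S f g - bp S f h := by
  rw [bp, bp, bp, jl_sub, dot_sub]

lemma bp_smul (c : F) (f g : (κ → R) → F) : bp S f (c • g) = c * bp S f g := by
  rw [bp, bp, jl_smul, dot_smul]

lemma bp_sum {ι : Type*} (f : (κ → R) → F) (s : Finset ι) (g : ι → (κ → R) → F) :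
    bp S f (∑ i ∈ s, g i) = ∑ i ∈ s, bp S f (g i) := by
  rw [bp, jl_sum, dot_sum]; rfl

lemma add_bp (f g h : (κ → R) → F) : bp S (f + g) h = bp S f h + bp S g h := by
  rw [bp, bp, bp, dot_comm, dot_add, dot_comm f, dot_comm g]

lemma sub_bp (f g h : (κ → R) → F) : bp S (f - g) h = bp S f h - bp S g h := by
  rw [bp, bp, bp, dot_comm, dot_sub, dot_comm f, dot_comm g]

lemma smul_bp (c : F) (f g : (κ → R) → F) : bp S (c • f) g = c * bp S f g := by
  rw [bp, bp, dot_comm, dot_smul, dot_comm f]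

lemma sum_bp {ι : Type*} (s : Finset ι) (f : ι → (κ → R) → F) (g : (κ → R) → F) :
    bp S (∑ i ∈ s, f i) g = ∑ i ∈ s, bp S (f i) g := by
  rw [bp, dot_comm, dot_sum]
  exact Finset.sum_congr rfl fun i _ => dot_comm _ _

/-- The contraction with a tensor. -/
def ctr (f : (κ ⊕ κ' → R) → F) (g : (κ' → R) → F) : (κ → R) → F := pdot f (jl S g)

lemma jl_pdot (f : (κ ⊕ κ' → R) → F) (g : (κ' → R) → F) :
    jl S (pdot f g) = pdot (jl S f) (jl S g) := by
  rw [jl_eq_act, jl_eq_act S f, jl_eq_act S g, pdot_act, ← act_mul, S.transpose_mul_C, act_one]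

/-- The adjunction between products and contractions. -/
lemma bp_ctr (v : (κ → R) → F) (f : (κ ⊕ κ' → R) → F) {g : (κ' → R) → F} (hg : Evn S g) :
    bp S v (ctr S f g) = bp S (tmul v g) f := by
  rw [bp, ctr, jl_pdot, jl_jl S hg, dot_pdot, bp]

/-- The coloured cup tensors. -/
def cupK (F : Type*) [CommRing F] (c : κ → Bool) : (κ ⊕ κ → R) → F := fun J =>
  ∏ s, if S.par (J (Sum.inl s)) = c s ∧ J (Sum.inr s) = S.inv (J (Sum.inl s)) then
    (S.sg (J (Sum.inl s)) : F) else 0

/-- The full cup tensor. -/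
def cupA (κ : Type) [Fintype κ] (F : Type*) [CommRing F] : (κ ⊕ κ → R) → F := fun J =>
  ∏ s, if J (Sum.inr s) = S.inv (J (Sum.inl s)) then (S.sg (J (Sum.inl s)) : F) else 0

lemma evn_cupK (c : κ → Bool) : Evn S (cupK S F c) := by
  intro J
  rw [Fintype.prod_sum_type, cupK, ← Finset.prod_mul_distrib, ← Finset.prod_mul_distrib]
  refine Finset.prod_congr rfl fun s _ => ?_
  split_ifs with h
  · rw [h.2, S.tau_inv, ← Int.cast_mul, S.tau_sq, Int.cast_one, one_mul]
  · rw [mul_zero]

lemma jl_cupK (c : κ → Bool) : jl S (cupK S F c) = cupK S F c := by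
  funext J
  rw [jl_apply, Fintype.prod_sum_type, cupK, ← Finset.prod_mul_distrib, cupK,
    ← Finset.prod_mul_distrib]
  refine Finset.prod_congr rfl fun s _ => ?_
  by_cases h : S.par (J (Sum.inl s)) = c s ∧ J (Sum.inr s) = S.inv (J (Sum.inl s))
  · rw [if_pos h, if_pos]
    · rw [h.2, ← Int.cast_mul, ← Int.cast_mul, mul_assoc, S.sg_sq, mul_one]
    · exact ⟨by rw [S.par_inv]; exact h.1, by rw [h.2]⟩
  · rw [if_neg h, if_neg, mul_zero]
    rintro ⟨h1, h2⟩
    exact h ⟨by rw [← h1, S.par_inv], S.inv_inj h2⟩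

lemma cupA_eq : cupA S κ F = ∑ c : κ → Bool, cupK S F c := by
  funext J
  rw [Finset.sum_apply, cupA]
  rw [Finset.sum_eq_single (fun s => S.par (J (Sum.inl s)))]
  · rw [cupK]
    refine Finset.prod_congr rfl fun s _ => ?_
    simp
  · intro c _ hc
    have : ∃ s, c s ≠ S.par (J (Sum.inl s)) := by
      by_contra h
      push Not at h
      exact hc (funext h)
    obtain ⟨s, hs⟩ := this
    exact Finset.prod_eq_zero (Finset.mem_univ s) (if_neg (fun h => hs h.1.symm))
  · intro h; exact absurd (Finset.mem_univ _) h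

lemma jl_cupA : jl S (cupA S κ F) = cupA S κ F := by
  rw [cupA_eq, jl_sum]
  exact Finset.sum_congr rfl fun c _ => jl_cupK S c

lemma evn_cupA : Evn S (cupA S κ F) := by
  rw [cupA_eq]
  exact Evn.sum S fun c _ => evn_cupK S c

lemma sum_cupA (h : (κ ⊕ κ → R) → F) :
    ∑ J, h J * cupA S κ F J =
      ∑ I : κ → R, h (Sum.elim I (fun s => S.inv (I s))) * ∏ s, (S.sg (I s) : F) := by
  rw [sum_sumArrow]
  refine Finset.sum_congr rfl fun I _ => ?_
  rw [Finset.sum_eq_single (fun s => S.inv (I s))]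
  · congr 1
    exact Finset.prod_congr rfl fun s _ => if_pos rfl
  · intro J _ hJ
    have : ∃ s, J s ≠ S.inv (I s) := by
      by_contra h
      push Not at h
      exact hJ (funext h)
    obtain ⟨s, hs⟩ := this
    have h0 : cupA S κ F (Sum.elim I J) = 0 := Finset.prod_eq_zero (Finset.mem_univ s) (if_neg hs)
    rw [h0, mul_zero]
  · intro h; exact absurd (Finset.mem_univ _) h

/-- Contraction of pairs of slots. -/
def pc (f : (κ ⊕ (κ' ⊕ κ') → R) → F) : (κ → R) → F := pdot f (cupA S κ' F)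

lemma pc_apply (f : (κ ⊕ (κ' ⊕ κ') → R) → F) (I : κ → R) :
    pc S f I = ∑ I' : κ' → R, f (Sum.elim I (Sum.elim I' (fun s => S.inv (I' s)))) *
      ∏ s, (S.sg (I' s) : F) :=
  sum_cupA S (fun J => f (Sum.elim I J))

lemma ctr_eq_pc (f : (κ ⊕ κ' → R) → F) (g : (κ' → R) → F) :
    ctr S f g = pc S (rel (Equiv.sumAssoc κ κ' κ') (tmul f g)) := by
  funext I
  rw [pc_apply, ctr, pdot]
  refine Finset.sum_congr rfl fun I' _ => ?_
  rw [jl_apply, rel_apply, tmul_apply]
  have h1 : (fun s => (Sum.elim I (Sum.elim I' (fun s => S.inv (I' s)))) (Equiv.sumAssoc κ κ' κ'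
      (Sum.inl s))) = Sum.elim I I' := by
    funext s; rcases s with s | s <;> rfl
  rw [h1]
  have h2 : (fun s => (Sum.elim I (Sum.elim I' (fun s => S.inv (I' s)))) (Equiv.sumAssoc κ κ' κ'
      (Sum.inr s))) = fun s => S.inv (I' s) := by
    funext s; rfl
  rw [h2]
  ring

lemma pc_eq_ctr (f : (κ ⊕ (κ' ⊕ κ') → R) → F) : pc S f = ctr S f (cupA S κ' F) := by
  rw [ctr, jl_cupA, pc]

end

section Map

variable {E : Type*} [CommRing E] (φ : F →+* E)

/-- Change of coefficients. -/
def mapT (f : (κ → R) → F) : (κ → R) → E := fun I => φ (f I)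

lemma mapT_apply (f : (κ → R) → F) (I : κ → R) : mapT φ f I = φ (f I) := rfl

lemma mapT_rel (e : κ ≃ κ') (f : (κ → R) → F) : mapT φ (rel e f) = rel e (mapT φ f) := rfl

lemma mapT_tmul (f : (κ → R) → F) (g : (κ' → R) → F) :
    mapT φ (tmul f g) = tmul (mapT φ f) (mapT φ g) := by
  funext I; simp only [mapT_apply, tmul_apply, map_mul]

variable [Fintype κ'] [Fintype R] [DecidableEq R] [DecidableEq κ'] [Fintype κ] [DecidableEq κ]

lemma mapT_cupK (c : κ → Bool) : mapT φ (cupK S F c) = cupK S E c := by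
  funext I
  rw [mapT_apply, cupK, cupK, map_prod]
  refine Finset.prod_congr rfl fun s _ => ?_
  split_ifs <;> simp

lemma mapT_jl (f : (κ → R) → F) : mapT φ (jl S f) = jl S (mapT φ f) := by
  funext I
  rw [mapT_apply, jl_apply, jl_apply, map_mul, map_prod, mapT_apply]
  simp

lemma mapT_pc (f : (κ ⊕ (κ' ⊕ κ') → R) → F) : mapT φ (pc S f) = pc S (mapT φ f) := by
  funext I
  rw [mapT_apply, pc_apply, pc_apply, map_sum]
  refine Finset.sum_congr rfl fun J _ => ?_
  rw [map_mul, map_prod, mapT_apply]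
  simp

lemma map_dot (f g : (κ → R) → F) : φ (dot f g) = dot (mapT φ f) (mapT φ g) := by
  rw [dot, dot, map_sum]
  exact Finset.sum_congr rfl fun _ _ => by rw [map_mul]; rfl

lemma map_bp (f g : (κ → R) → F) : φ (bp S f g) = bp S (mapT φ f) (mapT φ g) := by
  rw [bp, bp, map_dot, mapT_jl]

end Map

/-- A system of tensors with rational structure, closed under relabelling, products and
contractions. -/
structure Closed {R : Type} {F : Type*} [Field F] (S : Std R) [Fintype R] [DecidableEq R]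
    (A : ∀ κ : Type, ((κ → R) → F) → Prop) : Prop where
  sub : ∀ κ, RatSub F (A κ)
  rel : ∀ {κ κ' : Type} (e : κ ≃ κ') {f : (κ → R) → F}, A κ f → A κ' (rel e f)
  tmul : ∀ {κ κ' : Type} {f : (κ → R) → F} {g : (κ' → R) → F}, A κ f → A κ' g →
    A (κ ⊕ κ') (tmul f g)
  ctr : ∀ {κ κ' : Type} [Fintype κ] [DecidableEq κ] [Fintype κ'] [DecidableEq κ']
    {f : (κ ⊕ κ' → R) → F} {g : (κ' → R) → F}, A (κ ⊕ κ') f → A κ' g → A κ (ctr S f g)
  cup : ∀ {κ : Type} [Fintype κ] [DecidableEq κ] (c : κ → Bool), A (κ ⊕ κ) (cupK S F c)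
  rat : ∀ {f : (Empty → R) → F}, A Empty f → ∃ q : ℚ, f = fun _ => (q : F)
  one : A Empty fun _ => 1
  even : ∀ {κ : Type} [Fintype κ] {f : (κ → R) → F}, A κ f → Evn S f

end Pool.Agent.Y97.FD
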