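import Pool.Agent.Y97.FD.Std

/-!
# Statements of two self-contained lemmas
-/

set_option linter.unusedSectionVars false

universe u

open Pool.Agent.W552

namespace Pool.Agent.Y97.FD

/-- Job D: standard forms of supersymmetric nondegenerate matrices. -/
def JobD : Prop :=
  ∀ (F : Type u) [Field F] [CharZero F] [IsAlgClosed F] (N : ℕ) (par : Fin N → Bool)
    (G : Matrix (Fin N) (Fin N) F), (∀ i j, par i ≠ par j → G i j = 0) →
    (∀ i j, G j i = (if par i then -1 else 1) * G i j) → G.det ≠ 0 →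
    ∃ (S : Std (Fin N)) (M M' : Matrix (Fin N) (Fin N) F), (∀ i, S.par i = par i) ∧
      M * M' = 1 ∧ M.transpose * S.C F * M = G ∧ (∀ i j, par i ≠ par j → M i j = 0)

/-- A system of tensors with rational structure, closed under relabelling, products and
contractions of one pair of slots. -/
structure ClosedB {R : Type} {F : Type*} [Field F] (S : Std R) [Fintype R] [DecidableEq R]
    (A : ∀ κ : Type, ((κ → R) → F) → Prop) : Prop where
  sub : ∀ κ, RatSub F (A κ)
  rel : ∀ {κ κ' : Type} (e : κ ≃ κ') {f : (κ → R) → F}, A κ f → A κ' (rel e f)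
  tmul : ∀ {κ κ' : Type} {f : (κ → R) → F} {g : (κ' → R) → F}, A κ f → A κ' g →
    A (κ ⊕ κ') (tmul f g)
  pc1 : ∀ {κ : Type} [Fintype κ] [DecidableEq κ] {f : (κ ⊕ (Unit ⊕ Unit) → R) → F},
    A (κ ⊕ (Unit ⊕ Unit)) f → A κ (pc S f)
  cup1 : ∀ c : Unit → Bool, A (Unit ⊕ Unit) (cupK S F c)
  rat : ∀ {f : (Empty → R) → F}, A Empty f → ∃ q : ℚ, f = fun _ => (q : F)
  one : A Empty fun _ => 1
  even : ∀ {κ : Type} [Fintype κ] {f : (κ → R) → F}, A κ f → Evn S f

/-- Job E: such a system is closed. -/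
def JobE : Prop :=
  ∀ {R : Type} {F : Type u} [Field F] (S : Std R) [Fintype R] [DecidableEq R]
    (A : ∀ κ : Type, ((κ → R) → F) → Prop), ClosedB S A → Closed S A

end Pool.Agent.Y97.FD
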