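import Pool.Agent.Y97.FD.Std
import Pool.Agent.Y97.Gram2

/-!
# Closed systems: numerically trivial tensors and orthogonal families
-/

set_option linter.unusedSectionVars false

open Finset Pool.Agent.W552 Pool.Agent.Y97

namespace Pool.Agent.Y97.FD

variable {R : Type} {K : Type*} [Field K] [CharZero K] {κ κ' κ'' : Type} {S : Std R}
  [Fintype R] [DecidableEq R] {A : ∀ κ : Type, ((κ → R) → K) → Prop}

namespace Closed

variable (hA : Closed S A)

include hA

lemma cupA_mem [Fintype κ] [DecidableEq κ] : A (κ ⊕ κ) (cupA S κ K) := by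
  rw [cupA_eq]
  exact (hA.sub _).sum _ fun c _ => hA.cup c

lemma pc [Fintype κ] [DecidableEq κ] [Fintype κ'] [DecidableEq κ']
    {f : (κ ⊕ (κ' ⊕ κ') → R) → K} (hf : A _ f) : A κ (pc S f) := by
  rw [pc_eq_ctr]
  exact hA.ctr hf hA.cupA_mem

lemma bp_rat [Fintype κ] [DecidableEq κ] {f g : (κ → R) → K} (hf : A κ f) (hg : A κ g) :
    ∃ q : ℚ, bp S f g = (q : K) := by
  have h1 : A Empty (FD.ctr S (FD.rel (Equiv.emptySum Empty κ).symm f) g) :=
    hA.ctr (hA.rel _ hf) hg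
  obtain ⟨q, hq⟩ := hA.rat h1
  refine ⟨q, ?_⟩
  have h2 : FD.ctr S (FD.rel (Equiv.emptySum Empty κ).symm f) g (fun s => s.elim) = (q : K) :=
    congrFun hq _
  rw [← h2]
  rfl

lemma symm [Fintype κ] [DecidableEq κ] {f g : (κ → R) → K} (hf : A κ f) :
    bp S f g = bp S g f := bp_comm S (hA.even hf)

lemma sub_mem {f g : (κ → R) → K} (hf : A κ f) (hg : A κ g) : A κ (f - g) :=
  (hA.sub κ).sub hf hg

lemma sum_mem {ι : Type*} {s : Finset ι} {f : ι → (κ → R) → K} (hf : ∀ i ∈ s, A κ (f i)) :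
    A κ (∑ i ∈ s, f i) := by
  classical
  induction s using Finset.induction_on with
  | empty => simpa using (hA.sub κ).zero
  | insert a s ha ih =>
    rw [Finset.sum_insert ha]
    exact (hA.sub κ).add (hf a (Finset.mem_insert_self _ _))
      (ih fun i hi => hf i (Finset.mem_insert_of_mem hi))

end Closed

/-- The form as a bilinear map. -/
noncomputable def bpL (S : Std R) (K : Type*) [Field K] (κ : Type) [Fintype κ] [DecidableEq κ] :
    ((κ → R) → K) →ₗ[K] ((κ → R) → K) →ₗ[K] K :=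
  LinearMap.mk₂ K (bp S) (add_bp S) (smul_bp S) (bp_add S) (bp_smul S)

lemma bpL_apply [Fintype κ] [DecidableEq κ] (f g : (κ → R) → K) :
    bpL S K κ f g = bp S f g := rfl

/-- Numerically trivial tensors. -/
def NT (S : Std R) (A : ∀ κ : Type, ((κ → R) → K) → Prop) (κ : Type) [Fintype κ]
    [DecidableEq κ] (f : (κ → R) → K) : Prop :=
  A κ f ∧ ∀ g, A κ g → bp S f g = 0

section NTs

variable (hA : Closed S A) [Fintype κ] [DecidableEq κ] [Fintype κ'] [DecidableEq κ']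

include hA

lemma NT.rel {f : (κ → R) → K} (h : NT S A κ f) (e : κ ≃ κ') : NT S A κ' (FD.rel e f) := by
  refine ⟨hA.rel e h.1, fun g hg => ?_⟩
  rw [bp_rel_left]
  exact h.2 _ (hA.rel _ hg)

lemma NT.tmul {f : (κ → R) → K} {g : (κ' → R) → K} (h : NT S A κ f) (hg : A κ' g) :
    NT S A (κ ⊕ κ') (FD.tmul f g) := by
  refine ⟨hA.tmul h.1 hg, fun u hu => ?_⟩
  rw [← bp_ctr S _ _ (hA.even hg)]
  exact h.2 _ (hA.ctr hu hg)

lemma NT.tmul' {f : (κ → R) → K} {g : (κ' → R) → K} (hf : A κ f) (h : NT S A κ' g) :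
    NT S A (κ ⊕ κ') (FD.tmul f g) := by
  rw [tmul_comm]
  exact (h.tmul hA hf).rel hA _

lemma NT.pc {f : (κ ⊕ (κ' ⊕ κ') → R) → K} (h : NT S A _ f) : NT S A κ (FD.pc S f) := by
  refine ⟨hA.pc h.1, fun u hu => ?_⟩
  rw [hA.symm (hA.pc h.1), pc_eq_ctr, bp_ctr S _ _ (evn_cupA S)]
  have h1 := h.2 _ (hA.tmul hu hA.cupA_mem)
  rwa [hA.symm h.1] at h1

lemma NT.add {f g : (κ → R) → K} (hf : NT S A κ f) (hg : NT S A κ g) : NT S A κ (f + g) :=
  ⟨(hA.sub κ).add hf.1 hg.1, fun u hu => by rw [add_bp, hf.2 u hu, hg.2 u hu, add_zero]⟩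

lemma NT.zero : NT S A κ 0 := ⟨(hA.sub κ).zero, fun u _ => by rw [bp, dot]; simp⟩

end NTs

/-- A rational number equal to the given element, if there is one. -/
noncomputable def toQ (x : K) : ℚ := by
  classical exact if h : ∃ q : ℚ, x = (q : K) then h.choose else 0

lemma toQ_spec {x : K} (h : ∃ q : ℚ, x = (q : K)) : x = (toQ x : K) := by
  classical
  rw [toQ, dif_pos h]
  exact h.choose_spec

lemma toQ_cast (q : ℚ) : toQ (q : K) = q := by
  have h := toQ_spec (x := (q : K)) ⟨q, rfl⟩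
  exact_mod_cast h.symm

/-- Maximal orthogonal families in all degrees. -/
structure Bas (S : Std R) (A : ∀ κ : Type, ((κ → R) → K) → Prop) where
  /-- the number of elements -/
  d : ℕ → ℕ
  /-- the elements -/
  t : ∀ n, Fin (d n) → (Fin n → R) → K
  /-- the squares -/
  s : ∀ n, Fin (d n) → ℚ
  mf : ∀ n, MF (bpL S K (Fin n)) (A (Fin n)) (t n) (s n)

lemma Closed.rq (hA : Closed S A) (κ : Type) [Fintype κ] [DecidableEq κ] :
    RQ (bpL S K κ) (A κ) where
  sub := hA.sub κ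
  rat hx hy := hA.bp_rat hx hy
  symm hx _ := hA.symm hx

lemma Closed.exists_bas (hA : Closed S A) : Nonempty (Bas S A) := by
  choose d t s h using fun n : ℕ => exists_MF (hA.rq (Fin n))
  exact ⟨⟨d, t, s, h⟩⟩

namespace Bas

variable (B : Bas S A)

/-- The coefficients. -/
noncomputable def cf (n : ℕ) (a : (Fin n → R) → K) (i : Fin (B.d n)) : ℚ :=
  toQ (bp S a (B.t n i)) / B.s n i

variable (hA : Closed S A)

include hA

lemma bp_cf {n : ℕ} {a : (Fin n → R) → K} (ha : A (Fin n) a) (i : Fin (B.d n)) :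
    bp S a (B.t n i) = ((B.cf n a i * B.s n i : ℚ) : K) := by
  rw [cf, div_mul_cancel₀ _ ((B.mf n).ne i)]
  exact toQ_spec (hA.bp_rat ha ((B.mf n).mem i))

lemma cf_eq {n : ℕ} {a : (Fin n → R) → K} {i : Fin (B.d n)} {q : ℚ}
    (h : bp S a (B.t n i) = (q : K)) : B.cf n a i = q / B.s n i := by
  rw [cf, h, toQ_cast]

lemma cf_add {n : ℕ} {a b : (Fin n → R) → K} (ha : A (Fin n) a) (hb : A (Fin n) b)
    (i : Fin (B.d n)) : B.cf n (a + b) i = B.cf n a i + B.cf n b i := by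
  rw [B.cf_eq hA (q := B.cf n a i * B.s n i + B.cf n b i * B.s n i)]
  · rw [← add_mul, mul_div_cancel_right₀ _ ((B.mf n).ne i)]
  · rw [add_bp, B.bp_cf hA ha, B.bp_cf hA hb]; push_cast; ring

lemma cf_smul {n : ℕ} {a : (Fin n → R) → K} (ha : A (Fin n) a) (q : ℚ)
    (i : Fin (B.d n)) : B.cf n ((q : K) • a) i = q * B.cf n a i := by
  rw [B.cf_eq hA (q := q * (B.cf n a i * B.s n i))]
  · rw [← mul_assoc, mul_div_cancel_right₀ _ ((B.mf n).ne i)]
  · rw [smul_bp, B.bp_cf hA ha]; push_cast; ring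

lemma cf_nt {n : ℕ} {a : (Fin n → R) → K} (ha : NT S A (Fin n) a)
    (i : Fin (B.d n)) : B.cf n a i = 0 := by
  rw [B.cf_eq hA (q := 0)]
  · rw [zero_div]
  · rw [ha.2 _ ((B.mf n).mem i), Rat.cast_zero]

lemma cf_self {n : ℕ} (i j : Fin (B.d n)) : B.cf n (B.t n i) j = if i = j then 1 else 0 := by
  by_cases h : i = j
  · subst h
    rw [if_pos rfl, B.cf_eq hA ((B.mf n).self i), div_self ((B.mf n).ne i)]
  · rw [if_neg h, B.cf_eq hA (q := 0), zero_div]
    rw [Rat.cast_zero]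
    exact (B.mf n).orth i j h

lemma expand {n : ℕ} {a b : (Fin n → R) → K} (ha : A (Fin n) a) (hb : A (Fin n) b) :
    bp S a b = ((∑ i, B.cf n a i * B.cf n b i * B.s n i : ℚ) : K) := by
  have h1 := (B.mf n).expand (hA.rq (Fin n)) ha hb (a := fun i => B.cf n a i * B.s n i)
    (a' := fun i => B.cf n b i * B.s n i) (fun i => B.bp_cf hA ha i) (fun i => B.bp_cf hA hb i)
  rw [bpL_apply] at h1
  rw [h1]
  congr 1
  refine Finset.sum_congr rfl fun i _ => ?_
  have := (B.mf n).ne i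
  field_simp

lemma comb_mem {n : ℕ} (c : Fin (B.d n) → ℚ) : A (Fin n) (∑ i, (c i : K) • B.t n i) :=
  hA.sum_mem fun i _ => (hA.sub _).smul _ ((B.mf n).mem i)

/-- Every tensor of the system is a combination of the elements of the family, up to a
numerically trivial one. -/
lemma nt_sub {n : ℕ} {a : (Fin n → R) → K} (ha : A (Fin n) a) :
    NT S A (Fin n) (a - ∑ i, (B.cf n a i : K) • B.t n i) := by
  refine ⟨hA.sub_mem ha (B.comb_mem hA _), fun b hb => ?_⟩
  rw [sub_bp, sum_bp, B.expand hA ha hb, sub_eq_zero, Rat.cast_sum]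
  refine Finset.sum_congr rfl fun i _ => ?_
  rw [smul_bp, ← hA.symm hb, B.bp_cf hA hb]
  push_cast
  ring

end Bas

end Pool.Agent.Y97.FD
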