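import Pool.Agent.Y97.FD.Min

/-!
# Tensors fixed by the stabilizer of a model
-/

set_option linter.unusedSectionVars false

open Finset Matrix Pool.Agent.W552 Pool.Agent.Y97

namespace Pool.Agent.Y97.FD

variable {R : Type} [Fintype R] [DecidableEq R] {S : Std R} {κ : Type} [Fintype κ]
  [DecidableEq κ]

lemma mapT_act {E E' : Type*} [CommRing E] [CommRing E'] (φ : E →+* E') (g : Matrix R R E)
    (f : (κ → R) → E) : mapT φ (act g f) = act (g.map φ) (mapT φ f) := by
  funext I
  rw [mapT_apply, act_apply, act_apply, map_sum]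
  exact Finset.sum_congr rfl fun J _ => by rw [map_mul, map_prod]; rfl

lemma mapT_mapT {E E' E'' : Type*} [CommRing E] [CommRing E'] [CommRing E''] (φ : E →+* E')
    (ψ : E' →+* E'') (f : (κ → R) → E) : mapT ψ (mapT φ f) = mapT (ψ.comp φ) f := rfl

lemma det_Xm_ne_zero : (Xm R ℂ).det ≠ 0 := by
  intro h
  have h1 := congrArg (MvPolynomial.eval fun v : R × R => if v.1 = v.2 then (1 : ℂ) else 0) h
  rw [RingHom.map_det, map_zero] at h1
  have h2 : (MvPolynomial.eval fun v : R × R => if v.1 = v.2 then (1 : ℂ) else 0).mapMatrix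
      (Xm R ℂ) = 1 := by
    ext i j
    rw [RingHom.mapMatrix_apply, Matrix.map_apply, Xm_apply, MvPolynomial.eval_X,
      Matrix.one_apply]
  rw [h2, Matrix.det_one] at h1
  exact one_ne_zero h1

variable {K : Type*} [Field K] [CharZero K] {A : ∀ κ : Type, ((κ → R) → K) → Prop}
  {B : Bas S A}

/-- The coordinates of the translates of the model. -/
noncomputable def gens (B : Bas S A) (x : B.Vr → ℂ) : Set (MvPolynomial (R × R) ℂ) :=
  Set.range MvPolynomial.C ∪ {p | ∃ (n : ℕ) (i : Fin (B.d n)) (I : Fin n → R),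
    p = act (Xm R ℂ) (mapT MvPolynomial.C (B.xt x n i)) I}

/-- The ring generated by the coordinates of the translates of the model. -/
noncomputable def AA (B : Bas S A) (x : B.Vr → ℂ) : Subring (MvPolynomial (R × R) ℂ) :=
  Subring.closure (gens B x)

lemma C_mem_AA (x : B.Vr → ℂ) (a : ℂ) : MvPolynomial.C a ∈ AA B x :=
  Subring.subset_closure (Or.inl ⟨a, rfl⟩)

/-- Evaluation at the identity. -/
noncomputable def ev1 (R : Type) [DecidableEq R] : MvPolynomial (R × R) ℂ →+* ℂ :=
  MvPolynomial.eval fun v => if v.1 = v.2 then (1 : ℂ) else 0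

lemma ev1_act (f : (κ → R) → ℂ) (I : κ → R) :
    ev1 R (act (Xm R ℂ) (mapT MvPolynomial.C f) I) = f I := by
  have h1 := congrFun (mapT_act (ev1 R) (Xm R ℂ) (mapT MvPolynomial.C f)) I
  rw [mapT_apply] at h1
  rw [h1]
  have h2 : (Xm R ℂ).map (ev1 R) = 1 := by
    ext i j
    rw [Matrix.map_apply, Xm_apply, ev1, MvPolynomial.eval_X, Matrix.one_apply]
  rw [h2, act_one, mapT_apply, mapT_apply, ev1, MvPolynomial.eval_C]

/-- The translated generic matrix. -/
noncomputable def trM (g : Matrix R R ℂ) : Matrix R R (MvPolynomial (R × R) ℂ) :=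
  (g.map MvPolynomial.C : Matrix R R (MvPolynomial (R × R) ℂ)) * Xm R ℂ

/-- Translation. -/
noncomputable def trl (g : Matrix R R ℂ) : MvPolynomial (R × R) ℂ →+* MvPolynomial (R × R) ℂ :=
  (MvPolynomial.aeval fun v : R × R => trM g v.1 v.2 :
    MvPolynomial (R × R) ℂ →ₐ[ℂ] MvPolynomial (R × R) ℂ).toRingHom

lemma trl_C (g : Matrix R R ℂ) (a : ℂ) : trl g (MvPolynomial.C a) = MvPolynomial.C a :=
  MvPolynomial.aeval_C _ _

lemma trl_act (g : Matrix R R ℂ) (f : (κ → R) → ℂ) (I : κ → R) :
    trl g (act (Xm R ℂ) (mapT MvPolynomial.C f) I) =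
      ∑ J, MvPolynomial.C (∏ s, g (I s) (J s)) * act (Xm R ℂ) (mapT MvPolynomial.C f) J := by
  have h1 := congrFun (mapT_act (trl g) (Xm R ℂ) (mapT MvPolynomial.C f)) I
  rw [mapT_apply] at h1
  rw [h1]
  have h2 : (Xm R ℂ).map (trl g) = (g.map MvPolynomial.C : Matrix R R (MvPolynomial (R × R) ℂ)) *
      Xm R ℂ := by
    ext1 i j
    rw [Matrix.map_apply, Xm_apply]
    exact MvPolynomial.aeval_X _ _
  have h3 : mapT (trl g) (mapT MvPolynomial.C f) = mapT MvPolynomial.C f := by
    funext J
    rw [mapT_apply, mapT_apply, trl_C]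
  rw [h2, h3, act_mul, act_apply]
  refine Finset.sum_congr rfl fun J _ => ?_
  rw [map_prod]
  rfl

lemma trl_mem {x : B.Vr → ℂ} (g : Matrix R R ℂ) {u : MvPolynomial (R × R) ℂ}
    (hu : u ∈ AA B x) : trl g u ∈ AA B x := by
  have h1 : AA B x ≤ (AA B x).comap (trl g) := by
    rw [AA, Subring.closure_le]
    rintro _ (⟨a, rfl⟩ | ⟨n, i, I, rfl⟩)
    · change trl g (MvPolynomial.C a) ∈ AA B x
      rw [trl_C]
      exact C_mem_AA x a
    · change trl g _ ∈ AA B x
      rw [trl_act]
      exact Subring.sum_mem _ fun J _ => Subring.mul_mem _ (C_mem_AA x _)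
        (Subring.subset_closure (Or.inr ⟨n, i, J, rfl⟩))
  exact h1 hu

lemma ev1_trl (g : Matrix R R ℂ) (u : MvPolynomial (R × R) ℂ) :
    ev1 R (trl g u) = MvPolynomial.eval (fun v => g v.1 v.2) u := by
  have h : (ev1 R).comp (trl g) = MvPolynomial.eval (fun v => g v.1 v.2) := by
    refine MvPolynomial.ringHom_ext (fun a => ?_) (fun v => ?_)
    · rw [RingHom.comp_apply, trl_C, ev1, MvPolynomial.eval_C, MvPolynomial.eval_C]
    · rw [RingHom.comp_apply, MvPolynomial.eval_X]
      have h1 : trl g (MvPolynomial.X v) = trM g v.1 v.2 :=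
        MvPolynomial.aeval_X _ _
      rw [h1, trM, Matrix.mul_apply, map_sum, Finset.sum_eq_single v.2]
      · rw [map_mul, Matrix.map_apply, Xm_apply, ev1, MvPolynomial.eval_C, MvPolynomial.eval_X,
          if_pos rfl, mul_one]
      · intro k _ hk
        rw [map_mul, Xm_apply, ev1, MvPolynomial.eval_X, if_neg hk, mul_zero]
      · intro h; exact absurd (Finset.mem_univ _) h
  exact RingHom.congr_fun h u

variable (hA : Closed S A) {x : B.Vr → ℂ} (hx : IsModel B x)

lemma lam_AA {u : MvPolynomial (R × R) ℂ} (hu : u ∈ AA B x) (p : MvPolynomial (R × R) ℂ) :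
    lam hA hx hx (u * p) = ev1 R u * lam hA hx hx p := by
  refine Subring.closure_induction (p := fun u _ => ∀ p, lam hA hx hx (u * p) =
    ev1 R u * lam hA hx hx p) ?_ ?_ ?_ ?_ ?_ ?_ hu p
  · rintro _ (⟨a, rfl⟩ | ⟨n, i, I, rfl⟩) p
    · rw [← MvPolynomial.smul_eq_C_mul, map_smul, ev1, MvPolynomial.eval_C, smul_eq_mul]
    · have h1 := lam_rho hA hx hx ((B.mf n).mem i) I p
      rw [rho_eq hA hx (Equiv.refl _) ((B.mf n).mem i)] at h1
      change lam hA hx hx (act (Xm R ℂ) (mapT MvPolynomial.C (B.rn x n (B.t n i))) I * p) =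
        B.rn x n (B.t n i) I * lam hA hx hx p at h1
      rw [Bas.rn_self hA] at h1
      rw [h1, ev1_act]
  · intro p; rw [zero_mul, map_zero, map_zero, zero_mul]
  · intro p; rw [one_mul, map_one, one_mul]
  · intro a b _ _ ha hb p; rw [add_mul, map_add, map_add, ha, hb, add_mul]
  · intro a _ ha p; rw [neg_mul, map_neg, map_neg, ha, neg_mul]
  · intro a b _ _ ha hb p; rw [mul_assoc, ha, hb, map_mul, mul_assoc]

/-- A tensor fixed by the stabilizer satisfies the equations up to radicals. -/
lemma mem_radical {c : (κ → R) → ℂ}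
    (hc : ∀ g : Matrix R R ℂ, (∀ n i, act g (B.xt x n i) = B.xt x n i) → act g c = c)
    (I : κ → R) :
    act (Xm R ℂ) (mapT MvPolynomial.C c) I - MvPolynomial.C (c I) ∈ (JI B x x).radical := by
  rw [← MvPolynomial.vanishingIdeal_zeroLocus_eq_radical (K := ℂ) (JI B x x)]
  intro g hg
  rw [map_sub, aeval_act, MvPolynomial.aeval_C]
  have h1 : ∀ n i, act (Matrix.of fun i j => g (i, j)) (B.xt x n i) = B.xt x n i := by
    intro n i
    funext I
    have h2 := hg _ (Ideal.subset_span ⟨n, i, I, rfl⟩)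
    rw [map_sub, aeval_act, MvPolynomial.aeval_C, sub_eq_zero] at h2
    exact h2
  have h2 := congrFun (hc _ h1) I
  rw [act_mapT_id, h2]
  exact sub_self _

/-- The coordinates of the translates of a fixed tensor are fractions. -/
lemma exists_frac (jobB : JobB) {c : (κ → R) → ℂ}
    (hc : ∀ g : Matrix R R ℂ, (∀ n i, act g (B.xt x n i) = B.xt x n i) → act g c = c)
    (I : κ → R) : ∃ y ∈ AA B x, ∃ z ∈ AA B x, z ≠ 0 ∧
      z * act (Xm R ℂ) (mapT MvPolynomial.C c) I = y := by
  let P := MvPolynomial (R × R) ℂ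
  let F := FractionRing P
  let L : Subfield F := Subfield.closure (algebraMap P F '' gens B x)
  have h1 : algebraMap P F (act (Xm R ℂ) (mapT MvPolynomial.C c) I) ∈ L := by
    refine jobB F L _ ?_
    intro Ω _ s t hst
    let s' : P →+* Ω := s.comp (algebraMap P F)
    let t' : P →+* Ω := t.comp (algebraMap P F)
    have hst' : ∀ p ∈ gens B x, s' p = t' p := fun p hp =>
      hst _ (Subfield.subset_closure ⟨p, hp, rfl⟩)
    let φ : ℂ →+* Ω := s'.comp MvPolynomial.C
    have hφ : t'.comp MvPolynomial.C = φ := by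
      ext a
      exact (hst' _ (Or.inl ⟨a, rfl⟩)).symm
    let Gs : Matrix R R Ω := (Xm R ℂ).map s'
    let Gt : Matrix R R Ω := (Xm R ℂ).map t'
    have hs : ∀ {κ : Type} [Fintype κ] [DecidableEq κ] (f : (κ → R) → ℂ) (I : κ → R),
        s' (act (Xm R ℂ) (mapT MvPolynomial.C f) I) = act Gs (mapT φ f) I := by
      intro κ _ _ f I
      exact congrFun (mapT_act s' (Xm R ℂ) (mapT MvPolynomial.C f)) I
    have ht : ∀ {κ : Type} [Fintype κ] [DecidableEq κ] (f : (κ → R) → ℂ) (I : κ → R),
        t' (act (Xm R ℂ) (mapT MvPolynomial.C f) I) = act Gt (mapT φ f) I := by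
      intro κ _ _ f I
      have h2 := congrFun (mapT_act t' (Xm R ℂ) (mapT MvPolynomial.C f)) I
      rw [mapT_mapT, hφ] at h2
      exact h2
    have hdet : IsUnit Gs.det := by
      rw [isUnit_iff_ne_zero]
      intro h0
      have h2 : s' (Xm R ℂ).det = 0 := by
        rw [RingHom.map_det]; exact h0
      have h3 : s ((algebraMap P F) (Xm R ℂ).det) = 0 := h2
      rw [map_eq_zero] at h3
      exact det_Xm_ne_zero ((IsFractionRing.injective P F) (h3.trans (map_zero _).symm))
    have hGi : Gs * Gs⁻¹ = 1 := Matrix.mul_nonsing_inv _ hdet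
    have hGi' : Gs⁻¹ * Gs = 1 := Matrix.nonsing_inv_mul _ hdet
    let g : Matrix R R Ω := Gs⁻¹ * Gt
    have hg : ∀ n i, act g (mapT φ (B.xt x n i)) = mapT φ (B.xt x n i) := by
      intro n i
      have h2 : act Gt (mapT φ (B.xt x n i)) = act Gs (mapT φ (B.xt x n i)) := by
        funext J
        rw [← ht, ← hs]
        exact (hst' _ (Or.inr ⟨n, i, J, rfl⟩)).symm
      rw [act_mul, h2, ← act_mul, hGi', act_one]
    let _ : Algebra ℂ Ω := φ.toAlgebra
    have h4 : ∀ p ∈ JI B x x, MvPolynomial.aeval (fun v : R × R => g v.1 v.2) p = 0 := by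
      intro p hp
      refine Submodule.span_induction (p := fun p _ =>
        MvPolynomial.aeval (fun v : R × R => g v.1 v.2) p = 0) ?_ ?_ ?_ ?_ hp
      · rintro _ ⟨n, i, J, rfl⟩
        rw [map_sub, aeval_act, MvPolynomial.aeval_C]
        have h5 := congrFun (hg n i) J
        exact sub_eq_zero.2 h5
      · exact map_zero _
      · intro a b _ _ ha hb; rw [map_add, ha, hb, add_zero]
      · intro a b _ hb; rw [smul_eq_mul, map_mul, hb, mul_zero]
    have h5 : act g (mapT φ c) = mapT φ c := by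
      funext J
      obtain ⟨m, hm⟩ := mem_radical hc J
      have h6 := h4 _ hm
      rw [map_pow] at h6
      have h7 := eq_zero_of_pow_eq_zero h6
      rw [map_sub, aeval_act, MvPolynomial.aeval_C, sub_eq_zero] at h7
      exact h7
    change s' _ = t' _
    rw [hs, ht]
    have h6 : Gt = Gs * g := by
      rw [← Matrix.mul_assoc, hGi, Matrix.one_mul]
    rw [h6, act_mul, h5]
  rw [Subfield.mem_closure_iff] at h1
  rw [← RingHom.map_closure] at h1
  obtain ⟨_, ⟨y, hy, rfl⟩, _, ⟨z, hz, rfl⟩, h2⟩ := h1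
  by_cases hz0 : z = 0
  · subst hz0
    rw [map_zero, div_zero] at h2
    have h3 : act (Xm R ℂ) (mapT MvPolynomial.C c) I = 0 :=
      (IsFractionRing.injective P F) (h2.symm.trans (map_zero _).symm)
    exact ⟨0, Subring.zero_mem _, 1, Subring.one_mem _, one_ne_zero, by rw [h3, mul_zero]⟩
  · refine ⟨y, hy, z, hz, hz0, IsFractionRing.injective P F ?_⟩
    have hz1 : algebraMap P F z ≠ 0 := by
      intro h; exact hz0 (IsFractionRing.injective P F (h.trans (map_zero _).symm))
    rw [map_mul, ← h2, mul_div_cancel₀ _ hz1]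

include hA hx in
/-- Tensors fixed by the stabilizer of a model are combinations of tensors of the model. -/
theorem tannaka (jobB : JobB) {c : (κ → R) → ℂ}
    (hc : ∀ g : Matrix R R ℂ, (∀ n i, act g (B.xt x n i) = B.xt x n i) → act g c = c) :
    c ∈ Sp B x κ := by
  have hQ : Pj B x x κ c = c := by
    rw [← sub_eq_zero]
    funext I
    obtain ⟨y, hy, z, hz, hz0, hzy⟩ := exists_frac jobB hc I
    have h1 : ∀ g : Matrix R R ℂ, MvPolynomial.eval (fun v => g v.1 v.2) z *
        (act g (Pj B x x κ c) I - act g c I) = 0 := by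
      intro g
      have h2 := congrArg (trl g) hzy
      rw [map_mul] at h2
      have h3 := congrArg (lam hA hx hx) h2
      rw [lam_AA hA hx (trl_mem g hz)] at h3
      have h4 := lam_AA hA hx (trl_mem g hy) 1
      rw [mul_one, lam_one, mul_one] at h4
      rw [h4, ev1_trl, ev1_trl, ← hzy, map_mul, trl_act, map_sum] at h3
      have h5 : ∑ J, lam hA hx hx (MvPolynomial.C (∏ s, g (I s) (J s)) *
          act (Xm R ℂ) (mapT MvPolynomial.C c) J) = act g (Pj B x x κ c) I := by
        rw [act_apply]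
        refine Finset.sum_congr rfl fun J _ => ?_
        rw [← MvPolynomial.smul_eq_C_mul, map_smul, lam_act_one, smul_eq_mul]
      have h6 : MvPolynomial.eval (fun v => g v.1 v.2) (act (Xm R ℂ) (mapT MvPolynomial.C c) I) =
          act g c I := by
        have := aeval_act (Ω := ℂ) (fun v : R × R => g v.1 v.2) c I
        rw [act_mapT_id] at this
        exact this
      rw [h5, h6] at h3
      linear_combination h3
    have h2 : z * act (Xm R ℂ) (mapT MvPolynomial.C (Pj B x x κ c - c)) I = 0 := by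
      apply MvPolynomial.funext
      intro v
      rw [map_mul, map_zero]
      have h3 := h1 (Matrix.of fun i j => v (i, j))
      have h4 := aeval_act (Ω := ℂ) v (Pj B x x κ c - c) I
      rw [act_mapT_id, act_sub] at h4
      change MvPolynomial.eval v z * MvPolynomial.aeval v _ = 0
      rw [h4]
      exact h3
    have h3 := (mul_eq_zero.1 h2).resolve_left hz0
    have h4 := congrArg (ev1 R) h3
    rw [ev1_act, map_zero] at h4
    exact h4
  rw [← hQ]
  exact Pj_mem c

end Pool.Agent.Y97.FD
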