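import Mathlib

/-!
# Tensors indexed by finite types
-/

set_option linter.unusedSectionVars false

open Finset

namespace Pool.Agent.Y97.FD

variable {R : Type} {F : Type*} [CommRing F] {κ κ' κ'' : Type}

/-- The product of two tensors. -/
def tmul (f : (κ → R) → F) (g : (κ' → R) → F) : (κ ⊕ κ' → R) → F :=
  fun I => f (fun s => I (Sum.inl s)) * g (fun s => I (Sum.inr s))

/-- Relabelling. -/
def rel (e : κ ≃ κ') (f : (κ → R) → F) : (κ' → R) → F := fun I => f (fun s => I (e s))

lemma rel_apply (e : κ ≃ κ') (f : (κ → R) → F) (I : κ' → R) : rel e f I = f (fun s => I (e s)) :=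
  rfl

lemma tmul_apply (f : (κ → R) → F) (g : (κ' → R) → F) (I : κ ⊕ κ' → R) :
    tmul f g I = f (fun s => I (Sum.inl s)) * g (fun s => I (Sum.inr s)) := rfl

lemma rel_refl (f : (κ → R) → F) : rel (Equiv.refl κ) f = f := rfl

lemma rel_rel (e : κ ≃ κ') (e' : κ' ≃ κ'') (f : (κ → R) → F) :
    rel e' (rel e f) = rel (e.trans e') f := rfl

lemma rel_symm_rel (e : κ ≃ κ') (f : (κ → R) → F) : rel e.symm (rel e f) = f := by
  rw [rel_rel, Equiv.self_trans_symm, rel_refl]

lemma rel_rel_symm (e : κ ≃ κ') (f : (κ' → R) → F) : rel e (rel e.symm f) = f := by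
  rw [rel_rel, Equiv.symm_trans_self, rel_refl]

lemma rel_add (e : κ ≃ κ') (f g : (κ → R) → F) : rel e (f + g) = rel e f + rel e g := rfl

lemma rel_sub (e : κ ≃ κ') (f g : (κ → R) → F) : rel e (f - g) = rel e f - rel e g := rfl

lemma rel_smul (e : κ ≃ κ') (c : F) (f : (κ → R) → F) : rel e (c • f) = c • rel e f := rfl

lemma rel_zero (e : κ ≃ κ') : rel e (0 : (κ → R) → F) = 0 := rfl

lemma rel_sum {ι : Type*} (e : κ ≃ κ') (s : Finset ι) (f : ι → (κ → R) → F) :
    rel e (∑ i ∈ s, f i) = ∑ i ∈ s, rel e (f i) := by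
  funext I
  rw [rel_apply, Finset.sum_apply, Finset.sum_apply]
  rfl

lemma tmul_add (f : (κ → R) → F) (g h : (κ' → R) → F) :
    tmul f (g + h) = tmul f g + tmul f h := by
  funext I; simp only [tmul_apply, Pi.add_apply, mul_add]

lemma add_tmul (f g : (κ → R) → F) (h : (κ' → R) → F) :
    tmul (f + g) h = tmul f h + tmul g h := by
  funext I; simp only [tmul_apply, Pi.add_apply, add_mul]

lemma tmul_sub (f : (κ → R) → F) (g h : (κ' → R) → F) :
    tmul f (g - h) = tmul f g - tmul f h := by
  funext I; simp only [tmul_apply, Pi.sub_apply, mul_sub]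

lemma sub_tmul (f g : (κ → R) → F) (h : (κ' → R) → F) :
    tmul (f - g) h = tmul f h - tmul g h := by
  funext I; simp only [tmul_apply, Pi.sub_apply, sub_mul]

lemma tmul_smul (c : F) (f : (κ → R) → F) (g : (κ' → R) → F) :
    tmul f (c • g) = c • tmul f g := by
  funext I; simp only [tmul_apply, Pi.smul_apply, smul_eq_mul]; ring

lemma smul_tmul (c : F) (f : (κ → R) → F) (g : (κ' → R) → F) :
    tmul (c • f) g = c • tmul f g := by
  funext I; simp only [tmul_apply, Pi.smul_apply, smul_eq_mul]; ring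

lemma tmul_zero (f : (κ → R) → F) : tmul f (0 : (κ' → R) → F) = 0 := by
  funext I; simp only [tmul_apply, Pi.zero_apply, mul_zero]

lemma zero_tmul (g : (κ' → R) → F) : tmul (0 : (κ → R) → F) g = 0 := by
  funext I; simp only [tmul_apply, Pi.zero_apply, zero_mul]

lemma tmul_sum {ι : Type*} (f : (κ → R) → F) (s : Finset ι) (g : ι → (κ' → R) → F) :
    tmul f (∑ i ∈ s, g i) = ∑ i ∈ s, tmul f (g i) := by
  funext I; simp only [tmul_apply, Finset.sum_apply, Finset.mul_sum]

lemma sum_tmul {ι : Type*} (s : Finset ι) (f : ι → (κ → R) → F) (g : (κ' → R) → F) :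
    tmul (∑ i ∈ s, f i) g = ∑ i ∈ s, tmul (f i) g := by
  funext I; simp only [tmul_apply, Finset.sum_apply, Finset.sum_mul]

lemma tmul_rel {κ₁ κ₂ : Type} (e : κ ≃ κ₁) (e' : κ' ≃ κ₂) (f : (κ → R) → F)
    (g : (κ' → R) → F) : tmul (rel e f) (rel e' g) = rel (Equiv.sumCongr e e') (tmul f g) := rfl

lemma tmul_assoc (f : (κ → R) → F) (g : (κ' → R) → F) (h : (κ'' → R) → F) :
    tmul f (tmul g h) = rel (Equiv.sumAssoc κ κ' κ'') (tmul (tmul f g) h) := by
  funext I; simp only [tmul_apply, rel_apply, mul_assoc]; rfl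

lemma tmul_comm (f : (κ → R) → F) (g : (κ' → R) → F) :
    tmul g f = rel (Equiv.sumComm κ κ') (tmul f g) := by
  funext I; simp only [tmul_apply, rel_apply, mul_comm]; rfl

section Sums

variable [Fintype R] [Fintype κ] [DecidableEq κ] [Fintype κ'] [DecidableEq κ']
  [Fintype κ''] [DecidableEq κ'']

lemma sum_sumArrow (F' : (κ ⊕ κ' → R) → F) :
    ∑ J, F' J = ∑ I : κ → R, ∑ I' : κ' → R, F' (Sum.elim I I') := by
  rw [← Fintype.sum_prod_type']
  exact (Fintype.sum_equiv (Equiv.sumArrowEquivProdArrow κ κ' R).symm _ _ (fun x => rfl)).symm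

lemma sum_rel (e : κ ≃ κ') (F' : (κ' → R) → F) :
    ∑ J, F' J = ∑ I : κ → R, F' (fun s => I (e.symm s)) :=
  (Fintype.sum_equiv (Equiv.arrowCongr e (Equiv.refl R)) _ _ (fun x => rfl)).symm

/-- The dot product. -/
def dot (f g : (κ → R) → F) : F := ∑ I, f I * g I

lemma dot_comm (f g : (κ → R) → F) : dot f g = dot g f := by
  simp only [dot, mul_comm]

lemma dot_add (f g h : (κ → R) → F) : dot f (g + h) = dot f g + dot f h := by
  simp only [dot, Pi.add_apply, mul_add, Finset.sum_add_distrib]

lemma dot_sub (f g h : (κ → R) → F) : dot f (g - h) = dot f g - dot f h := by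
  simp only [dot, Pi.sub_apply, mul_sub, Finset.sum_sub_distrib]

lemma dot_smul (c : F) (f g : (κ → R) → F) : dot f (c • g) = c * dot f g := by
  simp only [dot, Pi.smul_apply, smul_eq_mul, Finset.mul_sum]
  exact Finset.sum_congr rfl fun _ _ => by ring

lemma dot_zero (f : (κ → R) → F) : dot f 0 = 0 := by simp [dot]

lemma dot_sum {ι : Type*} (f : (κ → R) → F) (s : Finset ι) (g : ι → (κ → R) → F) :
    dot f (∑ i ∈ s, g i) = ∑ i ∈ s, dot f (g i) := by
  simp only [dot, Finset.sum_apply, Finset.mul_sum]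
  exact Finset.sum_comm

lemma dot_rel (e : κ ≃ κ') (f : (κ → R) → F) (g : (κ' → R) → F) :
    dot (rel e f) g = dot f (rel e.symm g) := by
  rw [dot, sum_rel e, dot]
  refine Finset.sum_congr rfl fun I _ => ?_
  rw [rel_apply, rel_apply]
  simp

lemma dot_rel_rel (e : κ ≃ κ') (f g : (κ → R) → F) : dot (rel e f) (rel e g) = dot f g := by
  rw [dot_rel, rel_symm_rel]

/-- Partial dot product. -/
def pdot (f : (κ ⊕ κ' → R) → F) (g : (κ' → R) → F) : (κ → R) → F :=
  fun I => ∑ I', f (Sum.elim I I') * g I'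

lemma dot_pdot (v : (κ → R) → F) (f : (κ ⊕ κ' → R) → F) (g : (κ' → R) → F) :
    dot v (pdot f g) = dot (tmul v g) f := by
  rw [dot, dot, sum_sumArrow]
  refine Finset.sum_congr rfl fun I _ => ?_
  rw [pdot, Finset.mul_sum]
  refine Finset.sum_congr rfl fun I' _ => ?_
  rw [tmul_apply]
  simp only [Sum.elim_inl, Sum.elim_inr]
  ring

lemma dot_tmul (f f' : (κ → R) → F) (g g' : (κ' → R) → F) :
    dot (tmul f g) (tmul f' g') = dot f f' * dot g g' := by
  rw [dot, sum_sumArrow, dot, dot, Finset.sum_mul_sum]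
  refine Finset.sum_congr rfl fun I _ => Finset.sum_congr rfl fun I' _ => ?_
  rw [tmul_apply, tmul_apply]
  simp only [Sum.elim_inl, Sum.elim_inr]
  ring

lemma dot_ext {f g : (κ → R) → F} [DecidableEq R] (h : ∀ v, dot v f = dot v g) : f = g := by
  funext I
  have := h (Pi.single I 1)
  simpa [dot, Pi.single_apply] using this

variable [DecidableEq R]

/-- The action of a matrix. -/
def act (g : Matrix R R F) (f : (κ → R) → F) : (κ → R) → F :=
  fun I => ∑ J, (∏ s, g (I s) (J s)) * f J

lemma act_apply (g : Matrix R R F) (f : (κ → R) → F) (I : κ → R) :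
    act g f I = ∑ J, (∏ s, g (I s) (J s)) * f J := rfl

lemma act_add (g : Matrix R R F) (f f' : (κ → R) → F) : act g (f + f') = act g f + act g f' := by
  funext I; simp only [act_apply, Pi.add_apply, mul_add, Finset.sum_add_distrib]

lemma act_sub (g : Matrix R R F) (f f' : (κ → R) → F) : act g (f - f') = act g f - act g f' := by
  funext I; simp only [act_apply, Pi.sub_apply, mul_sub, Finset.sum_sub_distrib]

lemma act_smul (g : Matrix R R F) (c : F) (f : (κ → R) → F) : act g (c • f) = c • act g f := by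
  funext I
  simp only [act_apply, Pi.smul_apply, smul_eq_mul, Finset.mul_sum]
  exact Finset.sum_congr rfl fun _ _ => by ring

lemma act_zero (g : Matrix R R F) : act g (0 : (κ → R) → F) = 0 := by
  funext I; simp [act_apply]

lemma act_sum {ι : Type*} (g : Matrix R R F) (s : Finset ι) (f : ι → (κ → R) → F) :
    act g (∑ i ∈ s, f i) = ∑ i ∈ s, act g (f i) := by
  funext I
  simp only [act_apply, Finset.sum_apply, Finset.mul_sum]
  exact Finset.sum_comm

lemma act_one (f : (κ → R) → F) : act (1 : Matrix R R F) f = f := by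
  funext I
  rw [act_apply, Finset.sum_eq_single I]
  · simp
  · intro J _ hJ
    have : ∃ s, I s ≠ J s := by
      by_contra h
      push Not at h
      exact hJ (funext fun s => (h s).symm)
    obtain ⟨s, hs⟩ := this
    have h0 : (∏ s, (1 : Matrix R R F) (I s) (J s)) = 0 :=
      Finset.prod_eq_zero (Finset.mem_univ s) (Matrix.one_apply_ne hs)
    rw [h0, zero_mul]
  · intro h; exact absurd (Finset.mem_univ _) h

lemma act_mul (g h : Matrix R R F) (f : (κ → R) → F) : act (g * h) f = act g (act h f) := by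
  funext I
  simp only [act_apply, Matrix.mul_apply, Finset.mul_sum]
  rw [Finset.sum_comm]
  refine Finset.sum_congr rfl fun J _ => ?_
  rw [Finset.prod_univ_sum, Fintype.piFinset_univ, Finset.sum_mul]
  refine Finset.sum_congr rfl fun L _ => ?_
  rw [Finset.prod_mul_distrib]
  ring

lemma act_rel (g : Matrix R R F) (e : κ ≃ κ') (f : (κ → R) → F) :
    act g (rel e f) = rel e (act g f) := by
  funext I
  rw [act_apply, sum_rel e, rel_apply, act_apply]
  refine Finset.sum_congr rfl fun J _ => ?_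
  rw [rel_apply]
  congr 1
  · exact (Fintype.prod_equiv e _ _ (fun s => by simp)).symm
  · simp

lemma act_tmul (g : Matrix R R F) (f : (κ → R) → F) (f' : (κ' → R) → F) :
    act g (tmul f f') = tmul (act g f) (act g f') := by
  funext I
  rw [act_apply, sum_sumArrow, tmul_apply, act_apply, act_apply, Finset.sum_mul_sum]
  refine Finset.sum_congr rfl fun J _ => Finset.sum_congr rfl fun J' _ => ?_
  rw [tmul_apply, Fintype.prod_sum_type]
  simp only [Sum.elim_inl, Sum.elim_inr]
  ring

lemma dot_act (g : Matrix R R F) (f f' : (κ → R) → F) :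
    dot (act g f) f' = dot f (act g.transpose f') := by
  simp only [dot, act_apply, Finset.sum_mul, Finset.mul_sum]
  rw [Finset.sum_comm]
  refine Finset.sum_congr rfl fun I _ => Finset.sum_congr rfl fun J _ => ?_
  simp only [Matrix.transpose_apply]
  ring

lemma pdot_act (g : Matrix R R F) (f : (κ ⊕ κ' → R) → F) (b : (κ' → R) → F) :
    pdot (act g f) b = act g (pdot f (act g.transpose b)) := by
  apply dot_ext
  intro v
  rw [dot_pdot, dot_comm _ (act g f), dot_act, act_tmul, dot_comm v, dot_act, dot_comm _ (act _ v),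
    dot_pdot, dot_comm]

end Sums

end Pool.Agent.Y97.FD
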