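import Pool.Agent.Y97.FD.Geo6
import Pool.Agent.Y248.FD.Cup
import Pool.Agent.Y333.FD.Ctr
import Pool.Agent.Y46.FD.Pos

/-!
# The standard conjecture of Hodge type for the classes generated by one power
-/

set_option linter.unusedSectionVars false

open CategoryTheory AlgebraicGeometry Finset

universe u v

namespace Pool.Agent.Y97.FD

open Pool.Agent.H914 Pool.Agent.H914.VarClass Pool.Agent.H914.VarClass.Obj
  Pool.Agent.H914.WeilCohomology Pool.Agent.H281R3.HT Pool.Agent.W552 Pool.Agent.W539.Ker

variable {k : Type u} [Field k] {𝒱 : VarClass k} {ops : CycleOps 𝒱}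

/-- The standard conjecture of Hodge type for `X ^ (m + 1)`, `m ≥ 2`, implies the positivity for all
the classes on all the powers of `X` which are generated by the classes on `X ^ (m + 1)`. -/
theorem gen_hodge (W : WeilCohomology.{u, v} ops) (P : Polarized 𝒱) (hP : Good W P) {m : ℕ}
    (hm : 2 ≤ m) (hH : HodgeNum W (power ops P m).X (power ops P m).D) {s n : ℕ}
    (hn : 2 * n ≤ (power ops P s).X.dim) {z : (power ops P s).X.Cycles}
    (hz : Primitive W (power ops P s).X (power ops P s).D n z)
    (hgen : Gen W P m s (W.cl (power ops P s).X z))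
    (hne : ∃ w, (power ops P s).X.IsCyc ((power ops P s).X.dim - n) w ∧
      (power ops P s).X.V.degCycle (ops.mul z w) ≠ 0) :
    0 < pairing ops (power ops P s).X (power ops P s).D n z z := by
  obtain ⟨f, G⟩ := exists_gp hP.div hP.hardLefschetz hP.lefschetzB
  obtain ⟨b⟩ := exists_HB W P.X
  have hpz : PZ (ops := ops) b := Pool.Agent.Y333.FD.exists_pz G b
  have hN : ClosedN (gpar b) (Gm b f) (A0 (ops := ops) b) :=
    a0_closed hpz (Pool.Agent.Y248.FD.a0_cup G b) (fun hg => Pool.Agent.Y333.FD.a0_ctr G b hg)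
      (fun hg => Pool.Agent.Y333.FD.a0_even G b hg)
  have hpos : PosAt W P f m := by
    intro c hc q hq
    exact Pool.Agent.Y46.FD.pos_of_hodge (gp_frm G m).fr (gp_frm G m).gd.sy hH hc hq
  exact main_pos G hpz hN hP.deg_pos hm hpos hn hz hgen hne

end Pool.Agent.Y97.FD
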