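import Pool.Agent.Y97.FD.Exi

/-!
# Any two complex models differ by a matrix
-/

set_option linter.unusedSectionVars false

open Finset Pool.Agent.W552 Pool.Agent.Y97

namespace Pool.Agent.Y97.FD

variable {R : Type} {K : Type*} [Field K] [CharZero K] {κ κ' κ'' : Type} {S : Std R}
  [Fintype R] [DecidableEq R] {A : ∀ κ : Type, ((κ → R) → K) → Prop}

section

variable {B : Bas S A} (hA : Closed S A) {x x' : B.Vr → ℂ} [Fintype κ] [DecidableEq κ]
  [Fintype κ'] [DecidableEq κ']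

/-- The transported members of the family. -/
noncomputable def Bas.tk (B : Bas S A) (κ : Type) [Fintype κ] (i : Fin (B.d (Fintype.card κ))) :
    (κ → R) → K := rel (Fintype.equivFin κ).symm (B.t _ i)

include hA in
omit [CharZero K] [DecidableEq κ] in
lemma tk_mem (i : Fin (B.d (Fintype.card κ))) : A κ (B.tk κ i) :=
  hA.rel _ ((B.mf _).mem i)

include hA in
lemma rho_tk (i : Fin (B.d (Fintype.card κ))) :
    rho B x κ (B.tk κ i) = rel (Fintype.equivFin κ).symm (B.xt x _ i) := by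
  rw [rho, Bas.tk, rel_rel_symm, Bas.rn_self hA]

include hA in
/-- Every tensor of the model is a combination of basis tensors. -/
lemma rho_expand (a : (κ → R) → K) :
    rho B x κ a = ∑ i, (B.cf _ (rel (Fintype.equivFin κ) a) i : ℂ) • rho B x κ (B.tk κ i) := by
  rw [rho, Bas.rn, rel_sum]
  refine Finset.sum_congr rfl fun i _ => ?_
  rw [rho_tk hA, rel_smul]
  rfl

include hA in
lemma bp_tk {a : (κ → R) → K} (ha : A κ a) (i : Fin (B.d (Fintype.card κ))) :
    bp S a (B.tk κ i) =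
      ((B.cf _ (rel (Fintype.equivFin κ) a) i * B.s _ i : ℚ) : K) := by
  rw [Bas.tk, ← bp_rel_left, B.bp_cf hA (hA.rel _ ha)]

/-- The span of the tensors of the model. -/
noncomputable def Sp (B : Bas S A) (x : B.Vr → ℂ) (κ : Type) [Fintype κ] :
    Submodule ℂ ((κ → R) → ℂ) :=
  Submodule.span ℂ (Set.range fun i => rho B x κ (B.tk κ i))

include hA in
lemma rho_mem_Sp (a : (κ → R) → K) : rho B x κ a ∈ Sp B x κ := by
  rw [rho_expand hA]
  exact Submodule.sum_mem _ fun i _ => Submodule.smul_mem _ _ (Submodule.subset_span ⟨i, rfl⟩)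

section

variable (hx : IsModel B x) (hx' : IsModel B x')

include hA hx

lemma bp_rho_eq (hx' : IsModel B x') {a b : (κ → R) → K} (ha : A κ a) (hb : A κ b) :
    bp S (rho B x κ a) (rho B x κ b) = bp S (rho B x' κ a) (rho B x' κ b) := by
  obtain ⟨q, hq⟩ := hA.bp_rat ha hb
  rw [rho_bp hA hx ha hb hq, rho_bp hA hx' ha hb hq]

lemma rho_bp_tk {a : (κ → R) → K} (ha : A κ a) (i : Fin (B.d (Fintype.card κ))) :
    bp S (rho B x κ a) (rho B x κ (B.tk κ i)) =
      ((B.cf _ (rel (Fintype.equivFin κ) a) i * B.s _ i : ℚ) : ℂ) :=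
  rho_bp hA hx ha (tk_mem hA i) (bp_tk hA ha i)

lemma rho_bp_tk_tk (i j : Fin (B.d (Fintype.card κ))) :
    bp S (rho B x κ (B.tk κ i)) (rho B x κ (B.tk κ j)) = if i = j then (B.s _ j : ℂ) else 0 := by
  rw [rho_bp_tk hA hx (tk_mem hA i), Bas.tk, rel_rel_symm, B.cf_self hA]
  split_ifs <;> simp

lemma Sp_nondeg {u : (κ → R) → ℂ} (hu : u ∈ Sp B x κ)
    (h : ∀ b, A κ b → bp S u (rho B x κ b) = 0) : u = 0 := by
  obtain ⟨c, rfl⟩ := (Submodule.mem_span_range_iff_exists_fun ℂ).1 hu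
  refine Finset.sum_eq_zero fun j _ => ?_
  have h1 := h _ (tk_mem hA j)
  rw [sum_bp, Finset.sum_eq_single j] at h1
  · rw [smul_bp, rho_bp_tk_tk hA hx, if_pos rfl] at h1
    have h2 : (B.s _ j : ℂ) ≠ 0 := by exact_mod_cast (B.mf _).ne j
    rw [(mul_eq_zero.1 h1).resolve_right h2, zero_smul]
  · intro i _ hi
    rw [smul_bp, rho_bp_tk_tk hA hx, if_neg hi, mul_zero]
  · intro h; exact absurd (Finset.mem_univ _) h

lemma Sp_rel (e : κ ≃ κ') {u : (κ → R) → ℂ} (hu : u ∈ Sp B x κ) : rel e u ∈ Sp B x κ' := by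
  refine Submodule.span_induction (p := fun u _ => rel e u ∈ Sp B x κ') ?_ ?_ ?_ ?_ hu
  · rintro _ ⟨i, rfl⟩
    change rel e (rho B x κ (B.tk κ i)) ∈ _
    rw [← rho_rel hA hx e (tk_mem hA i)]
    exact rho_mem_Sp hA _
  · exact Submodule.zero_mem _
  · intro a b _ _ ha hb; exact Submodule.add_mem _ ha hb
  · intro c a _ ha; exact Submodule.smul_mem _ _ ha

lemma Sp_tmul_rho {u : (κ → R) → ℂ} (hu : u ∈ Sp B x κ) {b : (κ' → R) → K} (hb : A κ' b) :
    tmul u (rho B x κ' b) ∈ Sp B x (κ ⊕ κ') := by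
  refine Submodule.span_induction (p := fun u _ => tmul u (rho B x κ' b) ∈ Sp B x (κ ⊕ κ'))
    ?_ ?_ ?_ ?_ hu
  · rintro _ ⟨i, rfl⟩
    change tmul (rho B x κ (B.tk κ i)) _ ∈ _
    rw [← rho_tmul hA hx (tk_mem hA i) hb]
    exact rho_mem_Sp hA _
  · rw [zero_tmul]; exact Submodule.zero_mem _
  · intro a b _ _ ha hb; rw [add_tmul]; exact Submodule.add_mem _ ha hb
  · intro c a _ ha; rw [smul_tmul]; exact Submodule.smul_mem _ _ ha

end

/-- The projection to the span of a model, transported to another one. -/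
noncomputable def Pj (B : Bas S A) (x x' : B.Vr → ℂ) (κ : Type) [Fintype κ] [DecidableEq κ] :
    ((κ → R) → ℂ) →ₗ[ℂ] ((κ → R) → ℂ) where
  toFun t := ∑ i, (bp S t (rho B x κ (B.tk κ i)) * ((B.s _ i)⁻¹ : ℚ)) • rho B x' κ (B.tk κ i)
  map_add' t t' := by
    rw [← Finset.sum_add_distrib]
    exact Finset.sum_congr rfl fun i _ => by rw [add_bp, add_mul, add_smul]
  map_smul' c t := by
    rw [RingHom.id_apply, Finset.smul_sum]
    exact Finset.sum_congr rfl fun i _ => by rw [smul_bp, mul_assoc, mul_smul]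

lemma Pj_apply (t : (κ → R) → ℂ) : Pj B x x' κ t =
    ∑ i, (bp S t (rho B x κ (B.tk κ i)) * ((B.s _ i)⁻¹ : ℚ)) • rho B x' κ (B.tk κ i) := rfl

lemma Pj_mem (t : (κ → R) → ℂ) : Pj B x x' κ t ∈ Sp B x' κ := by
  rw [Pj_apply]
  exact Submodule.sum_mem _ fun i _ => Submodule.smul_mem _ _ (Submodule.subset_span ⟨i, rfl⟩)

variable (hx : IsModel B x) (hx' : IsModel B x')

include hA hx'

lemma Pj_bp (t : (κ → R) → ℂ) {b : (κ → R) → K} (hb : A κ b) :
    bp S (Pj B x x' κ t) (rho B x' κ b) = bp S t (rho B x κ b) := by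
  rw [Pj_apply, sum_bp, rho_expand hA (x := x) b, bp_sum]
  refine Finset.sum_congr rfl fun i _ => ?_
  rw [smul_bp, bp_smul, bp_comm S (rho_even hx'), rho_bp_tk hA hx' hb]
  have h1 : (B.s _ i : ℂ) ≠ 0 := by exact_mod_cast (B.mf _).ne i
  push_cast
  field_simp

lemma Pj_unique {t u : (κ → R) → ℂ} (hu : u ∈ Sp B x' κ)
    (h : ∀ b, A κ b → bp S u (rho B x' κ b) = bp S t (rho B x κ b)) : Pj B x x' κ t = u := by
  rw [← sub_eq_zero]
  apply Sp_nondeg hA hx' (Submodule.sub_mem _ (Pj_mem t) hu)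
  intro b hb
  rw [sub_bp, Pj_bp hA hx' t hb, h b hb, sub_self]

include hx

lemma Pj_rel (e : κ ≃ κ') (t : (κ → R) → ℂ) :
    Pj B x x' κ' (rel e t) = rel e (Pj B x x' κ t) := by
  apply Pj_unique hA hx' (Sp_rel hA hx' e (Pj_mem t))
  intro b hb
  rw [bp_rel_left, bp_rel_left, ← rho_rel hA hx' _ hb, ← rho_rel hA hx _ hb,
    Pj_bp hA hx' t (hA.rel _ hb)]

lemma Pj_tmul (t : (κ → R) → ℂ) {a : (κ' → R) → K} (ha : A κ' a) :
    Pj B x x' (κ ⊕ κ') (tmul t (rho B x κ' a)) = tmul (Pj B x x' κ t) (rho B x' κ' a) := by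
  apply Pj_unique hA hx' (Sp_tmul_rho hA hx' (Pj_mem t) ha)
  intro b hb
  rw [← bp_ctr S _ _ (rho_even hx'), ← bp_ctr S _ _ (rho_even hx), ← rho_ctr hA hx' hb ha,
    ← rho_ctr hA hx hb ha, Pj_bp hA hx' t (hA.ctr hb ha)]

lemma Pj_rho {a : (κ → R) → K} (ha : A κ a) : Pj B x x' κ (rho B x κ a) = rho B x' κ a :=
  Pj_unique hA hx' (rho_mem_Sp hA a) fun b hb => bp_rho_eq hA hx' hx ha hb

end

/-- The natural operators of two models. -/
noncomputable def FPj {B : Bas S A} (hA : Closed S A) {x x' : B.Vr → ℂ} (hx : IsModel B x)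
    (hx' : IsModel B x') : Fnc R ℂ where
  app κ _ _ := Pj B x x' κ
  nat e t := Pj_rel hA hx hx' e t

/-- The ideal of the matrices carrying the first model to the second. -/
noncomputable def JI (B : Bas S A) (x x' : B.Vr → ℂ) : Ideal (MvPolynomial (R × R) ℂ) :=
  Ideal.span {p | ∃ (n : ℕ) (i : Fin (B.d n)) (I : Fin n → R),
    p = act (Xm R ℂ) (mapT MvPolynomial.C (B.xt x n i)) I - MvPolynomial.C (B.xt x' n i I)}

section

variable {B : Bas S A} (hA : Closed S A) {x x' : B.Vr → ℂ} (hx : IsModel B x)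
    (hx' : IsModel B x')

/-- The functional on the matrix coordinates. -/
noncomputable def lam : MvPolynomial (R × R) ℂ →ₗ[ℂ] ℂ :=
  (Dm R ℂ).E (FPj hA hx hx') Empty (fun _ => 1) (fun s => s.elim)

lemma lam_one : lam hA hx hx' 1 = 1 := by
  rw [lam, Vs.E_one]
  change Pj B x x' Empty (fun _ => 1) _ = 1
  rw [← rho_one hA hx, Pj_rho hA hx hx' hA.one, rho_one hA hx']

lemma lam_act [Fintype κ] [DecidableEq κ] (f : (κ → R) → ℂ) (J : κ → R)
    (q : MvPolynomial (R × R) ℂ) :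
    lam hA hx hx' (act (Xm R ℂ) (mapT MvPolynomial.C f) J * q) =
      (Dm R ℂ).E (FPj hA hx hx') κ f J q := by
  rw [lam, E_act]
  have h1 : tmul (fun _ : Empty → R => (1 : ℂ)) f = rel (Equiv.emptySum Empty κ).symm f := by
    funext I
    rw [tmul_apply, one_mul]; rfl
  rw [h1, Vs.E_rel]
  rfl

lemma lam_act_one [Fintype κ] [DecidableEq κ] (f : (κ → R) → ℂ) (J : κ → R) :
    lam hA hx hx' (act (Xm R ℂ) (mapT MvPolynomial.C f) J) = Pj B x x' κ f J := by
  have h1 := lam_act hA hx hx' f J 1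
  rw [mul_one, Vs.E_one] at h1
  exact h1

lemma lam_rho [Fintype κ] [DecidableEq κ] {a : (κ → R) → K} (ha : A κ a) (J : κ → R)
    (q : MvPolynomial (R × R) ℂ) :
    lam hA hx hx' (act (Xm R ℂ) (mapT MvPolynomial.C (rho B x κ a)) J * q) =
      rho B x' κ a J * lam hA hx hx' q := by
  rw [lam, E_act, Vs.E_tmul (D := Dm R ℂ) (Φ := FPj hA hx hx') (b' := rho B x' κ a)
    (fun l => Pj_tmul hA hx hx' _ ha)]
  rfl

lemma lam_JI {p : MvPolynomial (R × R) ℂ} (hp : p ∈ JI B x x') (q : MvPolynomial (R × R) ℂ) :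
    lam hA hx hx' (p * q) = 0 := by
  refine Submodule.span_induction (p := fun p _ => ∀ q, lam hA hx hx' (p * q) = 0)
    ?_ ?_ ?_ ?_ hp q
  · rintro _ ⟨n, i, I, rfl⟩ q
    have h1 := lam_rho hA hx hx' ((B.mf n).mem i) I q
    rw [rho_eq hA hx (Equiv.refl _) ((B.mf n).mem i), rho_eq hA hx' (Equiv.refl _)
      ((B.mf n).mem i)] at h1
    change lam hA hx hx' (act (Xm R ℂ) (mapT MvPolynomial.C (B.rn x n (B.t n i))) I * q) =
      B.rn x' n (B.t n i) I * lam hA hx hx' q at h1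
    rw [Bas.rn_self hA, Bas.rn_self hA] at h1
    rw [sub_mul, map_sub, h1, ← MvPolynomial.smul_eq_C_mul, map_smul, smul_eq_mul, sub_self]
  · intro q; rw [zero_mul, map_zero]
  · intro a b _ _ ha hb q; rw [add_mul, map_add, ha, hb, add_zero]
  · intro c a _ ha q
    rw [smul_eq_mul, mul_comm c, mul_assoc]; exact ha _

include hA hx hx' in
lemma one_not_mem_JI : (1 : MvPolynomial (R × R) ℂ) ∉ JI B x x' := by
  intro h
  have h1 := lam_JI hA hx hx' h 1
  rw [mul_one, lam_one] at h1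
  exact one_ne_zero h1

/-- Evaluation of the coordinates of the action. -/
lemma aeval_act {Ω : Type*} [CommRing Ω] [Algebra ℂ Ω] (g : R × R → Ω) [Fintype κ]
    [DecidableEq κ] (f : (κ → R) → ℂ) (I : κ → R) :
    MvPolynomial.aeval g (act (Xm R ℂ) (mapT MvPolynomial.C f) I) =
      act (Matrix.of fun i j => g (i, j)) (mapT (algebraMap ℂ Ω) f) I := by
  rw [act_apply, act_apply, map_sum]
  refine Finset.sum_congr rfl fun J _ => ?_
  rw [map_mul, map_prod, mapT_apply, MvPolynomial.aeval_C, mapT_apply]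
  congr 1
  exact Finset.prod_congr rfl fun s _ => by rw [Xm_apply, MvPolynomial.aeval_X]; rfl

lemma act_mapT_id [Fintype κ] [DecidableEq κ] (g : Matrix R R ℂ) (f : (κ → R) → ℂ) :
    act g (mapT (algebraMap ℂ ℂ) f) = act g f := rfl

include hA in
/-- A matrix carrying the basis tensors to the basis tensors. -/
lemma act_rho_of_xt {g : Matrix R R ℂ} (h : ∀ n i, act g (B.xt x n i) = B.xt x' n i)
    [Fintype κ] [DecidableEq κ] (a : (κ → R) → K) : act g (rho B x κ a) = rho B x' κ a := by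
  rw [rho_expand hA, rho_expand hA (x := x'), act_sum]
  refine Finset.sum_congr rfl fun i _ => ?_
  rw [act_smul, rho_tk hA, act_rel, h, rho_tk hA]

/-- Any two models over the complex numbers differ by a matrix. -/
theorem exists_g (hA : Closed S A) (hx : IsModel B x) (hx' : IsModel B x') :
    ∃ g : Matrix R R ℂ, ∀ n i, act g (B.xt x n i) = B.xt x' n i := by
  have h1 : (MvPolynomial.zeroLocus ℂ (JI B x x')).Nonempty := by
    rw [Set.nonempty_iff_ne_empty]
    intro h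
    have h2 := MvPolynomial.vanishingIdeal_zeroLocus_eq_radical (K := ℂ) (JI B x x')
    rw [h, MvPolynomial.vanishingIdeal_empty] at h2
    have h3 := Ideal.radical_eq_top.1 h2.symm
    exact one_not_mem_JI hA hx hx' (by rw [h3]; exact Submodule.mem_top)
  obtain ⟨g, hg⟩ := h1
  refine ⟨Matrix.of fun i j => g (i, j), fun n i => ?_⟩
  funext I
  have h2 := hg _ (Ideal.subset_span ⟨n, i, I, rfl⟩)
  rw [map_sub, aeval_act, MvPolynomial.aeval_C, sub_eq_zero] at h2
  exact h2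

end

end Pool.Agent.Y97.FD
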